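import Pool.Agent.NCT.CocDef

/-! # NCT: maps from the covering space of a cocycle

`E` is the union of the open sets `tau U g`, the maps `tau · g` are local homeomorphisms. So a map
`f : E → Y` is continuous as soon as all `fun w => f (tau w g)` are continuous, and a compatible
family of maps `F · g : W → Y` defines a map on `E`. -/

set_option autoImplicit false

open Set Filter Topology

namespace Pool.Agent.NCT

variable {M W G : Type} [TopologicalSpace M] [TopologicalSpace W] [Group G] {q : W → M}
  {C : Cocycle G q}

/-- For `e = tau w g`: `fun w => tau w g` is a local homeomorphism, so it maps the filter `𝓝 w` onto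
`𝓝 e` (`IsLocalHomeomorph.map_nhds_eq`); hence `Tendsto f (𝓝 e)` follows. -/
theorem Cover.continuous_iff (V : Cover C) {Y : Type} [TopologicalSpace Y] (f : V.E → Y)
    (h : ∀ g, Continuous fun w => f (V.tau w g)) : Continuous f := by
  rw [continuous_iff_continuousAt]
  intro e
  obtain ⟨w, g, rfl⟩ := V.surj e
  have h1 : map (fun w => V.tau w g) (𝓝 w) = 𝓝 (V.tau w g) := (V.loc g).map_nhds_eq w
  unfold ContinuousAt
  rw [← h1, tendsto_map'_iff]
  exact (h g).tendsto w

/-- Choose for every `e` a pair `(w, g)` with `tau w g = e` (`V.surj`) and put `f e = F w g`; use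
`V.eq_iff` and the hypothesis; continuity by `continuous_iff`. -/
theorem Cover.exists_map (V : Cover C) {Y : Type} [TopologicalSpace Y] (F : W → G → Y)
    (hF : ∀ g, Continuous fun w => F w g) (h : ∀ w w' g k, C.R w w' k → F w g = F w' (g * k)) :
    ∃ f : V.E → Y, Continuous f ∧ ∀ w g, f (V.tau w g) = F w g := by
  choose a b hab using V.surj
  have key : ∀ w g, F (a (V.tau w g)) (b (V.tau w g)) = F w g := by
    intro w g
    obtain ⟨k, hk, hg⟩ := (V.eq_iff w (a (V.tau w g)) g (b (V.tau w g))).1 (hab (V.tau w g)).symm
    rw [hg]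
    exact (h _ _ g k hk).symm
  refine ⟨fun e => F (a e) (b e), V.continuous_iff _ fun g => ?_, key⟩
  have h1 : (fun w => F (a (V.tau w g)) (b (V.tau w g))) = fun w => F w g :=
    funext fun w => key w g
  rw [h1]
  exact hF g

/-- left multiplication: `exists_map` with `F w h = tau w (g * h)` -/
theorem Cover.exists_left (V : Cover C) (g : G) :
    ∃ f : V.E → V.E, Continuous f ∧ ∀ w h, f (V.tau w h) = V.tau w (g * h) := by
  refine V.exists_map (fun w h => V.tau w (g * h)) (fun h => (V.loc (g * h)).continuous) ?_
  intro w w' h k hk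
  exact (V.eq_iff _ _ _ _).2 ⟨k, hk, (mul_assoc _ _ _).symm⟩

end Pool.Agent.NCT
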