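import Pool.Agent.NCT.DeckDef

/-! # NCT: deck transformations of a simply connected covering -/

set_option autoImplicit false

open Set Filter Topology

namespace Pool.Agent.NCT

variable {M X : Type} [TopologicalSpace M] [TopologicalSpace X] {p : X → M}

/-- A deck transformation with a fixed point is trivial (`IsCoveringMap.eq_of_comp_eq`, `X` is
connected). -/
theorem deck_free [ConnectedSpace X] (hp : IsCoveringMap p) {d e : Deck p} {x : X}
    (h : d.1 x = e.1 x) : d = e := by
  have h1 : (fun y => d.1 y) = fun y => e.1 y := by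
    refine hp.eq_of_comp_eq (deck_cont d) (deck_cont e) ?_ x h
    funext y
    show p (d.1 y) = p (e.1 y)
    exact (deck_proj d y).trans (deck_proj e y).symm
  exact Subtype.ext (Equiv.ext fun y => congrFun h1 y)

/-- The deck group is transitive on the fibres. `IsCoveringMap.existsUnique_continuousMap_lifts`
applied to the map `p : X → M` (simply connected, locally path connected domain) gives continuous
`F, F'` over `M` with `F x = y` and `F' y = x`; `F ∘ F'` and `F' ∘ F` are the identity by uniqueness
of lifts. -/
theorem exists_deck_map [SimplyConnectedSpace X] [LocallyPathConnectedSpace X]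
    (hp : IsCoveringMap p) {x y : X} (h : p x = p y) : ∃ d : Deck p, d.1 x = y := by
  obtain ⟨F, ⟨hF1, hF2⟩, -⟩ :=
    hp.existsUnique_continuousMap_lifts (⟨p, hp.continuous⟩ : C(X, M)) x y h.symm
  obtain ⟨F', ⟨hF'1, hF'2⟩, -⟩ :=
    hp.existsUnique_continuousMap_lifts (⟨p, hp.continuous⟩ : C(X, M)) y x h
  have hp1 : ∀ z, p (F z) = p z := fun z => congrFun hF2 z
  have hp2 : ∀ z, p (F' z) = p z := fun z => congrFun hF'2 z
  have e1 : (fun z => F' (F z)) = fun z => z := by
    refine hp.eq_of_comp_eq (F'.continuous.comp F.continuous) continuous_id ?_ x ?_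
    · funext z
      show p (F' (F z)) = p z
      rw [hp2, hp1]
    · show F' (F x) = x
      rw [hF1, hF'1]
  have e2 : (fun z => F (F' z)) = fun z => z := by
    refine hp.eq_of_comp_eq (F.continuous.comp F'.continuous) continuous_id ?_ y ?_
    · funext z
      show p (F (F' z)) = p z
      rw [hp1, hp2]
    · show F (F' y) = y
      rw [hF'1, hF1]
  exact ⟨⟨⟨F, F', fun z => congrFun e1 z, fun z => congrFun e2 z⟩,
    F.continuous, F'.continuous, hp1⟩, hF1⟩

/-- Two lifts of the same map on a connected set differ by a deck transformation: choose `d` at one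
point (`exists_deck_map`) and use `IsCoveringMap.eqOn_of_comp_eqOn`. -/
theorem deck_of_lifts [SimplyConnectedSpace X] [LocallyPathConnectedSpace X]
    (hp : IsCoveringMap p) {Y : Type} [TopologicalSpace Y] {S : Set Y} (hS : IsPreconnected S)
    {f g : Y → X} (hf : ContinuousOn f S) (hg : ContinuousOn g S)
    (h : ∀ y ∈ S, p (f y) = p (g y)) : ∃ d : Deck p, ∀ y ∈ S, f y = d.1 (g y) := by
  rcases S.eq_empty_or_nonempty with rfl | ⟨y₀, hy₀⟩
  · exact ⟨1, fun y hy => absurd hy (Set.notMem_empty y)⟩
  · obtain ⟨d, hd⟩ := exists_deck_map hp (h y₀ hy₀).symm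
    refine ⟨d, fun y hy => ?_⟩
    refine hp.eqOn_of_comp_eqOn hS hf (g₂ := fun y => d.1 (g y)) ?_ ?_ hy₀ hd.symm hy
    · exact (deck_cont d).comp_continuousOn hg
    · intro z hz
      show p (f z) = p (d.1 (g z))
      exact (h z hz).trans (deck_proj d (g z)).symm

end Pool.Agent.NCT
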