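import Pool.Agent.NCT.CocDef

/-! # NCT: labels of a lift to the covering space of a cocycle -/

set_option autoImplicit false

open Set Filter Topology

namespace Pool.Agent.NCT

variable {M W G : Type} [TopologicalSpace M] [TopologicalSpace W] [Group G] {q : W → M}
  {C : Cocycle G q}

/-- A continuous lift `s : W → E` of `q` is `w ↦ tau w (γ w)` with a locally constant `γ`. For every
`w`: `s w = tau w' g'` with `q w' = q w`, so `s w = tau w (γ w)` (`V.eq_iff`, `C.ex`, `C.symm`).
Locally constant: the maps `s` and `fun u => tau u (γ w)` are two continuous lifts of `q` through the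
local homeomorphism `V.pr` (locally injective: `V.cov.isLocalHomeomorph.isLocallyInjective`) which
agree at `w`, hence they agree near `w`; so `tau u (γ u) = tau u (γ w)` and `γ u = γ w`
(`V.eq_iff`, `C.refl`, `C.uniq`). -/
theorem Cover.exists_label (V : Cover C) {s : W → V.E} (hs : Continuous s)
    (h : ∀ w, V.pr (s w) = q w) :
    ∃ γ : W → G, IsLocallyConstant γ ∧ ∀ w, s w = V.tau w (γ w) := by
  have hex : ∀ w, ∃ g, s w = V.tau w g := by
    intro w
    obtain ⟨w', g', hg⟩ := V.surj (s w)
    have hq : q w' = q w := by rw [← V.proj w' g', hg, h w]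
    obtain ⟨k, hk⟩ := C.ex hq
    refine ⟨g' * k, ?_⟩
    rw [← hg]
    exact (V.eq_iff w' w g' (g' * k)).2 ⟨k, hk, rfl⟩
  choose γ hγ using hex
  refine ⟨γ, ?_, hγ⟩
  rw [IsLocallyConstant.iff_eventually_eq]
  intro w
  obtain ⟨e, hew, he⟩ := V.cov.isLocalHomeomorph (s w)
  have hinj : Set.InjOn V.pr e.source := by
    rw [he]
    exact e.injOn
  have h1 : ∀ᶠ u in 𝓝 w, s u ∈ e.source :=
    hs.continuousAt.eventually (e.open_source.mem_nhds hew)
  have h2 : ∀ᶠ u in 𝓝 w, V.tau u (γ w) ∈ e.source := by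
    refine (V.loc (γ w)).continuous.continuousAt.eventually (e.open_source.mem_nhds ?_)
    change V.tau w (γ w) ∈ e.source
    rw [← hγ w]
    exact hew
  filter_upwards [h1, h2] with u hu1 hu2
  have h3 : s u = V.tau u (γ w) := by
    apply hinj hu1 hu2
    rw [h u, V.proj]
  rw [hγ u] at h3
  obtain ⟨k, hk, hk2⟩ := (V.eq_iff u u (γ u) (γ w)).1 h3
  have h4 : k = 1 := C.uniq hk (C.refl u)
  rw [hk2, h4, mul_one]

end Pool.Agent.NCT
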