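import Mathlib

/-! # NCT: lifts on open convex sets; surjectivity of coverings -/

set_option autoImplicit false

open Set Filter Topology

namespace Pool.Agent.NCT

variable {M X : Type} [TopologicalSpace M] [TopologicalSpace X] {p : X → M}

/-- Lifts of maps on open convex sets: the subtype `S` is contractible (`Convex.contractibleSpace`),
so simply connected (`SimplyConnectedSpace.ofContractible`), and locally path connected
(`IsOpen.locallyPathConnectedSpace`); use `IsCoveringMap.existsUnique_continuousMap_lifts` and extend
by a constant. -/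
theorem exists_lift_convex (hp : IsCoveringMap p) {F : Type} [NormedAddCommGroup F]
    [NormedSpace ℝ F] {S : Set F} (hS : Convex ℝ S) (ho : IsOpen S) {f : F → M}
    (hf : ContinuousOn f S) {a : F} (ha : a ∈ S) {x : X} (hx : p x = f a) :
    ∃ g : F → X, ContinuousOn g S ∧ g a = x ∧ ∀ y ∈ S, p (g y) = f y := by
  classical
  have : ContractibleSpace S := hS.contractibleSpace ⟨a, ha⟩
  have : LocallyPathConnectedSpace S := ho.locallyPathConnectedSpace
  obtain ⟨G, ⟨hG1, hG2⟩, -⟩ := hp.existsUnique_continuousMap_lifts
    (⟨S.domRestrict f, hf.domRestrict⟩ : C(S, M)) ⟨a, ha⟩ x hx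
  refine ⟨fun y => if h : y ∈ S then G ⟨y, h⟩ else x, ?_, ?_, ?_⟩
  · rw [continuousOn_iff_continuous_domRestrict]
    have h1 : S.domRestrict (fun y => if h : y ∈ S then G ⟨y, h⟩ else x) = G := by
      ext y
      simp [Set.domRestrict]
    rw [h1]
    exact G.continuous
  · simp only [dif_pos ha]
    exact hG1
  · intro y hy
    simp only [dif_pos hy]
    exact congrFun hG2 ⟨y, hy⟩

/-- A covering map of a connected space with nonempty total space is surjective: the range is open
(`IsCoveringMap.isOpenMap`), and closed because near a point with empty fibre all fibres are empty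
(`IsEvenlyCovered`: the homeomorphism of `p ⁻¹' U` with `U × ∅`). -/
theorem surjective_of_covering [PreconnectedSpace M] [Nonempty X] (hp : IsCoveringMap p) :
    Function.Surjective p := by
  have hopen : IsOpen (range p) := hp.isOpenMap.isOpen_range
  have hclosed : IsClosed (range p) := by
    rw [← isOpen_compl_iff, isOpen_iff_mem_nhds]
    intro m hm
    obtain ⟨-, U, hmU, hU, -, H, hH⟩ := hp m
    refine mem_of_superset (hU.mem_nhds hmU) ?_
    rintro u hu ⟨x, rfl⟩
    have hx : x ∈ p ⁻¹' U := hu
    apply hm
    refine ⟨(H.symm (⟨m, hmU⟩, (H ⟨x, hx⟩).2)).1, ?_⟩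
    rw [← hH]
    simp
  have h : range p = univ := IsClopen.eq_univ ⟨hclosed, hopen⟩ (range_nonempty p)
  exact range_eq_univ.mp h

end Pool.Agent.NCT
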