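import Pool.Agent.NCT.CocCover
import Pool.Agent.NCT.CoverMap
import Pool.Agent.NCT.Label
import Pool.Agent.NCT.DeckLem
import Pool.Agent.NCT.LiftConv

/-! # NCT: abstract form of the theorem of van Kampen for a cocycle

`p : X → M` is a simply connected covering, `q : W → M` a surjective local homeomorphism with a
cocycle `C` in the group `G`, `ρ : G → Deck p` a homomorphism and `Λ : W → X` a lift of `q` with
`Λ w = ρ g (Λ w')` if `C.R w w' g`. If the values of `C` generate `G` and `W` is connected through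
pairs with value `1`, then `ρ` is free and transitive on the fibres.

Proof. Let `V` be the covering of the cocycle (`exists_cover`). Choose `w₀ : W`.
1. `Θ : V.E → X`, `Θ (tau w g) = ρ g (Λ w)` (`Cover.exists_map`; if `C.R w w' k` then
   `ρ g (Λ w) = ρ g (ρ k (Λ w')) = ρ (g * k) (Λ w')`). `p (Θ e) = V.pr e`.
2. `Dev : X → V.E` the lift of `p` through `V.cov` with `Dev (Λ w₀) = tau w₀ 1`
   (`IsCoveringMap.existsUnique_continuousMap_lifts`). `Θ ∘ Dev` is a lift of `p` with the fixed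
   point `Λ w₀`, so it is the identity (`IsCoveringMap.eq_of_comp_eq`); in particular `Dev` is
   injective.
3. `Dev (Λ w) = tau w (γ w)` with `γ` locally constant (`Cover.exists_label`), `γ w₀ = 1`. If
   `C.R w w' 1` then `Λ w = Λ w'`, so `tau w (γ w) = tau w' (γ w')` and `γ w' = γ w * 1`. By `hconn`,
   `γ = 1`: `Dev (Λ w) = tau w 1`.
4. Let `L g : V.E → V.E`, `L g (tau w h) = tau w (g * h)` (`Cover.exists_left`). The set of the `g`
   with `Dev (ρ g x) = L g (Dev x)` for all `x` is a subgroup. It contains the `g` with `C.R w w' g`: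
   both sides are lifts of `p`, and at `x = Λ w'`: `Dev (ρ g (Λ w')) = Dev (Λ w) = tau w 1 =
   tau w' (1 * g) = L g (tau w' 1)`. By `hgen` it is everything.
5. Free: if `ρ g x = x` and `Dev x = tau w h`, then `tau w h = tau w (g * h)`, so `h = g * h`
   (`V.eq_iff`, `C.refl`, `C.uniq`).
6. Transitive: let `p x = p y`, `Dev x = tau w h`, `Dev y = tau w' h'`. Then `q w = q w'`, so
   `Dev y = tau w h''` for some `h''`, so `Dev y = L (h'' * h⁻¹) (Dev x) = Dev (ρ (h'' * h⁻¹) x)`, and
   `Dev` is injective. -/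

set_option autoImplicit false

open Set Filter Topology

namespace Pool.Agent.NCT

theorem abs_main {M X W G : Type} [TopologicalSpace M] [TopologicalSpace X]
    [SimplyConnectedSpace X] [LocallyPathConnectedSpace X] [TopologicalSpace W] [Nonempty W]
    [Group G] {p : X → M} (hp : IsCoveringMap p) {q : W → M} (hq : IsLocalHomeomorph q)
    (hs : Function.Surjective q) (C : Cocycle G q)
    (hconn : ∀ γ : W → G, IsLocallyConstant γ → (∀ w w', C.R w w' 1 → γ w = γ w') →
      ∀ w w', γ w = γ w')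
    (hgen : Subgroup.closure {g | ∃ w w', C.R w w' g} = ⊤)
    (ρ : G →* Deck p) {Λ : W → X} (hΛ : Continuous Λ) (hpΛ : ∀ w, p (Λ w) = q w)
    (hR : ∀ w w' g, C.R w w' g → Λ w = (ρ g).1 (Λ w')) :
    (∀ g x, (ρ g).1 x = x → g = 1) ∧ (∀ x y, p x = p y → ∃ g, (ρ g).1 x = y) := by
  obtain ⟨V⟩ := exists_cover hq hs C
  obtain ⟨w₀⟩ := ‹Nonempty W›
  -- 1. the map `Θ`
  obtain ⟨Θ, hΘc, hΘ⟩ := V.exists_map (fun w g => (ρ g).1 (Λ w))
    (fun g => (deck_cont (ρ g)).comp hΛ)
    (fun w w' g k hk => by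
      show (ρ g).1 (Λ w) = (ρ (g * k)).1 (Λ w')
      rw [hR w w' k hk, map_mul, deck_mul])
  have hpΘ : ∀ e, p (Θ e) = V.pr e := by
    intro e
    obtain ⟨w, g, rfl⟩ := V.surj e
    rw [hΘ, V.proj]
    show p ((ρ g).1 (Λ w)) = q w
    exact (deck_proj (ρ g) (Λ w)).trans (hpΛ w)
  -- 2. the map `Dev`
  obtain ⟨Dev, ⟨hD1, hD2⟩, -⟩ := V.cov.existsUnique_continuousMap_lifts
    (⟨p, hp.continuous⟩ : C(X, M)) (Λ w₀) (V.tau w₀ 1)
    (by rw [V.proj]; exact (hpΛ w₀).symm)
  have hprD : ∀ x, V.pr (Dev x) = p x := fun x => congrFun hD2 x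
  have hΘD : ∀ x, Θ (Dev x) = x := by
    have h : (fun x => Θ (Dev x)) = id := by
      refine hp.eq_of_comp_eq (hΘc.comp Dev.continuous) continuous_id ?_ (Λ w₀) ?_
      · funext x
        show p (Θ (Dev x)) = p x
        rw [hpΘ, hprD]
      · show Θ (Dev (Λ w₀)) = Λ w₀
        rw [hD1, hΘ]
        show (ρ 1).1 (Λ w₀) = Λ w₀
        rw [map_one, deck_one]
    exact fun x => congrFun h x
  have hinj : Function.Injective Dev := fun x y hxy => by
    rw [← hΘD x, ← hΘD y, hxy]
  -- 3. the labels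
  have huniq : ∀ {w g g'}, V.tau w g = V.tau w g' → g = g' := by
    intro w g g' h
    obtain ⟨k, hk, hk'⟩ := (V.eq_iff w w g g').1 h
    have := C.uniq hk (C.refl w)
    rw [hk', this, mul_one]
  obtain ⟨γ, hγl, hγ⟩ := V.exists_label (s := fun w => Dev (Λ w)) (Dev.continuous.comp hΛ)
    (fun w => by rw [hprD, hpΛ])
  have hγ0 : γ w₀ = 1 := by
    have h := hγ w₀
    rw [hD1] at h
    exact (huniq h).symm
  have hγ1 : ∀ w, γ w = 1 := by
    intro w
    rw [← hγ0]
    refine hconn γ hγl ?_ w w₀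
    intro u u' hu
    have h1 : Λ u = Λ u' := by
      rw [hR u u' 1 hu, map_one, deck_one]
    have h2 : V.tau u (γ u) = V.tau u' (γ u') := by
      rw [← hγ u, ← hγ u']
      show Dev (Λ u) = Dev (Λ u')
      rw [h1]
    obtain ⟨k, hk, hk'⟩ := (V.eq_iff u u' (γ u) (γ u')).1 h2
    have := C.uniq hk hu
    rw [hk', this, mul_one]
  have hDΛ : ∀ w, Dev (Λ w) = V.tau w 1 := by
    intro w
    have := hγ w
    rw [hγ1 w] at this
    exact this
  -- 4. left multiplications
  choose L hLc hL using fun g => V.exists_left g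
  have hL1 : ∀ e, L 1 e = e := by
    intro e
    obtain ⟨w, h, rfl⟩ := V.surj e
    rw [hL, one_mul]
  have hLm : ∀ g g' e, L (g * g') e = L g (L g' e) := by
    intro g g' e
    obtain ⟨w, h, rfl⟩ := V.surj e
    rw [hL, hL, hL, mul_assoc]
  have hLpr : ∀ g e, V.pr (L g e) = V.pr e := by
    intro g e
    obtain ⟨w, h, rfl⟩ := V.surj e
    rw [hL, V.proj, V.proj]
  have hequiv : ∀ g x, Dev ((ρ g).1 x) = L g (Dev x) := by
    intro g
    have hg : g ∈ Subgroup.closure {g | ∃ w w', C.R w w' g} := by rw [hgen]; trivial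
    induction hg using Subgroup.closure_induction with
    | mem g hg =>
      obtain ⟨w, w', hw⟩ := hg
      have h : (fun x => Dev ((ρ g).1 x)) = fun x => L g (Dev x) := by
        refine V.cov.eq_of_comp_eq (Dev.continuous.comp (deck_cont (ρ g)))
          ((hLc g).comp Dev.continuous) ?_ (Λ w') ?_
        · funext x
          show V.pr (Dev ((ρ g).1 x)) = V.pr (L g (Dev x))
          rw [hprD, hLpr, hprD]
          exact deck_proj (ρ g) x
        · show Dev ((ρ g).1 (Λ w')) = L g (Dev (Λ w'))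
          rw [← hR w w' g hw, hDΛ, hDΛ, hL]
          exact (V.eq_iff w w' 1 (g * 1)).2 ⟨g, hw, by rw [mul_one, one_mul]⟩
      exact fun x => congrFun h x
    | one =>
      intro x
      rw [map_one, deck_one, hL1]
    | mul a b _ _ ha hb =>
      intro x
      rw [map_mul, deck_mul, ha, hb, hLm]
    | inv a _ ha =>
      intro x
      have h1 : Dev x = L a (Dev ((ρ a⁻¹).1 x)) := by
        rw [← ha, ← deck_mul, ← map_mul, mul_inv_cancel, map_one, deck_one]
      rw [h1, ← hLm, inv_mul_cancel, hL1]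
  refine ⟨?_, ?_⟩
  · intro g x hx
    obtain ⟨w, h, hwh⟩ := V.surj (Dev x)
    have h1 := hequiv g x
    rw [hx, ← hwh, hL] at h1
    have h2 := huniq h1
    exact (mul_eq_right.mp h2.symm)
  · intro x y hxy
    obtain ⟨w, h, hwh⟩ := V.surj (Dev x)
    obtain ⟨w', h', hwh'⟩ := V.surj (Dev y)
    have hq' : q w = q w' := by
      rw [← V.proj w h, ← V.proj w' h', hwh, hwh', hprD, hprD, hxy]
    obtain ⟨k, hk⟩ := C.ex hq'
    have h2 : V.tau w' h' = V.tau w (h' * k⁻¹) :=
      (V.eq_iff w' w h' (h' * k⁻¹)).2 ⟨k⁻¹, C.symm hk, rfl⟩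
    refine ⟨h' * k⁻¹ * h⁻¹, hinj ?_⟩
    rw [hequiv, ← hwh, hL, ← hwh', h2]
    congr 1
    group

end Pool.Agent.NCT
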