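import Pool.Agent.NCT.PlaneDef

/-! # NCT: sectors, elementary facts -/

set_option autoImplicit false

open Set Filter Topology

namespace Pool.Agent.NCT

open Pool.Agent.NCQ

/-- `n = ⌈4 (φ - 7/8)⌉`, or `n = ⌊4 (φ - 7/8)⌋ + 1` -/
theorem exists_inS (φ : ℝ) : ∃ n : ℤ, inS n φ := by
  refine ⟨⌊4 * φ - 7 / 2⌋ + 1, ?_, ?_⟩
  · have h := Int.floor_le (4 * φ - 7 / 2)
    push_cast
    linarith
  · have h := Int.lt_floor_add_one (4 * φ - 7 / 2)
    push_cast
    linarith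

theorem inS_near {n n' : ℤ} {φ : ℝ} (h : inS n φ) (h' : inS n' φ) : |n - n'| ≤ 1 := by
  obtain ⟨h1, h2⟩ := h
  obtain ⟨h3, h4⟩ := h'
  have h5 : (n : ℝ) - n' < 2 := by linarith
  have h6 : (-2 : ℝ) < (n : ℝ) - n' := by linarith
  have h7 : n - n' < 2 := by exact_mod_cast h5
  have h8 : -2 < n - n' := by exact_mod_cast h6
  rw [abs_le]
  constructor <;> omega

theorem inS_add {n N : ℤ} {φ : ℝ} : inS (n + 4 * N) (φ + N) ↔ inS n φ := by
  unfold inS
  push_cast
  constructor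
  · rintro ⟨h1, h2⟩
    constructor <;> linarith
  · rintro ⟨h1, h2⟩
    constructor <;> linarith

theorem isOpen_inS (n : ℤ) : IsOpen {y : ℝ × ℝ × ℝ | inS n y.2.1} := by
  have hc : Continuous fun y : ℝ × ℝ × ℝ => y.2.1 := continuous_fst.comp continuous_snd
  exact (isOpen_lt continuous_const hc).inter (isOpen_lt hc continuous_const)

theorem convex_inS (n : ℤ) : Convex ℝ {y : ℝ × ℝ × ℝ | inS n y.2.1} := by
  have h := (convex_Ioo (𝕜 := ℝ) (3 / 8 + (n : ℝ) / 4) (7 / 8 + (n : ℝ) / 4)).linear_preimage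
    ((LinearMap.fst ℝ ℝ ℝ).comp (LinearMap.snd ℝ ℝ (ℝ × ℝ)))
  exact h

private theorem corner_add (n N : ℤ) : corner (n + 4 * N) = corner n := by
  unfold corner
  rw [Int.add_mul_emod_self_left]

private theorem polar_addv (N k : ℤ) (y : ℝ × ℝ × ℝ) :
    polar (addv y ![N, k]) = polar y + lat 0 0 k := by
  refine Prod.ext ?_ ?_
  · have h : Complex.exp (2 * Real.pi * ((y.2.1 + (N : ℝ) : ℝ) : ℂ) * Complex.I) =
        Complex.exp (2 * Real.pi * (y.2.1 : ℂ) * Complex.I) := by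
      rw [Complex.exp_eq_exp_iff_exists_int]
      refine ⟨N, ?_⟩
      push_cast
      ring
    have h2 : (polar (addv y ![N, k])).1 =
        y.1 * Complex.exp (2 * Real.pi * ((y.2.1 + (N : ℝ) : ℝ) : ℂ) * Complex.I) := rfl
    rw [h2, h]
    simp [polar, lat]
  · simp [polar, lat, addv]

theorem cpt_addv (n N k : ℤ) (y : ℝ × ℝ × ℝ) :
    cpt (n + 4 * N) (addv y ![N, k]) = cpt n y + lat 0 0 k := by
  unfold cpt
  rw [corner_add, polar_addv]
  abel

end Pool.Agent.NCT
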