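import Pool.Agent.NCT.PlaneDef

/-! # NCT: sectors and the tile

With `θ = 2πφ`, `0 < r < 1/4`, the `l¹`-distance of `corner n + r e^{iθ}` from `(1 + i)/2` is
`1 - √2 r cos (2π(φ - 5/8 - n/4))`: for `n = 0`, `|1/2 + r cos θ| + |1/2 + r sin θ| =
1 + r (cos θ + sin θ)`; for `n = 1`, `|-1/2 + r cos θ| + |1/2 + r sin θ| = 1 + r (- cos θ + sin θ)`;
for `n = 2`, `1 + r (- cos θ - sin θ)`; for `n = 3`, `1 + r (cos θ - sin θ)`. -/

set_option autoImplicit false

open Set Filter Topology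

namespace Pool.Agent.NCT

open Pool.Agent.NCQ

private theorem corner_mod {n : ℤ} : corner n = corner (n % 4) := by
  unfold corner
  rw [Int.emod_emod_of_dvd n (dvd_refl 4)]

/-- the trigonometric identity -/
private theorem corner_cos (n : ℤ) (φ : ℝ) :
    (2 * ((corner n).1 : ℝ) - 1) * Real.cos (2 * Real.pi * φ)
      + (2 * ((corner n).2 : ℝ) - 1) * Real.sin (2 * Real.pi * φ)
      = -(√2 * Real.cos (2 * Real.pi * (φ - 5 / 8 - (n : ℝ) / 4))) := by
  have h2 : √2 * √2 = 2 := Real.mul_self_sqrt (by norm_num)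
  set x : ℝ := 2 * Real.pi * φ - Real.pi / 4 with hx
  have hc : √2 * Real.cos x = Real.cos (2 * Real.pi * φ) + Real.sin (2 * Real.pi * φ) := by
    rw [hx, Real.cos_sub, Real.cos_pi_div_four, Real.sin_pi_div_four]
    linear_combination (Real.cos (2 * Real.pi * φ) + Real.sin (2 * Real.pi * φ)) / 2 * h2
  have hs : √2 * Real.sin x = Real.sin (2 * Real.pi * φ) - Real.cos (2 * Real.pi * φ) := by
    rw [hx, Real.sin_sub, Real.cos_pi_div_four, Real.sin_pi_div_four]
    linear_combination (Real.sin (2 * Real.pi * φ) - Real.cos (2 * Real.pi * φ)) / 2 * h2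
  obtain ⟨q, j, hn, hj⟩ : ∃ q j : ℤ, n = j + 4 * q ∧ (j = 0 ∨ j = 1 ∨ j = 2 ∨ j = 3) :=
    ⟨n / 4, n % 4, by omega, by omega⟩
  have harg : ∀ c : ℝ, 2 * Real.pi * (φ - 5 / 8 - ((c + 4 * (q : ℝ)) / 4))
      = (x - Real.pi - c * (Real.pi / 2)) - q * (2 * Real.pi) := by
    intro c
    rw [hx]
    ring
  rcases hj with rfl | rfl | rfl | rfl
  · have e : corner n = (1, 1) := by
      unfold corner
      rw [if_pos (by omega)]
    rw [e, hn]
    push_cast
    rw [harg, Real.cos_sub_int_mul_two_pi]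
    rw [show x - Real.pi - 0 * (Real.pi / 2) = x - Real.pi by ring, Real.cos_sub_pi]
    linarith
  · have e : corner n = (0, 1) := by
      unfold corner
      rw [if_neg (by omega), if_pos (by omega)]
    rw [e, hn]
    push_cast
    rw [harg, Real.cos_sub_int_mul_two_pi]
    rw [show x - Real.pi - 1 * (Real.pi / 2) = (x - Real.pi / 2) - Real.pi by ring,
      Real.cos_sub_pi, Real.cos_sub_pi_div_two]
    linarith
  · have e : corner n = (0, 0) := by
      unfold corner
      rw [if_neg (by omega), if_neg (by omega), if_pos (by omega)]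
    rw [e, hn]
    push_cast
    rw [harg, Real.cos_sub_int_mul_two_pi]
    rw [show x - Real.pi - 2 * (Real.pi / 2) = x - 2 * Real.pi by ring, Real.cos_sub_two_pi]
    linarith
  · have e : corner n = (1, 0) := by
      unfold corner
      rw [if_neg (by omega), if_neg (by omega), if_neg (by omega)]
    rw [e, hn]
    push_cast
    rw [harg, Real.cos_sub_int_mul_two_pi]
    rw [show x - Real.pi - 3 * (Real.pi / 2) = (x - Real.pi / 2) - 2 * Real.pi by ring,
      Real.cos_sub_two_pi, Real.cos_sub_pi_div_two]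
    linarith

private theorem polar_re (y : ℝ × ℝ × ℝ) :
    (polar y).1.re = y.1 * Real.cos (2 * Real.pi * y.2.1) := by
  unfold polar
  have e : (2 * (Real.pi : ℂ) * (y.2.1 : ℂ) * Complex.I) = ((2 * Real.pi * y.2.1 : ℝ) : ℂ) *
      Complex.I := by push_cast; ring
  simp only [e]
  rw [Complex.re_ofReal_mul, Complex.exp_ofReal_mul_I_re]

private theorem polar_im (y : ℝ × ℝ × ℝ) :
    (polar y).1.im = y.1 * Real.sin (2 * Real.pi * y.2.1) := by
  unfold polar
  have e : (2 * (Real.pi : ℂ) * (y.2.1 : ℂ) * Complex.I) = ((2 * Real.pi * y.2.1 : ℝ) : ℂ) *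
      Complex.I := by push_cast; ring
  simp only [e]
  rw [Complex.im_ofReal_mul, Complex.exp_ofReal_mul_I_im]

/-- the `l¹`-distance for a corner of the unit square -/
private theorem abs_corner {c : ℤ} (hc : c = 0 ∨ c = 1) {X : ℝ} (hX : |X| < 1 / 2) :
    |X + (c : ℝ) - 1 / 2| = 1 / 2 + (2 * (c : ℝ) - 1) * X := by
  rw [abs_lt] at hX
  rcases hc with rfl | rfl
  · push_cast
    rw [abs_of_neg (by linarith [hX.2])]
    ring
  · push_cast
    rw [abs_of_pos (by linarith [hX.1])]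
    ring

private theorem corner_cases (n : ℤ) :
    ((corner n).1 = 0 ∨ (corner n).1 = 1) ∧ ((corner n).2 = 0 ∨ (corner n).2 = 1) := by
  unfold corner
  split_ifs <;> simp

private theorem bounds {y : ℝ × ℝ × ℝ} (hy : y ∈ collar) :
    |y.1 * Real.cos (2 * Real.pi * y.2.1)| < 1 / 4 ∧
      |y.1 * Real.sin (2 * Real.pi * y.2.1)| < 1 / 4 := by
  obtain ⟨h0, h1⟩ := hy
  constructor
  · rw [abs_mul, abs_of_pos h0]
    have := Real.abs_cos_le_one (2 * Real.pi * y.2.1)
    nlinarith [abs_nonneg (Real.cos (2 * Real.pi * y.2.1))]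
  · rw [abs_mul, abs_of_pos h0]
    have := Real.abs_sin_le_one (2 * Real.pi * y.2.1)
    nlinarith [abs_nonneg (Real.sin (2 * Real.pi * y.2.1))]

private theorem mem_tile_iff {y : ℝ × ℝ × ℝ} {m n k : ℤ} :
    polar y + lat m n k ∈ tile 1 ↔
      |y.1 * Real.cos (2 * Real.pi * y.2.1) + m - 1 / 2|
        + |y.1 * Real.sin (2 * Real.pi * y.2.1) + n - 1 / 2| < 1 := by
  have e1 : (polar y + lat m n k).1.re = y.1 * Real.cos (2 * Real.pi * y.2.1) + m := by
    rw [← polar_re]
    simp [lat]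
  have e2 : (polar y + lat m n k).1.im = y.1 * Real.sin (2 * Real.pi * y.2.1) + n := by
    rw [← polar_im]
    simp [lat]
  unfold tile
  rw [mem_ofPred_eq, e1, e2]

/-- for a corner of the unit square: in the tile iff the cosine is positive -/
private theorem corner_tile_iff {y : ℝ × ℝ × ℝ} (hy : y ∈ collar) (n k : ℤ) :
    polar y + lat (corner n).1 (corner n).2 k ∈ tile 1 ↔
      0 < Real.cos (2 * Real.pi * (y.2.1 - 5 / 8 - (n : ℝ) / 4)) := by
  obtain ⟨b1, b2⟩ := bounds hy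
  obtain ⟨c1, c2⟩ := corner_cases n
  rw [mem_tile_iff, abs_corner c1 (by linarith), abs_corner c2 (by linarith)]
  have h := corner_cos n y.2.1
  have h0 : 0 < y.1 := hy.1
  have hs : 0 < √2 := Real.sqrt_pos.mpr (by norm_num)
  have e : 1 / 2 + (2 * ((corner n).1 : ℝ) - 1) * (y.1 * Real.cos (2 * Real.pi * y.2.1))
      + (1 / 2 + (2 * ((corner n).2 : ℝ) - 1) * (y.1 * Real.sin (2 * Real.pi * y.2.1)))
      = 1 - y.1 * √2 * Real.cos (2 * Real.pi * (y.2.1 - 5 / 8 - (n : ℝ) / 4)) := by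
    linear_combination y.1 * h
  rw [e]
  have hp : 0 < y.1 * √2 := mul_pos h0 hs
  constructor
  · intro h1
    by_contra h2
    push Not at h2
    nlinarith
  · intro h1
    nlinarith [mul_pos hp h1]

/-- `|φ - 5/8 - n/4| < 1/4`, so the cosine is positive -/
theorem cpt_mem {n : ℤ} {y : ℝ × ℝ × ℝ} (hy : y ∈ collar) (h : inS n y.2.1) :
    cpt n y ∈ tile 1 := by
  unfold cpt
  rw [corner_tile_iff hy]
  obtain ⟨h1, h2⟩ := h
  have hpi := Real.pi_pos
  apply Real.cos_pos_of_mem_Ioo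
  constructor
  · nlinarith
  · nlinarith

/-- First `(m, n)` is a corner of the unit square: `|m - 1/2| + |n - 1/2| < 1 + 1/2` because
`r |cos θ| + r |sin θ| < 1/2`. So `(m, n) = corner n₀` with `n₀ ∈ {0, 1, 2, 3}` and
`cos (2π(φ - 5/8 - n₀/4)) > 0`; so there is an integer `N` with `|φ - 5/8 - n₀/4 - N| < 1/4`; put
`j = n₀ + 4 N`. -/
theorem exists_sector {y : ℝ × ℝ × ℝ} (hy : y ∈ collar) {m n k : ℤ}
    (h : polar y + lat m n k ∈ tile 1) : ∃ j : ℤ, inS j y.2.1 ∧ corner j = (m, n) := by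
  obtain ⟨b1, b2⟩ := bounds hy
  have h' := h
  rw [mem_tile_iff] at h'
  rw [abs_lt] at b1 b2
  have hint : ∀ c : ℤ, (1 / 2 : ℝ) ≤ |(c : ℝ) - 1 / 2| := by
    intro c
    rcases le_or_gt c 0 with hc | hc
    · have : (c : ℝ) ≤ 0 := by exact_mod_cast hc
      rw [abs_of_nonpos (by linarith)]
      linarith
    · have : (1 : ℝ) ≤ c := by exact_mod_cast hc
      rw [abs_of_nonneg (by linarith)]
      linarith
  have hcase : ∀ c : ℤ, |(c : ℝ) - 1 / 2| < 1 → c = 0 ∨ c = 1 := by
    intro c hc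
    rw [abs_lt] at hc
    have h1 : (-1 : ℝ) < c := by linarith
    have h2 : (c : ℝ) < 2 := by linarith
    have h1' : (-1 : ℤ) < c := by exact_mod_cast h1
    have h2' : c < 2 := by exact_mod_cast h2
    omega
  set X := y.1 * Real.cos (2 * Real.pi * y.2.1) with hX
  set Y := y.1 * Real.sin (2 * Real.pi * y.2.1) with hY
  have hm1 : |(m : ℝ) - 1 / 2| ≤ |X + m - 1 / 2| + 1 / 4 := by
    have := abs_sub_abs_le_abs_sub ((m : ℝ) - 1 / 2) (X + m - 1 / 2)
    have e : (m : ℝ) - 1 / 2 - (X + m - 1 / 2) = -X := by ring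
    rw [e, abs_neg] at this
    have : |X| < 1 / 4 := abs_lt.mpr b1
    linarith
  have hn1 : |(n : ℝ) - 1 / 2| ≤ |Y + n - 1 / 2| + 1 / 4 := by
    have := abs_sub_abs_le_abs_sub ((n : ℝ) - 1 / 2) (Y + n - 1 / 2)
    have e : (n : ℝ) - 1 / 2 - (Y + n - 1 / 2) = -Y := by ring
    rw [e, abs_neg] at this
    have : |Y| < 1 / 4 := abs_lt.mpr b2
    linarith
  have hm := hcase m (by have := hint n; linarith)
  have hn := hcase n (by have := hint m; linarith)
  obtain ⟨n₀, hn₀⟩ : ∃ n₀ : ℤ, corner n₀ = (m, n) := by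
    rcases hm with rfl | rfl <;> rcases hn with rfl | rfl
    · exact ⟨2, by decide⟩
    · exact ⟨1, by decide⟩
    · exact ⟨3, by decide⟩
    · exact ⟨0, by decide⟩
  have hpos : 0 < Real.cos (2 * Real.pi * (y.2.1 - 5 / 8 - (n₀ : ℝ) / 4)) := by
    rw [← corner_tile_iff hy n₀ k, hn₀]
    exact h
  set t : ℝ := y.2.1 - 5 / 8 - (n₀ : ℝ) / 4 with ht
  have hround : |t - round t| ≤ 1 / 2 := abs_sub_round t
  have hlt : |t - round t| < 1 / 4 := by
    by_contra hcon
    push Not at hcon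
    have hpi := Real.pi_pos
    have e : Real.cos (2 * Real.pi * t) = Real.cos (2 * Real.pi * |t - round t|) := by
      have e1 : 2 * Real.pi * |t - round t| = |2 * Real.pi * (t - round t)| := by
        rw [abs_mul, abs_of_pos (by positivity : 0 < 2 * Real.pi)]
      rw [e1, Real.cos_abs]
      have e2 : 2 * Real.pi * (t - round t) = 2 * Real.pi * t - (round t : ℤ) * (2 * Real.pi) := by
        ring
      rw [e2, Real.cos_sub_int_mul_two_pi]
    rw [e] at hpos
    have := Real.cos_nonpos_of_pi_div_two_le_of_le (x := 2 * Real.pi * |t - round t|)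
      (by nlinarith) (by nlinarith)
    linarith
  refine ⟨n₀ + 4 * round t, ?_, ?_⟩
  · rw [abs_lt] at hlt
    unfold inS
    push_cast
    constructor
    · linarith [hlt.1]
    · linarith [hlt.2]
  · rw [← hn₀, corner_mod (n := n₀ + 4 * round t), corner_mod (n := n₀)]
    congr 1
    omega

end Pool.Agent.NCT
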