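import Mathlib

/-! # NCT: the group of deck transformations -/

set_option autoImplicit false

open Set Filter Topology

namespace Pool.Agent.NCT

/-- The group of deck transformations of `p : X → M`. -/
def Deck {M X : Type} [TopologicalSpace X] (p : X → M) : Subgroup (Equiv.Perm X) where
  carrier := {h | Continuous h ∧ Continuous h.symm ∧ ∀ x, p (h x) = p x}
  mul_mem' := by
    rintro a b ⟨ha, ha', ha''⟩ ⟨hb, hb', hb''⟩
    refine ⟨ha.comp hb, hb'.comp ha', fun x => ?_⟩
    show p (a (b x)) = p x
    rw [ha'', hb'']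
  one_mem' := ⟨continuous_id, continuous_id, fun _ => rfl⟩
  inv_mem' := by
    rintro a ⟨ha, ha', ha''⟩
    refine ⟨ha', ha, fun x => ?_⟩
    show p (a.symm x) = p x
    rw [← ha'' (a.symm x), Equiv.apply_symm_apply]

section

variable {M X : Type} [TopologicalSpace X] {p : X → M}

theorem deck_proj (d : Deck p) (x : X) : p (d.1 x) = p x := d.2.2.2 x

theorem deck_cont (d : Deck p) : Continuous d.1 := d.2.1

@[simp] theorem deck_mul (d e : Deck p) (x : X) : (d * e).1 x = d.1 (e.1 x) := rfl

@[simp] theorem deck_one (x : X) : (1 : Deck p).1 x = x := rfl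

end

end Pool.Agent.NCT
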