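import Pool.Agent.NCT.PlaneDef
import Pool.Agent.NCT.DeckDef

/-! # NCT: the data of one side, and of the glued manifold (definitions) -/

set_option autoImplicit false

open Set Filter Topology

namespace Pool.Agent.NCT

open Pool.Agent.NCQ

/-- Lift `lam` of the tile of the copy `i`, homomorphism `rho` of the group of the copy `i`, and their
relation to the lift `kap` of the collar (in the polar coordinates of the copy `i`). -/
structure Side (A : Matrix.SpecialLinearGroup (Fin 2) ℤ) {X : Type} [TopologicalSpace X]
    (p : X → MBar A) (i : Fin 2) (kap : ℝ × ℝ × ℝ → X) where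
  lam : ℂ × ℝ → X
  rho : FreeGroup (Fin 2) × Multiplicative ℤ →* Deck p
  cont : ContinuousOn lam (tile 1)
  proj : ∀ x ∈ tile 1, p (lam x) = qm A i x
  tt : ∀ x ∈ tile 1, ∀ m n k : ℤ, x + lat m n k ∈ tile 1 →
    lam (x + lat m n k) = (rho (wd m n, Multiplicative.ofAdd k)).1 (lam x)
  qt : ∀ y ∈ collar, ∀ n : ℤ, inS n y.2.1 → kap y = (rho (U n, 1)).1 (lam (cpt n y))

/-- Lift `kap` of the collar (polar coordinates of the copy `0`), the two sides, and the homomorphism
of the group of the closed manifold. -/
structure Glued (A : Matrix.SpecialLinearGroup (Fin 2) ℤ) {X : Type} [TopologicalSpace X]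
    (p : X → MBar A) where
  kap : ℝ × ℝ × ℝ → X
  cont : ContinuousOn kap collar
  proj : ∀ y ∈ collar, p (kap y) = qm A 0 (polar y)
  sid : ∀ i : Fin 2, Side A p i (fun y => kap (sdInv A i y))
  rho : NCP.GMGroup A →* Deck p
  rho_inc : ∀ i x, rho (inc A i x) = (sid i).rho x

end Pool.Agent.NCT
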