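import Pool.Agent.NCT.PlaneDef

/-! # NCT: geometry of the tiles -/

set_option autoImplicit false

open Set Filter Topology

namespace Pool.Agent.NCT

open Pool.Agent.NCQ

theorem isOpen_tile (ρ : ℝ) : IsOpen (tile ρ) := by
  unfold tile
  exact isOpen_lt (((Complex.continuous_re.comp continuous_fst).sub continuous_const).abs.add
    ((Complex.continuous_im.comp continuous_fst).sub continuous_const).abs) continuous_const

private theorem abs_conv {a b x y : ℝ} (ha : 0 ≤ a) (hb : 0 ≤ b) (hab : a + b = 1) :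
    |a * x + b * y - 1 / 2| ≤ a * |x - 1 / 2| + b * |y - 1 / 2| := by
  have e : a * x + b * y - 1 / 2 = a * (x - 1 / 2) + b * (y - 1 / 2) := by
    linear_combination (1 / 2 : ℝ) * hab
  rw [e]
  refine (abs_add_le _ _).trans ?_
  rw [abs_mul, abs_mul, abs_of_nonneg ha, abs_of_nonneg hb]

/-- sublevel set of a convex function -/
theorem convex_tile (ρ : ℝ) : Convex ℝ (tile ρ) := by
  intro x hx y hy a b ha hb hab
  have hx' : |x.1.re - 1 / 2| + |x.1.im - 1 / 2| < ρ := hx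
  have hy' : |y.1.re - 1 / 2| + |y.1.im - 1 / 2| < ρ := hy
  show |(a • x + b • y).1.re - 1 / 2| + |(a • x + b • y).1.im - 1 / 2| < ρ
  have e1 : (a • x + b • y).1.re = a * x.1.re + b * y.1.re := by simp
  have e2 : (a • x + b • y).1.im = a * x.1.im + b * y.1.im := by simp
  rw [e1, e2]
  have h1 := abs_conv (x := x.1.re) (y := y.1.re) ha hb hab
  have h2 := abs_conv (x := x.1.im) (y := y.1.im) ha hb hab
  rcases ha.eq_or_lt with h | h
  · have hb1 : b = 1 := by linarith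
    subst hb1
    rw [← h] at h1 h2 ⊢
    linarith
  · have h3 : a * (|x.1.re - 1 / 2| + |x.1.im - 1 / 2|) < a * ρ := mul_lt_mul_of_pos_left hx' h
    have h4 : b * (|y.1.re - 1 / 2| + |y.1.im - 1 / 2|) ≤ b * ρ :=
      mul_le_mul_of_nonneg_left hy'.le hb
    have h5 : a * ρ + b * ρ = ρ := by rw [← add_mul, hab, one_mul]
    linarith

theorem tile_mono {ρ ρ' : ℝ} (h : ρ ≤ ρ') : tile ρ ⊆ tile ρ' := by
  intro x hx
  have hx' : |x.1.re - 1 / 2| + |x.1.im - 1 / 2| < ρ := hx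
  exact lt_of_lt_of_le hx' h

private theorem half_le_abs (m : ℤ) : (1 / 2 : ℝ) ≤ |(m : ℝ) - 1 / 2| := by
  rcases le_or_gt m 0 with h | h
  · have h1 : (m : ℝ) ≤ 0 := by exact_mod_cast h
    rw [abs_of_neg (by linarith)]
    linarith
  · have h1 : (1 : ℝ) ≤ m := by exact_mod_cast h
    rw [abs_of_pos (by linarith)]
    linarith

/-- a lattice point has `l¹`-distance `≥ 1` from `(1 + i)/2` (`|m - 1/2| ≥ 1/2` for integers) -/
theorem tile_subset_piece {ρ : ℝ} (h : ρ ≤ 1) : tile ρ ⊆ piece := by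
  intro x hx m n hmn
  have hx' : |x.1.re - 1 / 2| + |x.1.im - 1 / 2| < ρ := hx
  rw [hmn] at hx'
  have e1 : ((m : ℂ) + n * Complex.I).re = m := by simp
  have e2 : ((m : ℂ) + n * Complex.I).im = n := by simp
  rw [e1, e2] at hx'
  have h1 := half_le_abs m
  have h2 := half_le_abs n
  linarith

theorem isOpen_collar : IsOpen collar :=
  (isOpen_lt continuous_const continuous_fst).inter (isOpen_lt continuous_fst continuous_const)

theorem convex_collar : Convex ℝ collar := by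
  have h : collar = (LinearMap.fst ℝ ℝ (ℝ × ℝ)) ⁻¹' Ioo 0 (1 / 4) := by
    ext y
    rfl
  rw [h]
  exact (convex_Ioo _ _).linear_preimage _

/-- `lat m n k` has `l¹`-length `|m| + |n|` in the first coordinate, and two points of `tile 1`
differ by less than `2` -/
theorem tile_lat {x : ℂ × ℝ} {m n k : ℤ} (hx : x ∈ tile 1) (hx' : x + lat m n k ∈ tile 1) :
    |m| + |n| ≤ 1 := by
  have h1 : |x.1.re - 1 / 2| + |x.1.im - 1 / 2| < 1 := hx
  have h2 : |(x + lat m n k).1.re - 1 / 2| + |(x + lat m n k).1.im - 1 / 2| < 1 := hx'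
  have e1 : (x + lat m n k).1.re = x.1.re + m := by simp [lat]
  have e2 : (x + lat m n k).1.im = x.1.im + n := by simp [lat]
  rw [e1, e2] at h2
  have h3 : |(m : ℝ)| ≤ |x.1.re + m - 1 / 2| + |x.1.re - 1 / 2| := by
    have : (m : ℝ) = (x.1.re + m - 1 / 2) - (x.1.re - 1 / 2) := by ring
    calc |(m : ℝ)| = |(x.1.re + m - 1 / 2) - (x.1.re - 1 / 2)| := by rw [← this]
      _ ≤ _ := abs_sub _ _
  have h4 : |(n : ℝ)| ≤ |x.1.im + n - 1 / 2| + |x.1.im - 1 / 2| := by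
    have : (n : ℝ) = (x.1.im + n - 1 / 2) - (x.1.im - 1 / 2) := by ring
    calc |(n : ℝ)| = |(x.1.im + n - 1 / 2) - (x.1.im - 1 / 2)| := by rw [← this]
      _ ≤ _ := abs_sub _ _
  have h5 : |(m : ℝ)| + |(n : ℝ)| < 2 := by linarith
  have h6 : |m| + |n| < 2 := by exact_mod_cast h5
  omega

theorem tile_vert {ρ : ℝ} {x : ℂ × ℝ} (k : ℤ) : x + lat 0 0 k ∈ tile ρ ↔ x ∈ tile ρ := by
  have e : (x + lat 0 0 k).1 = x.1 := by simp [lat]
  show |(x + lat 0 0 k).1.re - 1 / 2| + |(x + lat 0 0 k).1.im - 1 / 2| < ρ ↔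
    |x.1.re - 1 / 2| + |x.1.im - 1 / 2| < ρ
  rw [e]

/-- for `(m, n)` with `|m| + |n| ≤ 1` the tile meets its translate: `x = ((1 - m)/2 + i (1 - n)/2, 0)`
(the `l¹`-distances are `(|m| + |n|)/2 ≤ 1/2`) -/
theorem exists_tile_lat {m n : ℤ} (k : ℤ) (h : |m| + |n| ≤ 1) :
    ∃ x ∈ tile (13 / 16), x + lat m n k ∈ tile (13 / 16) := by
  have hR : |(m : ℝ)| + |(n : ℝ)| ≤ 1 := by exact_mod_cast h
  have e0 : ∀ a : ℝ, |a / 2| = |a| / 2 := by
    intro a
    rw [abs_div, abs_two]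
  refine ⟨(⟨(1 - m) / 2, (1 - n) / 2⟩, 0), ?_, ?_⟩
  · show |(1 - (m : ℝ)) / 2 - 1 / 2| + |(1 - (n : ℝ)) / 2 - 1 / 2| < 13 / 16
    have e1 : (1 - (m : ℝ)) / 2 - 1 / 2 = -(m / 2) := by ring
    have e2 : (1 - (n : ℝ)) / 2 - 1 / 2 = -(n / 2) := by ring
    rw [e1, e2, abs_neg, abs_neg, e0, e0]
    linarith
  · show |(((⟨(1 - m) / 2, (1 - n) / 2⟩ : ℂ), (0 : ℝ)) + lat m n k).1.re - 1 / 2| +
      |(((⟨(1 - m) / 2, (1 - n) / 2⟩ : ℂ), (0 : ℝ)) + lat m n k).1.im - 1 / 2| < 13 / 16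
    have e1 : (((⟨(1 - m) / 2, (1 - n) / 2⟩ : ℂ), (0 : ℝ)) + lat m n k).1.re - 1 / 2 = m / 2 := by
      simp [lat]
      ring
    have e2 : (((⟨(1 - m) / 2, (1 - n) / 2⟩ : ℂ), (0 : ℝ)) + lat m n k).1.im - 1 / 2 = n / 2 := by
      simp [lat]
      ring
    rw [e1, e2, e0, e0]
    linarith

/-- lattice vectors closer than `1` are equal (compare the real part, the imaginary part and the last
coordinate; the norm of `ℂ × ℝ` is the maximum of the norms) -/
theorem lat_near {m n k m' n' k' : ℤ} (h : ‖lat m n k - lat m' n' k'‖ < 1) :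
    m = m' ∧ n = n' ∧ k = k' := by
  have e : lat m n k - lat m' n' k' = lat (m - m') (n - n') (k - k') := by
    rw [sub_eq_add_neg, lat_neg, lat_add]
    rfl
  rw [e] at h
  have h1 : ‖(((m - m' : ℤ) : ℂ)) + ((n - n' : ℤ) : ℂ) * Complex.I‖ < 1 :=
    (norm_fst_le (lat (m - m') (n - n') (k - k'))).trans_lt h
  have h2 : ‖((k - k' : ℤ) : ℝ)‖ < 1 :=
    (norm_snd_le (lat (m - m') (n - n') (k - k'))).trans_lt h
  obtain ⟨h3, h4⟩ := exact_int_zero_of_norm h1
  have h5 : k - k' = 0 := by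
    rw [Real.norm_eq_abs] at h2
    have : |k - k'| < 1 := by exact_mod_cast h2
    exact Int.abs_lt_one_iff.mp this
  omega

theorem lat_inj {m n k m' n' k' : ℤ} (h : lat m n k = lat m' n' k') :
    m = m' ∧ n = n' ∧ k = k' := by
  refine lat_near ?_
  rw [h, sub_self, norm_zero]
  exact one_pos

end Pool.Agent.NCT
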