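import Pool.Agent.NCT.GrpLem
import Pool.Agent.NCT.TileGeo
import Pool.Agent.NCT.SectElem
import Pool.Agent.NCT.SectTile
import Pool.Agent.NCT.SideDef

/-! # NCT: the collar lift is equivariant -/

set_option autoImplicit false

open Set Filter Topology

namespace Pool.Agent.NCT

open Pool.Agent.NCQ

variable {A : Matrix.SpecialLinearGroup (Fin 2) ℤ}

/-- `kap (y + v) = rho (peri v) (kap y)`: let `y` be in the sector `n` (`exists_inS`); then `addv y v`
is in the sector `n + 4 v₀` (`inS_add`), `cpt (n + 4 v₀) (addv y v) = cpt n y + lat 0 0 v₁`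
(`cpt_addv`), so `kap (addv y v) = rho (U (n + 4 v₀), 1) (lam (cpt n y + lat 0 0 v₁))
= rho (bdry ^ v₀ * U n, ofAdd v₁) (lam (cpt n y)) = rho (peri v) (rho (U n, 1) (lam (cpt n y)))`
(`U_add`, `Side.tt` with `wd 0 0 = 1`, and `(bdry ^ v₀ * U n, ofAdd v₁) =
(bdry ^ v₀, ofAdd v₁) * (U n, 1)`). -/
theorem Side.peri {X : Type} [TopologicalSpace X] {p : X → MBar A} {i : Fin 2}
    {kap : ℝ × ℝ × ℝ → X} (S : Side A p i kap) {y : ℝ × ℝ × ℝ} (hy : y ∈ collar)
    (v : Fin 2 → ℤ) :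
    kap (addv y v) = (S.rho (NCP.peri (Multiplicative.ofAdd v))).1 (kap y) := by
  obtain ⟨n, hn⟩ := exists_inS y.2.1
  have hy' : addv y v ∈ collar := hy
  have hn' : inS (n + 4 * v 0) (addv y v).2.1 := inS_add.2 hn
  have hv : v = ![v 0, v 1] := by
    funext i
    fin_cases i <;> rfl
  have hc : cpt (n + 4 * v 0) (addv y v) = cpt n y + lat 0 0 (v 1) := by
    conv_lhs => rw [hv]
    exact cpt_addv n (v 0) (v 1) y
  have hm := cpt_mem hy hn
  have key : ((U (n + 4 * v 0), 1) * (wd 0 0, Multiplicative.ofAdd (v 1)) :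
      FreeGroup (Fin 2) × Multiplicative ℤ) =
      NCP.peri (Multiplicative.ofAdd v) * (U n, 1) := by
    rw [U_add]
    refine Prod.ext ?_ ?_
    · simp [wd, NCP.peri]
    · simp [NCP.peri]
  rw [S.qt _ hy' _ hn', hc, S.tt _ hm 0 0 (v 1) ((tile_vert _).2 hm), S.qt _ hy _ hn,
    ← deck_mul, ← deck_mul, ← map_mul, ← map_mul, key]

end Pool.Agent.NCT
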