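import Pool.Agent.NCT.QuotOpen

/-! # NCT: `MBar A` is compact and connected

* Compact: `MBar A` is the union of the images under `qm A 0`, `qm A 1` of the compact set
  `{x : ℂ × ℝ | x.1.re, x.1.im, x.2 ∈ [0, 1], ‖x.1 - c‖ ≥ 1/8 for the four corners c = 0, 1, i, 1+i}`
  (a subset of `piece`). Indeed a point is `qm A i x`, after a translation all coordinates of `x` are
  in `[0, 1]` (`mk_add_lat`); if `‖x.1 - c‖ < 1/8` for a corner `c`, then `x = polar y + lat` with
  `0 < y.1 < 1/8` and `qm A i x = qm A j (polar y')`, `j ≠ i`, with `y' = flip A y` (`i = 0`) or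
  `flip A y' = y` (`i = 1`), so `1/8 < y'.1 < 1/4`; then translate `polar y'` into `[0, 1]³`: its
  first coordinate has distance `y'.1 > 1/8` from the nearest lattice point.
* Connected: `piece` is connected (complement of a countable set in a space of real dimension `> 1`:
  `Set.Countable.isPathConnected_compl_of_one_lt_rank` for `ℂ`, times `ℝ`), so the images of
  `qm A 0` and `qm A 1` are connected; they meet (`mk_polar`) and cover `MBar A` (`exists_qm`). -/

set_option autoImplicit false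

open Set Filter Topology

namespace Pool.Agent.NCT

open Pool.Agent.NCQ

variable {A : Matrix.SpecialLinearGroup (Fin 2) ℤ}

/-- the compact part of the piece -/
private def cptK : Set (ℂ × ℝ) :=
  {x | x.1.re ∈ Icc (0 : ℝ) 1 ∧ x.1.im ∈ Icc (0 : ℝ) 1 ∧ x.2 ∈ Icc (0 : ℝ) 1 ∧
    ∀ m n : ℤ, 1 / 8 ≤ ‖x.1 - (m + n * Complex.I)‖}

private theorem isCompact_cptK : IsCompact cptK := by
  have h1 : IsCompact ((Icc (0 : ℝ) 1 ×ℂ Icc (0 : ℝ) 1) ×ˢ Icc (0 : ℝ) 1) :=
    (isCompact_Icc.reProdIm isCompact_Icc).prod isCompact_Icc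
  refine h1.of_isClosed_subset ?_ ?_
  · have e : cptK = {x : ℂ × ℝ | x.1.re ∈ Icc (0 : ℝ) 1} ∩ ({x : ℂ × ℝ | x.1.im ∈ Icc (0 : ℝ) 1} ∩
        ({x : ℂ × ℝ | x.2 ∈ Icc (0 : ℝ) 1} ∩
          ⋂ (m : ℤ) (n : ℤ), {x : ℂ × ℝ | 1 / 8 ≤ ‖x.1 - (m + n * Complex.I)‖})) := by
      ext x
      simp only [cptK, mem_setOf_eq, mem_inter_iff, mem_iInter]
    rw [e]
    refine (isClosed_Icc.preimage (Complex.continuous_re.comp continuous_fst)).inter
      ((isClosed_Icc.preimage (Complex.continuous_im.comp continuous_fst)).inter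
        ((isClosed_Icc.preimage continuous_snd).inter ?_))
    refine isClosed_iInter fun m => isClosed_iInter fun n => ?_
    exact isClosed_le continuous_const (by fun_prop)
  · intro x hx
    refine ⟨?_, hx.2.2.1⟩
    exact ⟨hx.1, hx.2.1⟩

private theorem cptK_subset : cptK ⊆ piece := by
  intro x hx m n h
  have := hx.2.2.2 m n
  rw [h, sub_self, norm_zero] at this
  norm_num at this

private theorem qm_add_lat (i : Fin 2) {x : ℂ × ℝ} (hx : x ∈ piece) (m n k : ℤ) :
    qm A i (x + lat m n k) = qm A i x := by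
  rw [qm_eq hx, qm_eq (add_lat_mem hx m n k)]
  exact mk_add_lat i hx m n k

private theorem qm_polar {p : ℝ × ℝ × ℝ} (h0 : 0 < p.1) (h1 : p.1 < 1 / 4) :
    qm A 0 (polar p) = qm A 1 (polar (flip A p)) := by
  rw [qm_eq (polar_mem h0 h1),
    qm_eq (polar_mem (flip_bounds (A := A) h0 h1).1 (flip_bounds (A := A) h0 h1).2)]
  exact mk_polar h0 h1

/-- points far from the lattice lines are covered -/
private theorem cover_far (i : Fin 2) {x : ℂ × ℝ}
    (h : ∀ m n : ℤ, 1 / 8 ≤ ‖x.1 - (m + n * Complex.I)‖) :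
    ∃ x' ∈ cptK, qm A i x' = qm A i x := by
  have hx : x ∈ piece := by
    intro m n hmn
    have := h m n
    rw [hmn, sub_self, norm_zero] at this
    norm_num at this
  refine ⟨x + lat (-⌊x.1.re⌋) (-⌊x.1.im⌋) (-⌊x.2⌋), ⟨?_, ?_, ?_, ?_⟩, qm_add_lat i hx _ _ _⟩
  · have e : (x + lat (-⌊x.1.re⌋) (-⌊x.1.im⌋) (-⌊x.2⌋)).1.re = x.1.re - ⌊x.1.re⌋ := by
      simp only [lat, Prod.fst_add, Complex.add_re, Complex.intCast_re, Complex.mul_re,
        Complex.intCast_im, Complex.I_re, Complex.I_im]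
      push_cast
      ring
    rw [e]
    constructor
    · linarith [Int.floor_le x.1.re]
    · linarith [Int.lt_floor_add_one x.1.re]
  · have e : (x + lat (-⌊x.1.re⌋) (-⌊x.1.im⌋) (-⌊x.2⌋)).1.im = x.1.im - ⌊x.1.im⌋ := by
      simp only [lat, Prod.fst_add, Complex.add_im, Complex.intCast_re, Complex.mul_im,
        Complex.intCast_im, Complex.I_re, Complex.I_im]
      push_cast
      ring
    rw [e]
    constructor
    · linarith [Int.floor_le x.1.im]
    · linarith [Int.lt_floor_add_one x.1.im]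
  · have e : (x + lat (-⌊x.1.re⌋) (-⌊x.1.im⌋) (-⌊x.2⌋)).2 = x.2 - ⌊x.2⌋ := by
      simp only [lat, Prod.snd_add]
      push_cast
      ring
    rw [e]
    constructor
    · linarith [Int.floor_le x.2]
    · linarith [Int.lt_floor_add_one x.2]
  · intro m n
    have e : (x + lat (-⌊x.1.re⌋) (-⌊x.1.im⌋) (-⌊x.2⌋)).1 - (m + n * Complex.I) =
        x.1 - (((m + ⌊x.1.re⌋ : ℤ) : ℂ) + ((n + ⌊x.1.im⌋ : ℤ) : ℂ) * Complex.I) := by
      simp only [lat, Prod.fst_add]
      push_cast
      ring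
    rw [e]
    exact h _ _

/-- a nonzero lattice point has absolute value at least one -/
private theorem one_le_norm_lat {m n : ℤ} (h : ¬ (m = 0 ∧ n = 0)) : 1 ≤ ‖(m : ℂ) + n * Complex.I‖ := by
  by_contra hlt
  exact h (exact_int_zero_of_norm (not_le.mp hlt))

private theorem cover_polar (i : Fin 2) {y : ℝ × ℝ × ℝ} (h1 : 1 / 8 < y.1) (h2 : y.1 < 1 / 4) :
    ∃ x' ∈ cptK, qm A i x' = qm A i (polar y) := by
  apply cover_far
  intro m n
  have hn := exact_norm_polar_fst y (by linarith)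
  by_cases h : m = 0 ∧ n = 0
  · obtain ⟨rfl, rfl⟩ := h
    have e : (polar y).1 - (((0 : ℤ) : ℂ) + ((0 : ℤ) : ℂ) * Complex.I) = (polar y).1 := by simp
    rw [e, hn]
    exact h1.le
  · have h3 := one_le_norm_lat h
    have h4 := norm_sub_norm_le ((m : ℂ) + n * Complex.I) (polar y).1
    rw [norm_sub_rev, hn] at h4
    linarith

private theorem exists_polar_coord {x : ℂ × ℝ} {m n : ℤ} (h : 0 < ‖x.1 - (m + n * Complex.I)‖) :
    ∃ y : ℝ × ℝ × ℝ, y.1 = ‖x.1 - (m + n * Complex.I)‖ ∧ x = polar y + lat m n 0 := by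
  refine ⟨(‖x.1 - (m + n * Complex.I)‖, Complex.arg (x.1 - (m + n * Complex.I)) / (2 * Real.pi),
    x.2), rfl, ?_⟩
  refine Prod.ext ?_ ?_
  · simp only [polar, lat, Prod.fst_add]
    have hpi : (Real.pi : ℂ) ≠ 0 := by exact_mod_cast Real.pi_ne_zero
    have e : (2 * (Real.pi : ℂ) *
        ((Complex.arg (x.1 - (m + n * Complex.I)) / (2 * Real.pi) : ℝ) : ℂ) * Complex.I) =
        Complex.arg (x.1 - (m + n * Complex.I)) * Complex.I := by
      push_cast
      field_simp
    rw [e, Complex.norm_mul_exp_arg_mul_I]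
    ring
  · simp [polar, lat]

private theorem exists_cover (m : MBar A) : ∃ (i : Fin 2), ∃ x ∈ cptK, qm A i x = m := by
  obtain ⟨i, x, hx, rfl⟩ := exists_qm m
  by_cases h : ∀ m n : ℤ, 1 / 8 ≤ ‖x.1 - (m + n * Complex.I)‖
  · exact ⟨i, cover_far i h⟩
  · push Not at h
    obtain ⟨m, n, hmn⟩ := h
    have h0 : 0 < ‖x.1 - (m + n * Complex.I)‖ := norm_pos_iff.mpr (sub_ne_zero.mpr (hx m n))
    obtain ⟨y, hy, hxy⟩ := exists_polar_coord h0
    rw [← hy] at h0 hmn
    have e : qm A i x = qm A i (polar y) := by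
      rw [hxy]
      exact qm_add_lat i (polar_mem h0 (by linarith)) _ _ _
    rw [e]
    fin_cases i
    · refine ⟨1, ?_⟩
      have e2 : qm A 0 (polar y) = qm A 1 (polar (flip A y)) := qm_polar h0 (by linarith)
      have h3 : (flip A y).1 = 1 / 4 - y.1 := rfl
      obtain ⟨x', hx', hq⟩ := cover_polar (A := A) 1 (y := flip A y) (by rw [h3]; linarith)
        (by rw [h3]; linarith)
      exact ⟨x', hx', hq.trans e2.symm⟩
    · refine ⟨0, ?_⟩
      have h3 : (flip A⁻¹ y).1 = 1 / 4 - y.1 := rfl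
      have e2 : qm A 0 (polar (flip A⁻¹ y)) = qm A 1 (polar y) := by
        rw [qm_polar (A := A) (p := flip A⁻¹ y) (by rw [h3]; linarith) (by rw [h3]; linarith),
          flip_flip_inv]
      obtain ⟨x', hx', hq⟩ := cover_polar (A := A) 0 (y := flip A⁻¹ y) (by rw [h3]; linarith)
        (by rw [h3]; linarith)
      exact ⟨x', hx', hq.trans e2⟩

theorem exists_compact_cover (A : Matrix.SpecialLinearGroup (Fin 2) ℤ) :
    ∃ K : Set (ℂ × ℝ), IsCompact K ∧ K ⊆ piece ∧
      ∀ m : MBar A, ∃ (i : Fin 2), ∃ x ∈ K, qm A i x = m :=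
  ⟨cptK, isCompact_cptK, cptK_subset, exists_cover⟩

instance : CompactSpace (MBar A) := by
  refine ⟨?_⟩
  have h : ∀ i : Fin 2, IsCompact (qm A i '' cptK) := fun i =>
    isCompact_cptK.image_of_continuousOn ((continuousOn_qm i).mono cptK_subset)
  have e : (univ : Set (MBar A)) = qm A 0 '' cptK ∪ qm A 1 '' cptK := by
    symm
    rw [eq_univ_iff_forall]
    intro m
    obtain ⟨i, x, hx, rfl⟩ := exists_cover m
    fin_cases i
    · exact Or.inl ⟨x, hx, rfl⟩
    · exact Or.inr ⟨x, hx, rfl⟩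
  rw [e]
  exact (h 0).union (h 1)

theorem isConnected_piece : IsConnected piece := by
  have h1 : (Set.range fun p : ℤ × ℤ => ((p.1 : ℂ) + p.2 * Complex.I)).Countable :=
    Set.countable_range _
  have h2 : IsPathConnected (Set.range fun p : ℤ × ℤ => ((p.1 : ℂ) + p.2 * Complex.I))ᶜ :=
    h1.isPathConnected_compl_of_one_lt_rank (by
      rw [Complex.rank_real_complex]
      exact Cardinal.one_lt_two)
  have h3 : IsConnected (((Set.range fun p : ℤ × ℤ => ((p.1 : ℂ) + p.2 * Complex.I))ᶜ) ×ˢ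
      (univ : Set ℝ)) := h2.isConnected.prod isConnected_univ
  have e : piece = (((Set.range fun p : ℤ × ℤ => ((p.1 : ℂ) + p.2 * Complex.I))ᶜ) ×ˢ
      (univ : Set ℝ)) := by
    ext x
    simp only [piece, mem_setOf_eq, mem_prod, mem_compl_iff, mem_range, Prod.exists, mem_univ,
      and_true, not_exists]
    constructor
    · intro h m n hmn
      exact h m n hmn.symm
    · intro h m n hmn
      exact h m n hmn.symm
  rw [e]
  exact h3

instance : ConnectedSpace (MBar A) := by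
  rw [connectedSpace_iff_univ]
  have h : ∀ i : Fin 2, IsConnected (qm A i '' piece) := fun i =>
    isConnected_piece.image _ (continuousOn_qm i)
  have e : (univ : Set (MBar A)) = qm A 0 '' piece ∪ qm A 1 '' piece := by
    symm
    rw [eq_univ_iff_forall]
    intro m
    obtain ⟨i, x, hx, rfl⟩ := exists_qm m
    fin_cases i
    · exact Or.inl ⟨x, hx, rfl⟩
    · exact Or.inr ⟨x, hx, rfl⟩
  rw [e]
  refine IsConnected.union ?_ (h 0) (h 1)
  have h0 : (0 : ℝ) < ((1 / 8 : ℝ), (0 : ℝ), (0 : ℝ)).1 := by norm_num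
  have h1 : ((1 / 8 : ℝ), (0 : ℝ), (0 : ℝ)).1 < 1 / 4 := by norm_num
  refine ⟨qm A 0 (polar ((1 / 8 : ℝ), (0 : ℝ), (0 : ℝ))), ⟨_, polar_mem h0 h1, rfl⟩,
    ⟨_, polar_mem (flip_bounds (A := A) h0 h1).1 (flip_bounds (A := A) h0 h1).2,
      (qm_polar h0 h1).symm⟩⟩

end Pool.Agent.NCT
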