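import Pool.Agent.NCT.QuotOpen

/-! # NCT: `MBar A` is a Hausdorff space

Let `m ≠ m'`. By `exists_qm`, `m = qm A i x` and `m' = qm A j x'`. The maps `qm A i` are open
(`isOpen_image_qm`), so it is enough to find neighbourhoods `U` of `x` and `U'` of `x'` in `piece`
with `qm A i u ≠ qm A j u'` for `u ∈ U`, `u' ∈ U'`. Suppose not: there are sequences (or a filter)
`u → x`, `u' → x'` with `qm A i u = qm A j u'`.
* `i = j`: `u' - u = lat m n k` by `mk_eq_same`; the lattice vectors converge to `x' - x`, so they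
  are eventually constant and `x' - x` is a lattice vector, `qm A i x = qm A i x'` by `mk_add_lat`,
  a contradiction. (The set of lattice vectors is closed and discrete.)
* `i ≠ j`, say `i = 0`, `j = 1`: by `mk_eq_diff` `u = polar y + lat m n k`,
  `u' = polar (flip A y) + lat m' n' k'` with `0 < y.1 < 1/4`. `y.1` is the distance of `u.1` to
  `ℤ[i]`, and `1/4 - y.1` is the distance of `u'.1` to `ℤ[i]`. As `x ∈ piece` and `x' ∈ piece`, these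
  distances stay away from `0`: `δ ≤ y.1 ≤ 1/4 - δ`. After changing `y` by an integer in the angle and
  an integer in the last coordinate (`exact_polar_add_int`; this changes `flip A y` by an integer
  vector as well) `y` is in the compact set `[δ, 1/4 - δ] × [0,1] × [0,1]`, the lattice vectors are
  then bounded, so along an ultrafilter `y → y₀` and the lattice vectors are constant,
  `x = polar y₀ + lat`, `x' = polar (flip A y₀) + lat'`, so `qm A 0 x = qm A 1 x'` by `mk_polar` and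
  `mk_add_lat`, a contradiction. -/

set_option autoImplicit false

open Set Filter Topology
open scoped Pointwise

namespace Pool.Agent.NCT

open Pool.Agent.NCQ

variable {A : Matrix.SpecialLinearGroup (Fin 2) ℤ}

/-- the lattice vectors -/
def Lam : Set (ℂ × ℝ) := {v | ∃ m n k : ℤ, v = lat m n k}

theorem isClosed_Lam : IsClosed Lam := by
  have hcl : IsClosed {v : ℂ × ℝ | (v.1.re ∈ range ((↑) : ℤ → ℝ) ∧ v.1.im ∈ range ((↑) : ℤ → ℝ)) ∧
      v.2 ∈ range ((↑) : ℤ → ℝ)} :=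
    ((Int.isClosedEmbedding_coe_real.isClosed_range.preimage
      (Complex.continuous_re.comp continuous_fst)).inter
    (Int.isClosedEmbedding_coe_real.isClosed_range.preimage
      (Complex.continuous_im.comp continuous_fst))).inter
    (Int.isClosedEmbedding_coe_real.isClosed_range.preimage continuous_snd)
  have e : Lam = {v : ℂ × ℝ | (v.1.re ∈ range ((↑) : ℤ → ℝ) ∧ v.1.im ∈ range ((↑) : ℤ → ℝ)) ∧
      v.2 ∈ range ((↑) : ℤ → ℝ)} := by
    ext v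
    constructor
    · rintro ⟨m, n, k, rfl⟩
      exact ⟨⟨⟨m, by simp [lat]⟩, ⟨n, by simp [lat]⟩⟩, ⟨k, by simp [lat]⟩⟩
    · rintro ⟨⟨⟨m, hm⟩, ⟨n, hn⟩⟩, ⟨k, hk⟩⟩
      refine ⟨m, n, k, Prod.ext (Complex.ext ?_ ?_) ?_⟩
      · simp [lat, ← hm]
      · simp [lat, ← hn]
      · simp [lat, ← hk]
  rw [e]
  exact hcl

theorem eventually_ne_same (i : Fin 2) {x x' : ℂ × ℝ} (hx : x ∈ piece) (hx' : x' ∈ piece)
    (h : qm A i x ≠ qm A i x') : ∀ᶠ p : (ℂ × ℝ) × (ℂ × ℝ) in 𝓝 (x, x'),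
      p.1 ∈ piece ∧ p.2 ∈ piece ∧ qm A i p.1 ≠ qm A i p.2 := by
  have h1 : x' - x ∉ Lam := by
    rintro ⟨m, n, k, e⟩
    apply h
    have e' : x' = x + lat m n k := by rw [← e]; abel
    subst e'
    rw [qm_eq hx, qm_eq hx', ← mk_add_lat i hx m n k]
  have hc : Continuous fun p : (ℂ × ℝ) × (ℂ × ℝ) => p.2 - p.1 := by fun_prop
  have h2 : ∀ᶠ p : (ℂ × ℝ) × (ℂ × ℝ) in 𝓝 (x, x'), p.2 - p.1 ∈ Lamᶜ :=
    (isClosed_Lam.isOpen_compl.preimage hc).mem_nhds h1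
  have h3 : ∀ᶠ p : (ℂ × ℝ) × (ℂ × ℝ) in 𝓝 (x, x'), p.1 ∈ piece :=
    (isOpen_piece.preimage continuous_fst).mem_nhds hx
  have h4 : ∀ᶠ p : (ℂ × ℝ) × (ℂ × ℝ) in 𝓝 (x, x'), p.2 ∈ piece :=
    (isOpen_piece.preimage continuous_snd).mem_nhds hx'
  filter_upwards [h2, h3, h4] with p a2 a3 a4
  refine ⟨a3, a4, fun he => ?_⟩
  rw [qm_eq a3, qm_eq a4] at he
  obtain ⟨m, n, k, e⟩ := mk_eq_same he
  apply a2
  refine ⟨m, n, k, ?_⟩
  have e' : p.2 = p.1 + lat m n k := e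
  rw [e']
  abel

theorem le_of_ball {u x : ℂ × ℝ} {δ ε : ℝ} (h2 : 2 * δ ≤ ε) (hb : Metric.ball x ε ⊆ piece)
    (hu : u ∈ Metric.ball x δ) {y : ℝ × ℝ × ℝ} (h0 : 0 < y.1) {m n k : ℤ}
    (e : u = polar y + lat m n k) : δ ≤ y.1 := by
  by_contra h
  push Not at h
  have h3 : dist (((m : ℂ) + n * Complex.I, u.2) : ℂ × ℝ) u < δ := by
    rw [Prod.dist_eq]
    have h4 : dist ((m : ℂ) + n * Complex.I) u.1 = y.1 := by
      rw [dist_eq_norm, e]
      have : (m : ℂ) + n * Complex.I - (polar y + lat m n k).1 = -(polar y).1 := by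
        simp only [Prod.fst_add, lat]
        ring
      rw [this, norm_neg, exact_norm_polar_fst y h0]
    simp only [dist_self, h4]
    rw [max_eq_left h0.le]
    exact h
  have h5 : (((m : ℂ) + n * Complex.I, u.2) : ℂ × ℝ) ∈ Metric.ball x ε := by
    rw [Metric.mem_ball] at hu ⊢
    have := dist_triangle (((m : ℂ) + n * Complex.I, u.2) : ℂ × ℝ) u x
    linarith
  exact hb h5 m n rfl

theorem continuous_polar : Continuous polar := contDiff_polar.continuous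

theorem continuous_flip : Continuous (NCQ.flip A) := contDiff_flip.continuous

theorem qm_add_lat (i : Fin 2) {x : ℂ × ℝ} (hx : x ∈ piece) (m n k : ℤ) :
    qm A i (x + lat m n k) = qm A i x := by
  rw [qm_eq (add_lat_mem hx m n k), qm_eq hx, mk_add_lat]

theorem eventually_ne_diff {x x' : ℂ × ℝ} (hx : x ∈ piece) (hx' : x' ∈ piece)
    (h : qm A 0 x ≠ qm A 1 x') : ∀ᶠ p : (ℂ × ℝ) × (ℂ × ℝ) in 𝓝 (x, x'),
      p.1 ∈ piece ∧ p.2 ∈ piece ∧ qm A 0 p.1 ≠ qm A 1 p.2 := by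
  obtain ⟨ε, hε, hb⟩ := Metric.isOpen_iff.1 isOpen_piece x hx
  obtain ⟨ε', hε', hb'⟩ := Metric.isOpen_iff.1 isOpen_piece x' hx'
  obtain ⟨δ, hδ, hδ1, hδ2⟩ : ∃ δ : ℝ, 0 < δ ∧ 2 * δ ≤ ε ∧ 2 * δ ≤ ε' :=
    ⟨min ε ε' / 2, by positivity, by linarith [min_le_left ε ε'], by linarith [min_le_right ε ε']⟩
  let K : Set (ℝ × ℝ × ℝ) := Icc δ (1 / 4 - δ) ×ˢ Icc (0 : ℝ) 1 ×ˢ Icc (0 : ℝ) 1
  have hK : IsCompact K := isCompact_Icc.prod (isCompact_Icc.prod isCompact_Icc)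
  let Φ : ℝ × ℝ × ℝ → (ℂ × ℝ) × (ℂ × ℝ) := fun y => (polar y, polar (flip A y))
  have hΦ : Continuous Φ := continuous_polar.prodMk (continuous_polar.comp continuous_flip)
  let S : Set ((ℂ × ℝ) × (ℂ × ℝ)) := Φ '' K + Lam ×ˢ Lam
  have hS : IsClosed S := (isClosed_Lam.prod isClosed_Lam).add_left_of_isCompact (hK.image hΦ)
  have h1 : (x, x') ∉ S := by
    rintro ⟨_, ⟨y, ⟨⟨hy1, hy2⟩, hy3⟩, rfl⟩, ⟨v, v'⟩, ⟨⟨m, n, k, hv⟩, ⟨m', n', k', hv'⟩⟩, e⟩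
    have h0 : 0 < y.1 := by linarith
    have h4 : y.1 < 1 / 4 := by linarith
    have e1 : polar y + lat m n k = x := by
      have := congrArg Prod.fst e
      simp only at hv
      rw [← hv]
      exact this
    have e2 : polar (flip A y) + lat m' n' k' = x' := by
      have := congrArg Prod.snd e
      simp only at hv'
      rw [← hv']
      exact this
    apply h
    rw [← e1, ← e2, qm_add_lat 0 (polar_mem h0 h4),
      qm_add_lat 1 (polar_mem (flip_bounds h0 h4).1 (flip_bounds h0 h4).2),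
      qm_eq (polar_mem h0 h4), qm_eq (polar_mem (flip_bounds h0 h4).1 (flip_bounds h0 h4).2),
      mk_polar h0 h4]
  have h2 : ∀ᶠ p : (ℂ × ℝ) × (ℂ × ℝ) in 𝓝 (x, x'), p ∈ Sᶜ := hS.isOpen_compl.mem_nhds h1
  have h3 : ∀ᶠ p : (ℂ × ℝ) × (ℂ × ℝ) in 𝓝 (x, x'), p.1 ∈ Metric.ball x δ :=
    (Metric.isOpen_ball.preimage continuous_fst).mem_nhds (Metric.mem_ball_self hδ)
  have h4 : ∀ᶠ p : (ℂ × ℝ) × (ℂ × ℝ) in 𝓝 (x, x'), p.2 ∈ Metric.ball x' δ :=
    (Metric.isOpen_ball.preimage continuous_snd).mem_nhds (Metric.mem_ball_self hδ)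
  filter_upwards [h2, h3, h4] with p a2 a3 a4
  have b3 : p.1 ∈ piece := hb (Metric.ball_subset_ball (by linarith) a3)
  have b4 : p.2 ∈ piece := hb' (Metric.ball_subset_ball (by linarith) a4)
  refine ⟨b3, b4, fun he => a2 ?_⟩
  rw [qm_eq b3, qm_eq b4] at he
  obtain ⟨y, m, n, k, m', n', k', h0, h5, e1, e2⟩ := mk_eq_diff he
  simp only at e1 e2
  have c1 : δ ≤ y.1 := le_of_ball hδ1 hb a3 h0 e1
  have c2 : δ ≤ (flip A y).1 := le_of_ball hδ2 hb' a4 (flip_bounds h0 h5).1 e2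
  have c3 : (flip A y).1 = 1 / 4 - y.1 := rfl
  let y' : ℝ × ℝ × ℝ := (y.1, Int.fract y.2.1, Int.fract y.2.2)
  have hy : y = (y'.1, y'.2.1 + (⌊y.2.1⌋ : ℤ), y'.2.2 + (⌊y.2.2⌋ : ℤ)) := by
    refine Prod.ext rfl (Prod.ext ?_ ?_)
    · exact (Int.fract_add_floor _).symm
    · exact (Int.fract_add_floor _).symm
  have hyK : y' ∈ K := by
    refine ⟨⟨c1, ?_⟩, ⟨Int.fract_nonneg _, (Int.fract_lt_one _).le⟩,
      ⟨Int.fract_nonneg _, (Int.fract_lt_one _).le⟩⟩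
    show y.1 ≤ 1 / 4 - δ
    linarith
  have d1 : polar y = polar y' + lat 0 0 ⌊y.2.2⌋ := by
    conv_lhs => rw [hy]
    exact exact_polar_add_int y' _ _
  have d2 : flip A y = ((flip A y').1,
      (flip A y').2.1 + ((A.1 0 0 * ⌊y.2.1⌋ + A.1 0 1 * ⌊y.2.2⌋ : ℤ) : ℝ),
      (flip A y').2.2 + ((A.1 1 0 * ⌊y.2.1⌋ + A.1 1 1 * ⌊y.2.2⌋ : ℤ) : ℝ)) := by
    conv_lhs => rw [hy]
    simp only [NCQ.flip]
    refine Prod.ext rfl (Prod.ext ?_ ?_)
    · push_cast; ring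
    · push_cast; ring
  have d3 : polar (flip A y) = polar (flip A y') +
      lat 0 0 (A.1 1 0 * ⌊y.2.1⌋ + A.1 1 1 * ⌊y.2.2⌋) := by
    rw [d2]
    exact exact_polar_add_int (flip A y') _ _
  refine ⟨Φ y', ⟨y', hyK, rfl⟩, (lat 0 0 ⌊y.2.2⌋ + lat m n k,
    lat 0 0 (A.1 1 0 * ⌊y.2.1⌋ + A.1 1 1 * ⌊y.2.2⌋) + lat m' n' k'),
    ⟨⟨_, _, _, lat_add _ _ _ _ _ _⟩, ⟨_, _, _, lat_add _ _ _ _ _ _⟩⟩, ?_⟩
  refine Prod.ext ?_ ?_
  · show polar y' + (lat 0 0 ⌊y.2.2⌋ + lat m n k) = p.1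
    rw [e1, d1]
    abel
  · show polar (flip A y') + (lat 0 0 (A.1 1 0 * ⌊y.2.1⌋ + A.1 1 1 * ⌊y.2.2⌋) + lat m' n' k')
      = p.2
    rw [e2, d3]
    abel

theorem eventually_ne {i j : Fin 2} {x x' : ℂ × ℝ} (hx : x ∈ piece) (hx' : x' ∈ piece)
    (h : qm A i x ≠ qm A j x') : ∀ᶠ p : (ℂ × ℝ) × (ℂ × ℝ) in 𝓝 (x, x'),
      p.1 ∈ piece ∧ p.2 ∈ piece ∧ qm A i p.1 ≠ qm A j p.2 := by
  rcases eq_or_ne i j with rfl | hij
  · exact eventually_ne_same i hx hx' h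
  · have hc : (i = 0 ∧ j = 1) ∨ (i = 1 ∧ j = 0) := by
      clear h
      revert i j
      decide
    rcases hc with ⟨rfl, rfl⟩ | ⟨rfl, rfl⟩
    · exact eventually_ne_diff hx hx' h
    · have h1 := eventually_ne_diff hx' hx h.symm
      have h2 : Tendsto (Prod.swap : (ℂ × ℝ) × (ℂ × ℝ) → _) (𝓝 (x, x')) (𝓝 (x', x)) :=
        (continuous_swap (X := ℂ × ℝ) (Y := ℂ × ℝ)).tendsto (x, x')
      filter_upwards [h2.eventually h1] with p hp
      exact ⟨hp.2.1, hp.1, hp.2.2.symm⟩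

instance : T2Space (MBar A) := by
  refine ⟨fun m m' hne => ?_⟩
  obtain ⟨i, x, hx, rfl⟩ := exists_qm m
  obtain ⟨j, x', hx', rfl⟩ := exists_qm m'
  obtain ⟨U, U', hU, hxU, hU', hxU', hsub⟩ := mem_nhds_prod_iff'.1 (eventually_ne hx hx' hne)
  refine ⟨qm A i '' (U ∩ piece), qm A j '' (U' ∩ piece),
    isOpen_image_qm i (hU.inter isOpen_piece) inter_subset_right,
    isOpen_image_qm j (hU'.inter isOpen_piece) inter_subset_right,
    ⟨x, ⟨hxU, hx⟩, rfl⟩, ⟨x', ⟨hxU', hx'⟩, rfl⟩, ?_⟩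
  rw [Set.disjoint_left]
  rintro _ ⟨u, ⟨hu, _⟩, rfl⟩ ⟨u', ⟨hu', _⟩, he⟩
  exact (hsub (Set.mk_mem_prod hu hu')).2.2 he.symm

end Pool.Agent.NCT
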