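import Pool.Agent.NCT.QuotOpen
import Pool.Agent.NCT.Haus
import Pool.Agent.NCT.Cpt

/-! # NCT: the topology of `MBar A` (interface)

`continuousOn_qm`, `isOpen_image_qm`, `locInj_qm`, and the instances `T2Space`, `CompactSpace`,
`ConnectedSpace` for `MBar A`. -/
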