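import Pool.Agent.NCT.SideEx
import Pool.Agent.NCT.SidePeri
import Pool.Agent.NCT.Space

/-! # NCT: existence of the glued data

`p` is surjective (`surjective_of_covering`, `MBar A` is connected). Let `kap` be a lift of
`qm A 0 ∘ polar` on the (open, convex) collar. For `i = 0, 1`, `fun y => kap (sdInv A i y)` is a lift
of `qm A i ∘ polar` on the collar (`qm_sd`, `sd_sdInv`, `sdInv_collar`, `continuous_sdInv`), so there
is `sid i` (`exists_side`). For `y ∈ collar` and `v`, with `V = A.1.mulVec v`:
`(sid 1).rho (peri V) (kap y) = kap (sdInv A 1 (addv (sd A 1 y) V)) = kap (addv y v)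
= (sid 0).rho (peri v) (kap y)` by `Side.peri` for `i = 1` at `sd A 1 y`, `sd_addv`, `sdInv_sd`, and
`Side.peri` for `i = 0` (`sdInv A 0 y = y`). By `deck_free`, `(sid 0).rho (peri v) =
(sid 1).rho (peri (gluing A v))`, and `exists_lift_GM` gives `rho`. -/

set_option autoImplicit false

open Set Filter Topology

namespace Pool.Agent.NCT

open Pool.Agent.NCQ

variable {A : Matrix.SpecialLinearGroup (Fin 2) ℤ}

theorem exists_glued {X : Type} [TopologicalSpace X] [SimplyConnectedSpace X]
    [LocallyPathConnectedSpace X] {p : X → MBar A} (hp : IsCoveringMap p) :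
    Nonempty (Glued A p) := by
  classical
  have : Nonempty X := inferInstance
  have hsurj : Function.Surjective p := surjective_of_covering hp
  set y₀ : ℝ × ℝ × ℝ := (1 / 8, 0, 0) with hy₀
  have hy : y₀ ∈ collar := by
    constructor
    · show (0 : ℝ) < 1 / 8
      norm_num
    · show (1 / 8 : ℝ) < 1 / 4
      norm_num
  obtain ⟨x₀, hx₀⟩ := hsurj (qm A 0 (polar y₀))
  have hf : ContinuousOn (fun y : ℝ × ℝ × ℝ => qm A 0 (polar y)) collar :=
    (continuousOn_qm 0).comp contDiff_polar.continuous.continuousOn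
      fun y hy => polar_mem hy.1 hy.2
  obtain ⟨kap, hkc, -, hkp⟩ := exists_lift_convex hp convex_collar isOpen_collar hf hy hx₀
  have hc : ∀ i : Fin 2, ContinuousOn (fun y => kap (sdInv A i y)) collar := fun i =>
    hkc.comp (continuous_sdInv i).continuousOn fun y hy => sdInv_collar hy
  have hpr : ∀ i : Fin 2, ∀ y ∈ collar, p (kap (sdInv A i y)) = qm A i (polar y) := by
    intro i y hy
    rw [hkp _ (sdInv_collar hy), ← qm_sd i (sdInv_collar hy), sd_sdInv]
  have hside : ∀ i : Fin 2, Nonempty (Side A p i (fun y => kap (sdInv A i y))) := fun i =>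
    exists_side hp i (hc i) (hpr i)
  let sid : ∀ i : Fin 2, Side A p i (fun y => kap (sdInv A i y)) := fun i =>
    Classical.choice (hside i)
  have hrel : ∀ v : Multiplicative (Fin 2 → ℤ), (sid 0).rho (NCP.peri v) =
      (sid 1).rho (NCP.peri (NCP.gluing A v)) := by
    intro v
    apply deck_free hp (x := kap y₀)
    have h0 := (sid 0).peri hy (Multiplicative.toAdd v)
    have h1 := (sid 1).peri (sd_collar (A := A) (i := 1) hy) (A.1.mulVec (Multiplicative.toAdd v))
    have e0 : ∀ y, sdInv A 0 y = y := fun y => by simp [sdInv]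
    have e1 : addv (sd A 1 y₀) (A.1.mulVec (Multiplicative.toAdd v)) =
        sd A 1 (addv y₀ (Multiplicative.toAdd v)) := by
      rw [sd_addv, if_neg (by decide)]
    simp only [e0] at h0
    simp only [e1, sdInv_sd] at h1
    rw [h0] at h1
    exact h1
  obtain ⟨ρ, hρ⟩ := exists_lift_GM (A := A) (fun i => (sid i).rho) hrel
  exact ⟨⟨kap, hkc, hkp, sid, ρ, hρ⟩⟩

end Pool.Agent.NCT
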