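import Pool.Agent.NCT.TopDef

/-! # NCT: the quotient map of a piece is continuous, open and locally injective

* `qm A i` coincides on `piece` with `Quot.mk (Glue A) ∘ (fun x => (i, x))`, so it is continuous on
  `piece` (`piece` is open: `isOpen_piece`).
* Open: let `U ⊆ piece` be open, `V = qm A i '' U`. A set of `MBar A` is open iff its preimage under
  `Quot.mk (Glue A) : Fin 2 × piece → MBar A` is open (coinduced topology). By `mk_eq_same` the
  preimage of `V` in the copy `i` is the union of the translates `U + lat m n k`. By `mk_eq_diff`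
  its preimage in the copy `1` (case `i = 0`) is the union over `m n k m' n' k'` of the images under
  `y ↦ polar (flip A y) + lat m' n' k'` of the open set
  `{y | 0 < y.1 < 1/4, polar y + lat m n k ∈ U}`, and these are open because `polar` is an open map
  on `{y | 0 < y.1}` (`isOpen_image_polar`) and `flip A` is a homeomorphism of `ℝ × ℝ × ℝ` with
  inverse `flip A⁻¹` (`flip_inv_flip`, `flip_flip_inv`); the same for `i = 1`.
* Locally injective: by `mk_eq_same`, `qm A i` is injective on the ball of radius `1/4` around `x`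
  (two of its points differ by less than `1`, so by no `lat m n k ≠ 0`). -/

set_option autoImplicit false

open Set Filter Topology

namespace Pool.Agent.NCT

open Pool.Agent.NCQ

variable {A : Matrix.SpecialLinearGroup (Fin 2) ℤ}

/-- `A⁻¹ A = 1` and `1/4 - (1/4 - r) = r` -/
theorem flip_inv_flip (y : ℝ × ℝ × ℝ) : flip A⁻¹ (flip A y) = y := by
  have hdet : ((A.1 0 0 : ℤ) : ℝ) * A.1 1 1 - A.1 0 1 * A.1 1 0 = 1 := by
    exact_mod_cast ExactD.det A
  have h00 : (A⁻¹).1 0 0 = A.1 1 1 := by rw [Matrix.SpecialLinearGroup.SL2_inv_expl]; rfl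
  have h01 : (A⁻¹).1 0 1 = -A.1 0 1 := by rw [Matrix.SpecialLinearGroup.SL2_inv_expl]; rfl
  have h10 : (A⁻¹).1 1 0 = -A.1 1 0 := by rw [Matrix.SpecialLinearGroup.SL2_inv_expl]; rfl
  have h11 : (A⁻¹).1 1 1 = A.1 0 0 := by rw [Matrix.SpecialLinearGroup.SL2_inv_expl]; rfl
  refine Prod.ext ?_ (Prod.ext ?_ ?_)
  · simp only [NCQ.flip]; ring
  · simp only [NCQ.flip, h00, h01]
    push_cast
    linear_combination y.2.1 * hdet
  · simp only [NCQ.flip, h10, h11]
    push_cast
    linear_combination y.2.2 * hdet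

theorem flip_flip_inv (y : ℝ × ℝ × ℝ) : flip A (flip A⁻¹ y) = y := by
  have := flip_inv_flip (A := A⁻¹) y
  rwa [inv_inv] at this

/-- polar coordinates form an open map on `{0 < ρ}` (the derivative `hasFDerivAt_polar` is
invertible there: `HasStrictFDerivAt.map_nhds_eq_of_surj`; or by `exists_polar`-type formulas with
the complex logarithm) -/
theorem isOpen_image_polar {V : Set (ℝ × ℝ × ℝ)} (hV : IsOpen V) (h : ∀ y ∈ V, 0 < y.1) :
    IsOpen (polar '' V) := by
  rw [isOpen_iff_mem_nhds]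
  rintro _ ⟨y, hy, rfl⟩
  have hstrict : HasStrictFDerivAt polar (fderiv ℝ polar y) y :=
    contDiff_polar.contDiffAt.hasStrictFDerivAt (by simp)
  have hy1 : y.1 ≠ 0 := (h y hy).ne'
  have hpi : (2 * Real.pi : ℝ) ≠ 0 := by positivity
  have hsurj : Function.Surjective (fderiv ℝ polar y) := by
    rintro ⟨w, s⟩
    have he : Complex.exp (2 * Real.pi * y.2.1 * Complex.I) ≠ 0 := Complex.exp_ne_zero _
    refine ⟨((w / Complex.exp (2 * Real.pi * y.2.1 * Complex.I)).re,
      (w / Complex.exp (2 * Real.pi * y.2.1 * Complex.I)).im / (2 * Real.pi * y.1), s), ?_⟩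
    rw [hasFDerivAt_polar]
    refine Prod.ext ?_ rfl
    have h1 : w = (w / Complex.exp (2 * Real.pi * y.2.1 * Complex.I)) *
        Complex.exp (2 * Real.pi * y.2.1 * Complex.I) := by field_simp
    generalize w / Complex.exp (2 * Real.pi * y.2.1 * Complex.I) = u at h1 ⊢
    rw [h1]
    simp only
    congr 1
    have hy1' : (y.1 : ℂ) ≠ 0 := by exact_mod_cast hy1
    have hpi' : (Real.pi : ℂ) ≠ 0 := by exact_mod_cast Real.pi_ne_zero
    have h2 : (2 * Real.pi * y.1 * ((u.im / (2 * Real.pi * y.1) : ℝ) : ℂ) : ℂ) = u.im := by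
      push_cast
      field_simp
    rw [h2, Complex.re_add_im]
  have hmap := hstrict.map_nhds_eq_of_surj (LinearMap.range_eq_top.2 hsurj)
  rw [← hmap]
  exact image_mem_map (hV.mem_nhds hy)

private theorem continuous_mk (i : Fin 2) :
    Continuous (fun x : piece => (Quot.mk (Glue A) (i, x) : MBar A)) := by
  have h1 : Continuous (Quot.mk (Glue A)) := continuous_quot_mk
  exact h1.comp (Continuous.prodMk continuous_const continuous_id)

theorem continuousOn_qm (i : Fin 2) : ContinuousOn (qm A i) piece := by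
  rw [continuousOn_iff_continuous_domRestrict]
  have : piece.domRestrict (qm A i) = fun x : piece => (Quot.mk (Glue A) (i, x) : MBar A) := by
    funext x
    exact qm_eq x.2
  rw [this]
  exact continuous_mk i

/-- the quotient map -/
private def mkM (A : Matrix.SpecialLinearGroup (Fin 2) ℤ) (a : Fin 2 × piece) : MBar A :=
  Quot.mk (Glue A) a

/-- a set of the quotient is open if its two traces are traces of open sets -/
private theorem isOpen_of_slices {V : Set (MBar A)} (W : Fin 2 → Set (ℂ × ℝ))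
    (hW : ∀ j, IsOpen (W j))
    (h : ∀ (j : Fin 2) (x : piece), (Quot.mk (Glue A) (j, x) : MBar A) ∈ V ↔ x.1 ∈ W j) :
    IsOpen V := by
  have h1 : IsOpen (mkM A ⁻¹' V) := by
    have e : mkM A ⁻¹' V = ⋃ j : Fin 2, {j} ×ˢ (Subtype.val ⁻¹' (W j)) := by
      ext ⟨j, x⟩
      simp only [mem_preimage, mem_iUnion, mem_prod, mem_singleton_iff]
      rw [show mkM A (j, x) ∈ V ↔ x.1 ∈ W j from h j x]
      constructor
      · intro hx
        exact ⟨j, rfl, hx⟩
      · rintro ⟨j', rfl, hx⟩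
        exact hx
    rw [e]
    exact isOpen_iUnion fun j => (isOpen_discrete {j}).prod
      ((hW j).preimage continuous_subtype_val)
  exact h1

private theorem isOpen_translate {W : Set (ℂ × ℝ)} (hW : IsOpen W) (v : ℂ × ℝ) :
    IsOpen ((fun z => z + v) '' W) := by
  rw [image_add_right]
  exact hW.preimage (continuous_add_const _)

/-- the images of the gluing -/
private theorem isOpen_glue {G : Set (ℝ × ℝ × ℝ)} (hG : IsOpen G) (h1 : ∀ y ∈ G, y.1 < 1 / 4) :
    IsOpen (polar '' (NCQ.flip A '' G)) := by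
  refine isOpen_image_polar ?_ ?_
  · have e : NCQ.flip A '' G = NCQ.flip A⁻¹ ⁻¹' G := by
      ext y
      constructor
      · rintro ⟨z, hz, rfl⟩
        rw [mem_preimage, flip_inv_flip]
        exact hz
      · intro hy
        exact ⟨NCQ.flip A⁻¹ y, hy, flip_flip_inv y⟩
    rw [e]
    exact hG.preimage contDiff_flip.continuous
  · rintro _ ⟨z, hz, rfl⟩
    have := h1 z hz
    simp only [NCQ.flip]
    linarith

private theorem isOpen_col {f : ℝ × ℝ × ℝ → ℂ × ℝ} (hf : Continuous f) {U : Set (ℂ × ℝ)}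
    (hU : IsOpen U) (v : ℂ × ℝ) :
    IsOpen {y : ℝ × ℝ × ℝ | 0 < y.1 ∧ y.1 < 1 / 4 ∧ f y + v ∈ U} := by
  refine (isOpen_lt continuous_const continuous_fst).inter
    ((isOpen_lt continuous_fst continuous_const).inter ?_)
  exact hU.preimage (hf.add continuous_const)

private theorem slice_same (i : Fin 2) {U : Set (ℂ × ℝ)} (hUp : U ⊆ piece) (x : piece) :
    (Quot.mk (Glue A) (i, x) : MBar A) ∈ qm A i '' U ↔
      x.1 ∈ ⋃ (m : ℤ) (n : ℤ) (k : ℤ), {x : ℂ × ℝ | x + lat m n k ∈ U} := by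
  simp only [mem_iUnion, mem_ofPred_eq]
  constructor
  · rintro ⟨u, hu, hux⟩
    rw [qm_eq (hUp hu)] at hux
    obtain ⟨m, n, k, h⟩ := mk_eq_same hux.symm
    exact ⟨m, n, k, h ▸ hu⟩
  · rintro ⟨m, n, k, h⟩
    refine ⟨_, h, ?_⟩
    rw [qm_eq (hUp h)]
    exact mk_add_lat i x.2 m n k

private theorem isOpen_same {U : Set (ℂ × ℝ)} (hU : IsOpen U) :
    IsOpen (⋃ (m : ℤ) (n : ℤ) (k : ℤ), {x : ℂ × ℝ | x + lat m n k ∈ U}) :=
  isOpen_iUnion fun _ => isOpen_iUnion fun _ => isOpen_iUnion fun _ =>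
    hU.preimage (continuous_add_const _)

theorem isOpen_image_qm (i : Fin 2) {U : Set (ℂ × ℝ)} (hU : IsOpen U) (hUp : U ⊆ piece) :
    IsOpen (qm A i '' U) := by
  rcases (by decide +revert : i = 0 ∨ i = 1) with rfl | rfl
  · refine isOpen_of_slices ![⋃ (m : ℤ) (n : ℤ) (k : ℤ), {x : ℂ × ℝ | x + lat m n k ∈ U},
      ⋃ (m : ℤ) (n : ℤ) (k : ℤ) (m' : ℤ) (n' : ℤ) (k' : ℤ), (fun z => z + lat m' n' k') ''
        (polar '' (NCQ.flip A '' {y : ℝ × ℝ × ℝ | 0 < y.1 ∧ y.1 < 1 / 4 ∧
          polar y + lat m n k ∈ U}))] ?_ ?_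
    · intro j
      rcases (by decide +revert : j = 0 ∨ j = 1) with rfl | rfl
      · exact isOpen_same hU
      · refine isOpen_iUnion fun _ => isOpen_iUnion fun _ => isOpen_iUnion fun _ =>
          isOpen_iUnion fun _ => isOpen_iUnion fun _ => isOpen_iUnion fun _ =>
          isOpen_translate (isOpen_glue (isOpen_col contDiff_polar.continuous hU _) ?_) _
        rintro y ⟨-, h, -⟩
        exact h
    · intro j x
      rcases (by decide +revert : j = 0 ∨ j = 1) with rfl | rfl
      · exact slice_same 0 hUp x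
      · show _ ↔ x.1 ∈ ⋃ (m : ℤ) (n : ℤ) (k : ℤ) (m' : ℤ) (n' : ℤ) (k' : ℤ), _
        simp only [mem_iUnion]
        constructor
        · rintro ⟨u, hu, hux⟩
          rw [qm_eq (hUp hu)] at hux
          obtain ⟨p, m, n, k, m', n', k', h0, h1, e1, e2⟩ := mk_eq_diff hux
          have e1' : u = polar p + lat m n k := e1
          exact ⟨m, n, k, m', n', k', _, ⟨_, ⟨p, ⟨h0, h1, e1' ▸ hu⟩, rfl⟩, rfl⟩, e2.symm⟩
        · rintro ⟨m, n, k, m', n', k', _, ⟨_, ⟨p, ⟨h0, h1, hu⟩, rfl⟩, rfl⟩, e2⟩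
          refine ⟨_, hu, ?_⟩
          rw [qm_eq (hUp hu)]
          have e3 : x = ⟨polar (flip A p) + lat m' n' k', add_lat_mem (polar_mem
            (flip_bounds h0 h1).1 (flip_bounds h0 h1).2) m' n' k'⟩ := Subtype.ext e2.symm
          rw [e3, mk_add_lat 1 (polar_mem (flip_bounds h0 h1).1 (flip_bounds h0 h1).2) m' n' k',
            ← mk_polar h0 h1]
          exact mk_add_lat 0 (polar_mem h0 h1) m n k
  · refine isOpen_of_slices ![⋃ (m : ℤ) (n : ℤ) (k : ℤ) (m' : ℤ) (n' : ℤ) (k' : ℤ),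
        (fun z => z + lat m n k) ''
        (polar '' {y : ℝ × ℝ × ℝ | 0 < y.1 ∧ y.1 < 1 / 4 ∧
          polar (flip A y) + lat m' n' k' ∈ U}),
        ⋃ (m : ℤ) (n : ℤ) (k : ℤ), {x : ℂ × ℝ | x + lat m n k ∈ U}] ?_ ?_
    · intro j
      rcases (by decide +revert : j = 0 ∨ j = 1) with rfl | rfl
      · refine isOpen_iUnion fun _ => isOpen_iUnion fun _ => isOpen_iUnion fun _ =>
          isOpen_iUnion fun _ => isOpen_iUnion fun _ => isOpen_iUnion fun _ =>
          isOpen_translate (isOpen_image_polar (isOpen_col (f := fun y => polar (flip A y))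
            (contDiff_polar.continuous.comp contDiff_flip.continuous) hU _) ?_) _
        rintro y ⟨h, -, -⟩
        exact h
      · exact isOpen_same hU
    · intro j x
      rcases (by decide +revert : j = 0 ∨ j = 1) with rfl | rfl
      · show _ ↔ x.1 ∈ ⋃ (m : ℤ) (n : ℤ) (k : ℤ) (m' : ℤ) (n' : ℤ) (k' : ℤ), _
        simp only [mem_iUnion]
        constructor
        · rintro ⟨u, hu, hux⟩
          rw [qm_eq (hUp hu)] at hux
          obtain ⟨p, m, n, k, m', n', k', h0, h1, e1, e2⟩ := mk_eq_diff hux.symm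
          have e2' : u = polar (flip A p) + lat m' n' k' := e2
          exact ⟨m, n, k, m', n', k', _, ⟨p, ⟨h0, h1, e2' ▸ hu⟩, rfl⟩, e1.symm⟩
        · rintro ⟨m, n, k, m', n', k', _, ⟨p, ⟨h0, h1, hu⟩, rfl⟩, e2⟩
          refine ⟨_, hu, ?_⟩
          rw [qm_eq (hUp hu)]
          have e3 : x = ⟨polar p + lat m n k, add_lat_mem (polar_mem h0 h1) m n k⟩ :=
            Subtype.ext e2.symm
          rw [e3, mk_add_lat 0 (polar_mem h0 h1) m n k, mk_polar h0 h1]
          exact mk_add_lat 1 (polar_mem (flip_bounds h0 h1).1 (flip_bounds h0 h1).2) m' n' k'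
      · exact slice_same 1 hUp x

theorem locInj_qm (i : Fin 2) {x : ℂ × ℝ} (hx : x ∈ piece) :
    ∃ U ∈ 𝓝 x, InjOn (qm A i) U := by
  refine ⟨Metric.ball x (1 / 4) ∩ piece, inter_mem (Metric.ball_mem_nhds _ (by norm_num))
    (isOpen_piece.mem_nhds hx), ?_⟩
  rintro a ⟨ha, ha'⟩ b ⟨hb, hb'⟩ hab
  rw [qm_eq ha', qm_eq hb'] at hab
  obtain ⟨m, n, k, h⟩ := mk_eq_same hab
  have h' : b = a + lat m n k := h
  have hd : dist b a < 1 := by
    have h1 := dist_triangle_right b a x
    rw [Metric.mem_ball] at ha hb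
    linarith
  have hn : ‖lat m n k‖ < 1 := by
    rw [dist_eq_norm, h', add_sub_cancel_left] at hd
    exact hd
  have h1 : ‖(m : ℂ) + n * Complex.I‖ < 1 := (norm_fst_le (lat m n k)).trans_lt hn
  have h2 : ‖(k : ℝ)‖ < 1 := (norm_snd_le (lat m n k)).trans_lt hn
  obtain ⟨rfl, rfl⟩ := exact_int_zero_of_norm h1
  have h3 : k = 0 := by
    rw [Real.norm_eq_abs] at h2
    have : |k| < 1 := by exact_mod_cast h2
    exact Int.abs_lt_one_iff.mp this
  subst h3
  rw [h', lat_zero, add_zero]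

end Pool.Agent.NCT
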