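import Pool.Agent.NCT.PlaneDef
import Pool.Agent.NCT.QuotOpen

/-! # NCT: the tiles of radius `13/16` and the collar cover, and tiles of different copies are
disjoint -/

set_option autoImplicit false

open Set Filter Topology

namespace Pool.Agent.NCT

open Pool.Agent.NCQ

variable {A : Matrix.SpecialLinearGroup (Fin 2) ℤ}

private theorem cg_norm_polar (y : ℝ × ℝ × ℝ) (h0 : 0 < y.1) : ‖(polar y).1‖ = y.1 := by
  have h1 : (polar y).1 = (y.1 : ℂ) * Complex.exp (((2 * Real.pi * y.2.1 : ℝ) : ℂ) * Complex.I) := by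
    simp [polar]
  rw [h1, norm_mul, Complex.norm_exp_ofReal_mul_I, mul_one, Complex.norm_real, Real.norm_eq_abs,
    abs_of_pos h0]

/-- `‖x.1 - (m + n i)‖ = y.1`. The `l¹`-norm of `x.1 - (m + n i)` is at least
`|m - 1/2| + |n - 1/2| - |x.1.re - 1/2| - |x.1.im - 1/2| > 1 - 13/16 = 3/16`, so
`2 y.1 ^ 2 > (3/16) ^ 2` and `y.1 > 1/8`. -/
theorem tile_far {x : ℂ × ℝ} {y : ℝ × ℝ × ℝ} {m n k : ℤ} (hx : x ∈ tile (13 / 16))
    (h0 : 0 < y.1) (h : x = polar y + lat m n k) : 1 / 8 < y.1 := by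
  have h1 : x.1 - (m + n * Complex.I) = (polar y).1 := by
    rw [h]
    simp only [lat, Prod.fst_add]
    ring
  have h2 : ‖x.1 - (m + n * Complex.I)‖ = y.1 := by
    rw [h1]
    exact cg_norm_polar y h0
  have h3 : (x.1.re - m) ^ 2 + (x.1.im - n) ^ 2 = y.1 ^ 2 := by
    rw [← h2, ← Complex.normSq_eq_norm_sq, Complex.normSq_apply]
    simp
    ring
  have h4 : |x.1.re - 1 / 2| + |x.1.im - 1 / 2| < 13 / 16 := hx
  have h5 : ∀ (m : ℤ) (t : ℝ), 1 / 2 - |t - 1 / 2| ≤ |t - m| := by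
    intro m t
    have h6 : (1 / 2 : ℝ) ≤ |(m : ℝ) - 1 / 2| := by
      rcases le_or_gt m 0 with h7 | h7
      · have h8 : (m : ℝ) ≤ 0 := by exact_mod_cast h7
        rw [abs_of_nonpos (by linarith)]
        linarith
      · have h8 : (1 : ℝ) ≤ m := by exact_mod_cast h7
        rw [abs_of_nonneg (by linarith)]
        linarith
    have h9 := abs_sub_le (m : ℝ) t (1 / 2)
    rw [abs_sub_comm (m : ℝ) t] at h9
    linarith
  have h6 := h5 m x.1.re
  have h7 := h5 n x.1.im
  have h8 : 3 / 16 < |x.1.re - m| + |x.1.im - n| := by linarith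
  have h9 : (|x.1.re - m|) ^ 2 + (|x.1.im - n|) ^ 2 = y.1 ^ 2 := by
    rw [sq_abs, sq_abs]
    exact h3
  by_contra hcon
  push Not at hcon
  nlinarith [sq_nonneg (|x.1.re - m| - |x.1.im - n|), abs_nonneg (x.1.re - m),
    abs_nonneg (x.1.im - n)]

/-- Translate `x.1` into the unit square (floors). If the `l¹`-distance to the centre is not
`< 13/16`, let `c` be the nearest corner: `|re (x.1 - c)| + |im (x.1 - c)| ≤ 3/16`, so
`0 < ‖x.1 - c‖ < 1/4`, and `x.1 - c = r e^{2πiφ}` with `φ = arg / (2π)`. -/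
theorem exists_cov {x : ℂ × ℝ} (hx : x ∈ piece) :
    (∃ m n : ℤ, x + lat m n 0 ∈ tile (13 / 16)) ∨
      ∃ y ∈ collar, ∃ m n : ℤ, x = polar y + lat m n 0 := by
  by_cases hc : |Int.fract x.1.re - 1 / 2| + |Int.fract x.1.im - 1 / 2| < 13 / 16
  · left
    refine ⟨-⌊x.1.re⌋, -⌊x.1.im⌋, ?_⟩
    have h1 : (x + lat (-⌊x.1.re⌋) (-⌊x.1.im⌋) 0).1.re = Int.fract x.1.re := by
      have e : (x + lat (-⌊x.1.re⌋) (-⌊x.1.im⌋) 0).1.re = x.1.re + -⌊x.1.re⌋ := by
        simp [lat]
      rw [e, ← Int.self_sub_floor]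
      ring
    have h2 : (x + lat (-⌊x.1.re⌋) (-⌊x.1.im⌋) 0).1.im = Int.fract x.1.im := by
      have e : (x + lat (-⌊x.1.re⌋) (-⌊x.1.im⌋) 0).1.im = x.1.im + -⌊x.1.im⌋ := by
        simp [lat]
      rw [e, ← Int.self_sub_floor]
      ring
    show |(x + lat (-⌊x.1.re⌋) (-⌊x.1.im⌋) 0).1.re - 1 / 2|
      + |(x + lat (-⌊x.1.re⌋) (-⌊x.1.im⌋) 0).1.im - 1 / 2| < 13 / 16
    rw [h1, h2]
    exact hc
  · right
    push Not at hc
    have key : ∀ t : ℝ, ∃ m : ℤ, |t - m| ≤ 1 / 2 - |Int.fract t - 1 / 2| := by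
      intro t
      have h0 := Int.fract_nonneg t
      have h1 := (Int.fract_lt_one t).le
      have h2 : t = ⌊t⌋ + Int.fract t := (Int.floor_add_fract t).symm
      rcases le_or_gt (Int.fract t) (1 / 2) with h3 | h3
      · refine ⟨⌊t⌋, ?_⟩
        rw [abs_of_nonpos (show Int.fract t - 1 / 2 ≤ 0 by linarith)]
        rw [show t - ⌊t⌋ = Int.fract t by linarith, abs_of_nonneg h0]
        linarith
      · refine ⟨⌊t⌋ + 1, ?_⟩
        push_cast
        rw [abs_of_nonneg (show 0 ≤ Int.fract t - 1 / 2 by linarith)]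
        rw [show t - (⌊t⌋ + 1) = Int.fract t - 1 by linarith, abs_of_nonpos (by linarith)]
        linarith
    obtain ⟨m, hm⟩ := key x.1.re
    obtain ⟨n, hn⟩ := key x.1.im
    set w : ℂ := x.1 - (m + n * Complex.I) with hw
    have hw0 : w ≠ 0 := by
      rw [hw, sub_ne_zero]
      exact hx m n
    have h1 : ‖w‖ < 1 / 4 := by
      have h2 := Complex.norm_le_abs_re_add_abs_im w
      have h3 : w.re = x.1.re - m := by simp [hw]
      have h4 : w.im = x.1.im - n := by simp [hw]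
      rw [h3, h4] at h2
      linarith
    refine ⟨(‖w‖, Complex.arg w / (2 * Real.pi), x.2), ⟨norm_pos_iff.2 hw0, h1⟩, m, n, ?_⟩
    refine Prod.ext ?_ ?_
    · have h2 : (2 * Real.pi * ((Complex.arg w / (2 * Real.pi) : ℝ) : ℂ) * Complex.I : ℂ)
          = Complex.arg w * Complex.I := by
        push_cast
        have h3 : (Real.pi : ℂ) ≠ 0 := by exact_mod_cast Real.pi_ne_zero
        field_simp
      show x.1 = (‖w‖ : ℂ) * Complex.exp (2 * Real.pi *
        ((Complex.arg w / (2 * Real.pi) : ℝ) : ℂ) * Complex.I) + (m + n * Complex.I)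
      rw [h2, Complex.norm_mul_exp_arg_mul_I, hw]
      ring
    · show x.2 = x.2 + ((0 : ℤ) : ℝ)
      simp

theorem sd_collar {i : Fin 2} {y : ℝ × ℝ × ℝ} (hy : y ∈ collar) : sd A i y ∈ collar := by
  unfold sd
  split_ifs
  · exact hy
  · exact flip_bounds hy.1 hy.2

theorem sdInv_collar {i : Fin 2} {y : ℝ × ℝ × ℝ} (hy : y ∈ collar) : sdInv A i y ∈ collar := by
  unfold sdInv
  split_ifs
  · exact hy
  · exact flip_bounds hy.1 hy.2

/-- `A⁻¹ A = 1` (`flip_inv_flip` in `QuotOpen`) -/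
theorem sdInv_sd (i : Fin 2) (y : ℝ × ℝ × ℝ) : sdInv A i (sd A i y) = y := by
  unfold sdInv sd
  split_ifs
  · rfl
  · exact flip_inv_flip y

theorem sd_sdInv (i : Fin 2) (y : ℝ × ℝ × ℝ) : sd A i (sdInv A i y) = y := by
  unfold sdInv sd
  split_ifs
  · rfl
  · exact flip_flip_inv y

theorem continuous_sd (i : Fin 2) : Continuous (sd A i) := by
  by_cases h : i = 0
  · have e : sd A i = fun y => y := by
      funext y
      simp [sd, h]
    rw [e]
    exact continuous_id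
  · have e : sd A i = NCQ.flip A := by
      funext y
      simp [sd, h]
    rw [e]
    exact contDiff_flip.continuous

theorem continuous_sdInv (i : Fin 2) : Continuous (sdInv A i) := by
  by_cases h : i = 0
  · have e : sdInv A i = fun y => y := by
      funext y
      simp [sdInv, h]
    rw [e]
    exact continuous_id
  · have e : sdInv A i = NCQ.flip A⁻¹ := by
      funext y
      simp [sdInv, h]
    rw [e]
    exact contDiff_flip.continuous

/-- `sd A 1` acts on integer vectors by `A` -/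
theorem sd_addv (i : Fin 2) (y : ℝ × ℝ × ℝ) (v : Fin 2 → ℤ) :
    sd A i (addv y v) = addv (sd A i y) (if i = 0 then v else A.1.mulVec v) := by
  unfold sd
  split_ifs
  · rfl
  · refine Prod.ext rfl (Prod.ext ?_ ?_)
    · simp only [NCQ.flip, addv, Matrix.mulVec, dotProduct, Fin.sum_univ_two]
      push_cast
      ring
    · simp only [NCQ.flip, addv, Matrix.mulVec, dotProduct, Fin.sum_univ_two]
      push_cast
      ring

/-- the gluing relation -/
theorem qm_sd (i : Fin 2) {y : ℝ × ℝ × ℝ} (hy : y ∈ collar) :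
    qm A i (polar (sd A i y)) = qm A 0 (polar y) := by
  rcases (by decide +revert : i = 0 ∨ i = 1) with rfl | rfl
  · rfl
  · have e : sd A 1 y = NCQ.flip A y := by simp [sd]
    rw [e, qm_eq (polar_mem hy.1 hy.2),
      qm_eq (polar_mem (flip_bounds hy.1 hy.2).1 (flip_bounds hy.1 hy.2).2)]
    exact (mk_polar hy.1 hy.2).symm

theorem qm_add_lat (i : Fin 2) {x : ℂ × ℝ} (hx : x ∈ piece) (m n k : ℤ) :
    qm A i (x + lat m n k) = qm A i x := by
  rw [qm_eq hx, qm_eq (add_lat_mem hx m n k)]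
  exact mk_add_lat i hx m n k

/-- `cpt n y` and `polar y` are the same point of `MBar A` -/
theorem qm_cpt (i : Fin 2) {y : ℝ × ℝ × ℝ} (hy : y ∈ collar) (n : ℤ) :
    qm A i (cpt n y) = qm A i (polar y) :=
  qm_add_lat i (polar_mem hy.1 hy.2) _ _ _

end Pool.Agent.NCT
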