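import Pool.Agent.NCT.WDef
import Pool.Agent.NCT.SideDef
import Pool.Agent.NCT.SidePeri
import Pool.Agent.NCT.CovGeo
import Pool.Agent.NCT.TileGeo

/-! # NCT: the lift of `qW` given by the glued data -/

set_option autoImplicit false

open Set Filter Topology

namespace Pool.Agent.NCT

open Pool.Agent.NCQ

variable {A : Matrix.SpecialLinearGroup (Fin 2) ℤ} {X : Type} [TopologicalSpace X]
  {p : X → MBar A}

/-- the lift of `qW` -/
def Glued.lamW (D : Glued A p) : W → X :=
  Sum.elim (fun z => (D.sid z.1).lam z.2.1) (fun y => D.kap y.1)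

private theorem lw_tile (x : ↥(tile (13 / 16))) : x.1 ∈ tile 1 := tile_mono (by norm_num) x.2

theorem Glued.continuous_lamW (D : Glued A p) : Continuous D.lamW := by
  unfold Glued.lamW
  refine continuous_sumElim.2 ⟨?_, ?_⟩
  · rw [continuous_prod_of_discrete_left]
    intro i
    exact (D.sid i).cont.comp_continuous continuous_subtype_val lw_tile
  · exact D.cont.comp_continuous continuous_subtype_val fun y => y.2

theorem Glued.proj_lamW (D : Glued A p) (w : W) : p (D.lamW w) = qW A w := by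
  rcases w with z | y
  · exact (D.sid z.1).proj _ (lw_tile z.2)
  · exact D.proj _ y.2

private theorem lw_QT (D : Glued A p) {y : ↥collar} {z : Fin 2 × ↥(tile (13 / 16))}
    {g : NCP.GMGroup A} (h : QT A y z g) :
    D.kap y.1 = (D.rho g).1 ((D.sid z.1).lam z.2.1) := by
  obtain ⟨n, k, hn, hc, hg⟩ := h
  have h1 := (D.sid z.1).qt (sd A z.1 y.1) (sd_collar y.2) n hn
  have h2 := (D.sid z.1).tt z.2.1 (lw_tile z.2) 0 0 k ((tile_vert k).2 (lw_tile z.2))
  have h3 : ((U n, 1) * (wd 0 0, Multiplicative.ofAdd k) :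
      FreeGroup (Fin 2) × Multiplicative ℤ) = (U n, Multiplicative.ofAdd k) := by
    refine Prod.ext ?_ ?_
    · simp [wd]
    · simp
  simp only [sdInv_sd] at h1
  rw [h1, hc, h2, ← deck_mul, ← map_mul, h3, hg, D.rho_inc]

/-- (tile, tile): `Side.tt`. (collar, tile): `Side.qt` for the copy `i` at `sd A i y`
(`sdInv_sd`, `sd_collar`), then `Side.tt` for `lat 0 0 k` (`wd 0 0 = 1`). (tile, collar): the same with
the inverse. (collar, collar): `Side.peri` for the copy `0` (`sdInv A 0 y = y`). -/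
theorem Glued.RW_lamW (D : Glued A p) {w w' : W} {g : NCP.GMGroup A} (h : RW A w w' g) :
    D.lamW w = (D.rho g).1 (D.lamW w') := by
  rcases w with z | y <;> rcases w' with z' | y'
  · obtain ⟨i, x⟩ := z
    obtain ⟨j, x'⟩ := z'
    obtain ⟨hij, m, n, k, hx, hg⟩ := h
    change i = j at hij
    subst hij
    change x.1 = x'.1 + lat m n k at hx
    have h1 : x'.1 + lat m n k ∈ tile 1 := by
      rw [← hx]
      exact lw_tile x
    have h2 := (D.sid i).tt x'.1 (lw_tile x') m n k h1
    show (D.sid i).lam x.1 = (D.rho g).1 ((D.sid i).lam x'.1)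
    rw [hx, h2, hg, D.rho_inc]
  · have h1 : QT A y' z g⁻¹ := h
    have h2 := lw_QT D h1
    show (D.sid z.1).lam z.2.1 = (D.rho g).1 (D.kap y'.1)
    rw [h2, ← deck_mul, ← map_mul, mul_inv_cancel, map_one, deck_one]
  · exact lw_QT D h
  · obtain ⟨v, hv, hg⟩ := h
    have h1 := (D.sid 0).peri y'.2 v
    have h2 : ∀ y : ℝ × ℝ × ℝ, sdInv A 0 y = y := fun y => if_pos rfl
    simp only [h2] at h1
    show D.kap y.1 = (D.rho g).1 (D.kap y'.1)
    rw [hv, h1, hg, D.rho_inc]

end Pool.Agent.NCT
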