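import Pool.Agent.NCT.PlaneDef

/-! # NCT: the group `NCP.GMGroup A` -/

set_option autoImplicit false

open Set Filter Topology

namespace Pool.Agent.NCT

open Pool.Agent.NCQ

variable {A : Matrix.SpecialLinearGroup (Fin 2) ℤ}

/-- `peri` in the two copies (`Monoid.PushoutI.of_apply_eq_base`) -/
theorem inc_peri (v : Multiplicative (Fin 2 → ℤ)) :
    inc A 0 (NCP.peri v) = inc A 1 (NCP.peri (NCP.gluing A v)) := by
  have h0 := Monoid.PushoutI.of_apply_eq_base (NCP.phi A) 0 v
  have h1 := Monoid.PushoutI.of_apply_eq_base (NCP.phi A) 1 v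
  exact h0.trans h1.symm

/-- universal property (`Monoid.PushoutI.lift`) -/
theorem exists_lift_GM {H : Type} [Group H]
    (r : Fin 2 → (FreeGroup (Fin 2) × Multiplicative ℤ →* H))
    (h : ∀ v, r 0 (NCP.peri v) = r 1 (NCP.peri (NCP.gluing A v))) :
    ∃ ρ : NCP.GMGroup A →* H, ∀ i x, ρ (inc A i x) = r i x := by
  refine ⟨Monoid.PushoutI.lift r ((r 0).comp NCP.peri) ?_, fun i x => ?_⟩
  · intro i
    fin_cases i
    · rfl
    · ext v
      exact (h v).symm
  · exact Monoid.PushoutI.lift_of r _ _ x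

/-- generators (`Monoid.PushoutI.induction_on`; `FreeGroup (Fin 2)` is generated by `of 0`, `of 1`,
`Multiplicative ℤ` by `ofAdd 1`) -/
theorem gen_GM (H : Subgroup (NCP.GMGroup A)) (h1 : ∀ i, inc A i (wd 1 0, 1) ∈ H)
    (h2 : ∀ i, inc A i (wd 0 1, 1) ∈ H) (h3 : ∀ i, inc A i (1, Multiplicative.ofAdd 1) ∈ H) :
    H = ⊤ := by
  have hw : ∀ (i : Fin 2) (w : FreeGroup (Fin 2)), inc A i (w, 1) ∈ H := by
    intro i w
    induction w using FreeGroup.induction_on with
    | C1 => exact (map_one (inc A i)) ▸ H.one_mem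
    | of j =>
      fin_cases j
      · have := h1 i
        simpa [wd] using this
      · have := h2 i
        simpa [wd] using this
    | inv_of j hj =>
      have h4 := H.inv_mem hj
      rw [← map_inv] at h4
      simpa using h4
    | mul x y hx hy =>
      have h4 := H.mul_mem hx hy
      rw [← map_mul] at h4
      simpa using h4
  have hz : ∀ (i : Fin 2) (n : Multiplicative ℤ), inc A i (1, n) ∈ H := by
    intro i n
    have h4 := H.zpow_mem (h3 i) (Multiplicative.toAdd n)
    rw [← map_zpow] at h4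
    have h5 : ((1 : FreeGroup (Fin 2)), Multiplicative.ofAdd (1 : ℤ)) ^ (Multiplicative.toAdd n) =
        (1, n) := by
      refine Prod.ext (by simp) ?_
      rw [Prod.pow_snd, ← ofAdd_zsmul]
      simp
    rwa [h5] at h4
  have hof : ∀ (i : Fin 2) (x : FreeGroup (Fin 2) × Multiplicative ℤ), inc A i x ∈ H := by
    rintro i ⟨w, n⟩
    have h4 := H.mul_mem (hw i w) (hz i n)
    rw [← map_mul] at h4
    simpa using h4
  rw [eq_top_iff]
  intro x _
  induction x using Monoid.PushoutI.induction_on with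
  | of i g => exact hof i g
  | base v =>
    rw [← Monoid.PushoutI.of_apply_eq_base (NCP.phi A) 0 v]
    exact hof 0 _
  | mul x y hx hy => exact H.mul_mem (hx trivial) (hy trivial)

end Pool.Agent.NCT
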