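import Pool.Agent.NCT.GrpU
import Pool.Agent.NCT.GrpGM

/-! # NCT: words and groups (collects `GrpU` and `GrpGM`) -/
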