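import Pool.Agent.NCT.WDef
import Pool.Agent.NCT.GrpLem
import Pool.Agent.NCT.TileGeo
import Pool.Agent.NCT.CovGeo

/-! # NCT: the cocycle on pairs of collar points -/

set_option autoImplicit false

open Set Filter Topology

namespace Pool.Agent.NCT

open Pool.Agent.NCQ

variable {A : Matrix.SpecialLinearGroup (Fin 2) ℤ} {y y' y'' : ↥collar} {g g' : NCP.GMGroup A}

/-- `exact_polar_add_int`, `qm_add_lat` -/
theorem QQ_proj (h : QQ A y y' g) : qm A 0 (polar y.1) = qm A 0 (polar y'.1) := by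
  obtain ⟨v, hv, -⟩ := h
  rw [hv]
  unfold addv
  rw [exact_polar_add_int]
  exact qm_add_lat 0 (polar_mem y'.2.1 y'.2.2) 0 0 (v 1)

private theorem QQ_ex' (h : qm A 0 (polar y.1) = qm A 0 (polar y'.1)) :
    ∃ v : Fin 2 → ℤ, y.1 = addv y'.1 v := by
  rw [qm_eq (polar_mem y.2.1 y.2.2), qm_eq (polar_mem y'.2.1 y'.2.2)] at h
  obtain ⟨m, n, k, hmn⟩ := mk_eq_same h.symm
  obtain ⟨-, -, j, hj⟩ := polar_inj y'.2.1 y'.2.2 y.2.1 y.2.2 hmn
  exact ⟨![j, k], hj⟩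

/-- `mk_eq_same` (with `qm_eq`, `polar_mem`), then `polar_inj` -/
theorem QQ_ex (h : qm A 0 (polar y.1) = qm A 0 (polar y'.1)) : ∃ g, QQ A y y' g := by
  obtain ⟨v, hv⟩ := QQ_ex' h
  exact ⟨_, v, hv, rfl⟩

theorem QQ_uniq (h : QQ A y y' g) (h' : QQ A y y' g') : g = g' := by
  obtain ⟨v, hv, hg⟩ := h
  obtain ⟨v', hv', hg'⟩ := h'
  have e : addv y'.1 v = addv y'.1 v' := hv.symm.trans hv'
  have e1 : y'.1.2.1 + (v 0 : ℝ) = y'.1.2.1 + (v' 0 : ℝ) :=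
    congrArg (fun z : ℝ × ℝ × ℝ => z.2.1) e
  have e2 : y'.1.2.2 + (v 1 : ℝ) = y'.1.2.2 + (v' 1 : ℝ) :=
    congrArg (fun z : ℝ × ℝ × ℝ => z.2.2) e
  have f1 : v 0 = v' 0 := by exact_mod_cast add_left_cancel e1
  have f2 : v 1 = v' 1 := by exact_mod_cast add_left_cancel e2
  have hvv : v = v' := by
    funext i
    fin_cases i
    · exact f1
    · exact f2
  rw [hg, hg', hvv]

theorem QQ_trans (h : QQ A y y' g) (h' : QQ A y' y'' g') : QQ A y y'' (g * g') := by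
  obtain ⟨v, hv, hg⟩ := h
  obtain ⟨v', hv', hg'⟩ := h'
  refine ⟨v + v', ?_, ?_⟩
  · rw [hv, hv']
    unfold addv
    simp only [Pi.add_apply, Int.cast_add]
    refine Prod.ext rfl (Prod.ext ?_ ?_)
    · show y''.1.2.1 + (v' 0 : ℝ) + (v 0 : ℝ) = y''.1.2.1 + ((v 0 : ℝ) + (v' 0 : ℝ))
      ring
    · show y''.1.2.2 + (v' 1 : ℝ) + (v 1 : ℝ) = y''.1.2.2 + ((v 1 : ℝ) + (v' 1 : ℝ))
      ring
  · rw [hg, hg', ofAdd_add, map_mul, map_mul]

/-- `QQ_ex` near `(y, y')`: the integer vector `u.1 - u.2` is close to `y - y'`, so it is the same -/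
theorem QQ_loc (h : QQ A y y' g) :
    ∀ᶠ u : ↥collar × ↥collar in 𝓝 (y, y'),
      qm A 0 (polar u.1.1) = qm A 0 (polar u.2.1) → QQ A u.1 u.2 g := by
  obtain ⟨v, hv, hg⟩ := h
  have hy1 : y.1.2.1 - y'.1.2.1 = (v 0 : ℝ) := by
    rw [hv]
    show y'.1.2.1 + (v 0 : ℝ) - y'.1.2.1 = (v 0 : ℝ)
    ring
  have hy2 : y.1.2.2 - y'.1.2.2 = (v 1 : ℝ) := by
    rw [hv]
    show y'.1.2.2 + (v 1 : ℝ) - y'.1.2.2 = (v 1 : ℝ)
    ring
  have hc1 : Continuous fun u : ↥collar × ↥collar => u.1.1.2.1 - u.2.1.2.1 := by fun_prop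
  have hc2 : Continuous fun u : ↥collar × ↥collar => u.1.1.2.2 - u.2.1.2.2 := by fun_prop
  have h1 : ∀ᶠ u : ↥collar × ↥collar in 𝓝 (y, y'),
      |(u.1.1.2.1 - u.2.1.2.1) - (v 0 : ℝ)| < 1 := by
    have ht := hc1.tendsto (y, y')
    have h2 := (Metric.tendsto_nhds.1 ht) 1 one_pos
    filter_upwards [h2] with u hu
    rw [Real.dist_eq] at hu
    rwa [hy1] at hu
  have h2 : ∀ᶠ u : ↥collar × ↥collar in 𝓝 (y, y'),
      |(u.1.1.2.2 - u.2.1.2.2) - (v 1 : ℝ)| < 1 := by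
    have ht := hc2.tendsto (y, y')
    have h2 := (Metric.tendsto_nhds.1 ht) 1 one_pos
    filter_upwards [h2] with u hu
    rw [Real.dist_eq] at hu
    rwa [hy2] at hu
  filter_upwards [h1, h2] with u hu1 hu2 hq
  obtain ⟨w, hw⟩ := QQ_ex' hq
  have k1 : u.1.1.2.1 - u.2.1.2.1 = (w 0 : ℝ) := by
    rw [hw]
    show u.2.1.2.1 + (w 0 : ℝ) - u.2.1.2.1 = (w 0 : ℝ)
    ring
  have k2 : u.1.1.2.2 - u.2.1.2.2 = (w 1 : ℝ) := by
    rw [hw]
    show u.2.1.2.2 + (w 1 : ℝ) - u.2.1.2.2 = (w 1 : ℝ)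
    ring
  rw [k1] at hu1
  rw [k2] at hu2
  have f1 : w 0 = v 0 := by
    have : |w 0 - v 0| < 1 := by exact_mod_cast hu1
    have := Int.abs_lt_one_iff.1 this
    omega
  have f2 : w 1 = v 1 := by
    have : |w 1 - v 1| < 1 := by exact_mod_cast hu2
    have := Int.abs_lt_one_iff.1 this
    omega
  have hwv : w = v := by
    funext i
    fin_cases i
    · exact f1
    · exact f2
  exact ⟨v, by rw [← hwv]; exact hw, hg⟩

end Pool.Agent.NCT
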