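import Pool.Agent.NCT.SectTile
import Pool.Agent.NCT.SectElem

/-! # NCT: sectors (collects `SectTile` and `SectElem`) -/
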