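import Pool.Agent.NCT.WDef
import Pool.Agent.NCT.GrpLem
import Pool.Agent.NCT.TileGeo
import Pool.Agent.NCT.SectGeo
import Pool.Agent.NCT.CovGeo

/-! # NCT: the cocycle on pairs (collar, tile) -/

set_option autoImplicit false

open Set Filter Topology

namespace Pool.Agent.NCT

open Pool.Agent.NCQ

variable {A : Matrix.SpecialLinearGroup (Fin 2) ℤ} {y : ↥collar}
  {z : Fin 2 × ↥(tile (13 / 16))} {g g' : NCP.GMGroup A}

private theorem cpt_eq {n k : ℤ} {w : ℝ × ℝ × ℝ} {x : ℂ × ℝ} (h : cpt n w = x + lat 0 0 k) :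
    x - polar w = lat (corner n).1 (corner n).2 (-k) := by
  have h1 : x = cpt n w - lat 0 0 k := eq_sub_of_add_eq h.symm
  have h2 : lat (corner n).1 (corner n).2 0 - lat 0 0 k = lat (corner n).1 (corner n).2 (-k) := by
    rw [sub_eq_add_neg, lat_neg, lat_add]
    simp
  rw [h1, cpt, ← h2]
  abel

private theorem tile_piece {x : ℂ × ℝ} (hx : x ∈ tile (13 / 16)) : x ∈ piece :=
  tile_subset_piece (by norm_num) hx

/-- `qm_sd`, `qm_cpt`, `qm_add_lat` -/
theorem QT_proj (h : QT A y z g) : qm A 0 (polar y.1) = qm A z.1 z.2.1 := by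
  obtain ⟨n, k, -, hc, -⟩ := h
  rw [← qm_sd z.1 y.2, ← qm_cpt z.1 (sd_collar y.2) n, hc,
    qm_add_lat z.1 (tile_piece z.2.2)]

/-- By `qm_sd`, `qm A z.1 (polar (sd A z.1 y)) = qm A z.1 z.2`, so
`z.2 = polar (sd A z.1 y) + lat m n k` by `mk_eq_same`; `exists_sector` gives the sector `j` with
`corner j = (m, n)`; use `j` and `- k`. -/
theorem QT_ex (h : qm A 0 (polar y.1) = qm A z.1 z.2.1) : ∃ g, QT A y z g := by
  have hs : sd A z.1 y.1 ∈ collar := sd_collar y.2
  have hp : polar (sd A z.1 y.1) ∈ piece := polar_mem hs.1 hs.2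
  rw [← qm_sd z.1 y.2, qm_eq hp, qm_eq (tile_piece z.2.2)] at h
  obtain ⟨m, n, k, h1⟩ := mk_eq_same h
  have h2 : z.2.1 = polar (sd A z.1 y.1) + lat m n k := h1
  obtain ⟨j, hj, hc⟩ := exists_sector (m := m) (n := n) (k := k) hs
    (h2 ▸ tile_mono (by norm_num) z.2.2)
  refine ⟨_, j, -k, hj, ?_, rfl⟩
  rw [cpt, hc, h2, add_assoc, lat_add]
  simp

/-- `lat_inj` gives the same corner and the same `k`; `inS_near` and `corner_inj` the same `n`. -/
theorem QT_uniq (h : QT A y z g) (h' : QT A y z g') : g = g' := by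
  obtain ⟨n, k, hn, hc, rfl⟩ := h
  obtain ⟨n', k', hn', hc', rfl⟩ := h'
  obtain ⟨h1, h2, h3⟩ := lat_inj ((cpt_eq hc).symm.trans (cpt_eq hc'))
  obtain rfl := corner_inj (inS_near hn hn') (Prod.ext h1 h2)
  obtain rfl := neg_injective h3
  rfl

/-- For `(y', z')` near `(y, z)` with the same image: `z'.1 = z.1`, `inS n (sd A z.1 y').2.1` still
holds (`isOpen_inS`, `continuous_sd`), and `QT_ex` gives `n', k'` with
`lat (corner n') - lat 0 0 k' = z'.2 - polar (sd A z.1 y')` close to `z.2 - polar (sd A z.1 y) =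
lat (corner n) - lat 0 0 k`, so equal by `lat_near`, so `k' = k`, `corner n' = corner n`, and
`n' = n` by `inS_near`, `corner_inj`. -/
theorem QT_loc (h : QT A y z g) :
    ∀ᶠ u : ↥collar × (Fin 2 × ↥(tile (13 / 16))) in 𝓝 (y, z),
      qm A 0 (polar u.1.1) = qm A u.2.1 u.2.2.1 → QT A u.1 u.2 g := by
  obtain ⟨n, k, hn, hc, rfl⟩ := h
  have hcont : Continuous (fun u : ↥collar × (Fin 2 × ↥(tile (13 / 16))) =>
      sd A z.1 u.1.1) := (continuous_sd z.1).comp (continuous_subtype_val.comp continuous_fst)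
  have e1 : ∀ᶠ u : ↥collar × (Fin 2 × ↥(tile (13 / 16))) in 𝓝 (y, z), u.2.1 = z.1 := by
    have h1 : Continuous (fun u : ↥collar × (Fin 2 × ↥(tile (13 / 16))) => u.2.1) :=
      continuous_fst.comp continuous_snd
    exact ((isOpen_discrete {z.1}).preimage h1).mem_nhds rfl
  have e2 : ∀ᶠ u : ↥collar × (Fin 2 × ↥(tile (13 / 16))) in 𝓝 (y, z),
      inS n (sd A z.1 u.1.1).2.1 := ((isOpen_inS n).preimage hcont).mem_nhds hn
  have e3 : ∀ᶠ u : ↥collar × (Fin 2 × ↥(tile (13 / 16))) in 𝓝 (y, z),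
      ‖(u.2.2.1 - polar (sd A z.1 u.1.1)) - (z.2.1 - polar (sd A z.1 y.1))‖ < 1 := by
    have h1 : Continuous (fun u : ↥collar × (Fin 2 × ↥(tile (13 / 16))) =>
        ‖(u.2.2.1 - polar (sd A z.1 u.1.1)) - (z.2.1 - polar (sd A z.1 y.1))‖) := by
      refine Continuous.norm (Continuous.sub (Continuous.sub ?_ ?_) continuous_const)
      · exact continuous_subtype_val.comp (continuous_snd.comp continuous_snd)
      · exact contDiff_polar.continuous.comp hcont
    refine ((isOpen_Iio (a := (1 : ℝ))).preimage h1).mem_nhds ?_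
    rw [mem_preimage, mem_Iio, sub_self, norm_zero]
    exact one_pos
  filter_upwards [e1, e2, e3] with u h1 h2 h3 hq
  obtain ⟨y', i, x'⟩ := u
  obtain rfl : i = z.1 := h1
  obtain ⟨g, n', k', hn', hc', -⟩ := QT_ex hq
  simp only at h2 h3 hn' hc'
  rw [cpt_eq hc', cpt_eq hc] at h3
  obtain ⟨h4, h5, h6⟩ := lat_near h3
  obtain rfl := corner_inj (inS_near hn' h2) (Prod.ext h4 h5)
  obtain rfl := neg_injective h6
  exact ⟨n', k', hn', hc', rfl⟩

end Pool.Agent.NCT
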