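import Pool.Agent.NCT.WTT
import Pool.Agent.NCT.WQT
import Pool.Agent.NCT.WQQ

/-! # NCT: the cocycle of `W`: projection, existence, uniqueness

Four cases each (`TT_*`, `QT_*`, `QQ_*`; for (tile, collar) the same statement with the inverse). -/

set_option autoImplicit false

open Set Filter Topology

namespace Pool.Agent.NCT

open Pool.Agent.NCQ

variable {A : Matrix.SpecialLinearGroup (Fin 2) ℤ}

theorem RW_proj {w w' : W} {g : NCP.GMGroup A} (h : RW A w w' g) : qW A w = qW A w' := by
  rcases w with z | y <;> rcases w' with z' | y'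
  · exact TT_proj h
  · exact (QT_proj h).symm
  · exact QT_proj h
  · exact QQ_proj h

theorem RW_ex {w w' : W} (h : qW A w = qW A w') : ∃ g, RW A w w' g := by
  rcases w with z | y <;> rcases w' with z' | y'
  · exact TT_ex h
  · have h1 : qm A 0 (polar y'.1) = qm A z.1 z.2.1 := h.symm
    obtain ⟨g, hg⟩ := QT_ex h1
    refine ⟨g⁻¹, ?_⟩
    show QT A y' z g⁻¹⁻¹
    rwa [inv_inv]
  · exact QT_ex h
  · exact QQ_ex h

theorem RW_uniq {w w' : W} {g g' : NCP.GMGroup A} (h : RW A w w' g) (h' : RW A w w' g') :
    g = g' := by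
  rcases w with z | y <;> rcases w' with z' | y'
  · exact TT_uniq h h'
  · exact inv_injective (QT_uniq h h')
  · exact QT_uniq h h'
  · exact QQ_uniq h h'

end Pool.Agent.NCT
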