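import Pool.Agent.NCT.WTT
import Pool.Agent.NCT.WQT
import Pool.Agent.NCT.WQQ

/-! # NCT: the cocycle of `W` is locally constant

Four cases: `TT_loc`, `QT_loc`, `QQ_loc`; for (tile, collar) `QT_loc` under `Prod.swap`. `W` is a
disjoint union: `𝓝 (Sum.inl z)` is the image of `𝓝 z` (`nhds_inl`, `nhds_inr`, `nhds_prod_eq`,
`Filter.prod_map_map_eq`, `Filter.eventually_map`). -/

set_option autoImplicit false

open Set Filter Topology

namespace Pool.Agent.NCT

open Pool.Agent.NCQ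

variable {A : Matrix.SpecialLinearGroup (Fin 2) ℤ}

private theorem ev_map {X Y : Type} [TopologicalSpace X] [TopologicalSpace Y] {f : X → W}
    {f' : Y → W} {x : X} {y : Y} (hf : 𝓝 (f x) = map f (𝓝 x)) (hf' : 𝓝 (f' y) = map f' (𝓝 y))
    {P : W × W → Prop} (h : ∀ᶠ u : X × Y in 𝓝 (x, y), P (f u.1, f' u.2)) :
    ∀ᶠ z : W × W in 𝓝 (f x, f' y), P z := by
  rw [nhds_prod_eq, hf, hf', Filter.prod_map_map_eq, Filter.eventually_map, ← nhds_prod_eq]
  exact h

theorem RW_loc {w w' : W} {g : NCP.GMGroup A} (h : RW A w w' g) :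
    ∀ᶠ z : W × W in 𝓝 (w, w'), qW A z.1 = qW A z.2 → RW A z.1 z.2 g := by
  rcases w with z | y <;> rcases w' with z' | y'
  · exact ev_map (f := Sum.inl) (f' := Sum.inl) (nhds_inl _) (nhds_inl _)
      (P := fun u : W × W => qW A u.1 = qW A u.2 → RW A u.1 u.2 g) (TT_loc h)
  · have h1 := QT_loc (A := A) (y := y') (z := z) (g := g⁻¹) h
    have h2 : ∀ᶠ u : (Fin 2 × ↥(tile (13 / 16))) × ↥collar in 𝓝 (z, y'),
        qm A 0 (polar u.2.1) = qm A u.1.1 u.1.2.1 → QT A u.2 u.1 g⁻¹ :=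
      (continuous_swap.tendsto (z, y')).eventually h1
    exact ev_map (f := Sum.inl) (f' := Sum.inr) (nhds_inl _) (nhds_inr _)
      (P := fun u : W × W => qW A u.1 = qW A u.2 → RW A u.1 u.2 g)
      (h2.mono fun u hu he => hu he.symm)
  · exact ev_map (f := Sum.inr) (f' := Sum.inl) (nhds_inr _) (nhds_inl _)
      (P := fun u : W × W => qW A u.1 = qW A u.2 → RW A u.1 u.2 g) (QT_loc h)
  · exact ev_map (f := Sum.inr) (f' := Sum.inr) (nhds_inr _) (nhds_inr _)
      (P := fun u : W × W => qW A u.1 = qW A u.2 → RW A u.1 u.2 g) (QQ_loc h)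

end Pool.Agent.NCT
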