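import Pool.Agent.NCT.WDef
import Pool.Agent.NCT.GrpLem
import Pool.Agent.NCT.TileGeo
import Pool.Agent.NCT.SectGeo
import Pool.Agent.NCT.CovGeo

/-! # NCT: the cocycle condition for mixed triples -/

set_option autoImplicit false

open Set Filter Topology

namespace Pool.Agent.NCT

open Pool.Agent.NCQ

variable {A : Matrix.SpecialLinearGroup (Fin 2) ℤ} {y y' : ↥collar}
  {z z' : Fin 2 × ↥(tile (13 / 16))} {g g' : NCP.GMGroup A}

/-- Let `cpt n Y = z.2 + lat 0 0 k` with `Y = sd A z.1 y`, `inS n Y.2.1`, and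
`z.2 = z'.2 + lat m m' l`. Then `polar Y + lat a b (- k - l) = z'.2 ∈ tile 1` with
`(a, b) = corner n - (m, m')`, so `exists_sector` gives `n'` with `inS n' Y.2.1` and
`corner n' = (a, b)`, hence `cpt n' Y = z'.2 + lat 0 0 (k + l)`, and `|n - n'| ≤ 1` by `inS_near`,
`(m, m') = corner n - corner n'`, `U n' = U n * wd m m'` by `U_wd`. -/
theorem QTT (h : QT A y z g) (h' : TT A z z' g') : QT A y z' (g * g') := by
  obtain ⟨n, k, hin, hcpt, rfl⟩ := h
  obtain ⟨hi, m, m', l, e, rfl⟩ := h'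
  obtain ⟨i, x⟩ := z
  obtain ⟨i', x'⟩ := z'
  obtain rfl : i = i' := hi
  simp only at hin hcpt e ⊢
  have hY : sd A i y.1 ∈ collar := sd_collar y.2
  have e1 : polar (sd A i y.1) + lat ((corner n).1 - m) ((corner n).2 - m') (-l - k) = x'.1 := by
    have e2 : polar (sd A i y.1) + lat (corner n).1 (corner n).2 0 =
        x'.1 + lat m m' l + lat 0 0 k := by
      rw [← e]
      exact hcpt
    have e3 : lat ((corner n).1 - m) ((corner n).2 - m') (-l - k) =
        lat (corner n).1 (corner n).2 0 + (-lat m m' l + -lat 0 0 k) := by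
      rw [lat_neg, lat_neg, lat_add, lat_add]
      congr 1 <;> ring
    rw [e3, ← add_assoc, e2]
    abel
  have hx' : polar (sd A i y.1) + lat ((corner n).1 - m) ((corner n).2 - m') (-l - k) ∈ tile 1 := by
    rw [e1]
    exact tile_mono (by norm_num) x'.2
  obtain ⟨n', hin', hc'⟩ := exists_sector hY hx'
  refine ⟨n', k + l, hin', ?_, ?_⟩
  · unfold cpt
    rw [hc', ← e1, add_assoc, lat_add]
    congr 2 <;> ring
  · have hw := U_wd (inS_near hin hin')
    rw [hc'] at hw
    have e4 : (corner n).1 - ((corner n).1 - m) = m := by ring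
    have e5 : (corner n).2 - ((corner n).2 - m') = m' := by ring
    simp only [e4, e5] at hw
    rw [← map_mul, Prod.mk_mul_mk, ← hw, ← ofAdd_add]

/-- Let `y = addv y' v`, `Y' = sd A i y'`, `Y = sd A i y = addv Y' V` with `V = v` (`i = 0`) or
`V = A v` (`i = 1`) (`sd_addv`), `inS n Y'.2.1`, `cpt n Y' = z.2 + lat 0 0 k`. Then
`inS (n + 4 V₀) Y.2.1` (`inS_add`) and `cpt (n + 4 V₀) Y = cpt n Y' + lat 0 0 V₁ =
z.2 + lat 0 0 (k + V₁)` (`cpt_addv`); and `inc A 0 (peri v) = inc A i (peri V)` (`inc_peri`), so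
`g * g' = inc A i ((bdry ^ V₀, V₁) * (U n, k)) = inc A i (U (n + 4 V₀), k + V₁)` (`U_add`). -/
theorem QQT (h : QQ A y y' g) (h' : QT A y' z g') : QT A y z (g * g') := by
  obtain ⟨v, e, rfl⟩ := h
  obtain ⟨n, k, hin, hcpt, rfl⟩ := h'
  obtain ⟨i, x⟩ := z
  simp only at hin hcpt ⊢
  obtain ⟨V, hV⟩ : ∃ V : Fin 2 → ℤ, V = if i = 0 then v else A.1.mulVec v := ⟨_, rfl⟩
  have hsd : sd A i y.1 = addv (sd A i y'.1) V := by
    rw [e, sd_addv, hV]
  have hVv : V = ![V 0, V 1] := by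
    funext j
    fin_cases j <;> rfl
  have hper : inc A 0 (NCP.peri (Multiplicative.ofAdd v)) =
      inc A i (NCP.peri (Multiplicative.ofAdd V)) := by
    by_cases hi : i = 0
    · subst hi
      rw [hV, if_pos rfl]
    · have hi1 : i = 1 := by omega
      subst hi1
      rw [inc_peri, hV, if_neg (by decide)]
      rfl
  refine ⟨n + 4 * V 0, k + V 1, ?_, ?_, ?_⟩
  · rw [hsd]
    exact inS_add.2 hin
  · rw [hsd]
    have h1 := cpt_addv n (V 0) (V 1) (sd A i y'.1)
    rw [← hVv] at h1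
    rw [h1, hcpt, add_assoc, lat_add]
    congr 2
  · rw [hper, ← map_mul, U_add]
    congr 1
    refine Prod.ext ?_ ?_
    · rfl
    · show Multiplicative.ofAdd (V 1) * Multiplicative.ofAdd k = Multiplicative.ofAdd (k + V 1)
      rw [← ofAdd_add, add_comm]

end Pool.Agent.NCT
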