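import Pool.Agent.NCT.WCocA
import Pool.Agent.NCT.WMix

/-! # NCT: the cocycle condition of `W`

For (tile, tile, tile) `TT_trans`, (collar, tile, tile) `QTT`, (collar, collar, tile) `QQT`,
(collar, collar, collar) `QQ_trans`. The other four: (tile, tile, collar) and (tile, collar, collar)
from these by taking inverses (symmetry `TT A z z' g → TT A z' z g⁻¹`, `QQ A y y' g → QQ A y' y g⁻¹`,
which follow from existence, `trans`, uniqueness as in `Cocycle.symm`); (tile, collar, tile):
`QT y z g⁻¹`, `QT y z' g'`; take `TT z z' h` (`TT_ex`), then `QT y z' (g⁻¹ * h)` (`QTT`), so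
`g⁻¹ * h = g'` (`QT_uniq`); (collar, tile, collar): `QT y z g`, `QT y' z g'⁻¹`; take `QQ y y' h`
(`QQ_ex`), then `QT y z (h * g'⁻¹)` (`QQT`), so `h * g'⁻¹ = g`. -/

set_option autoImplicit false

open Set Filter Topology

namespace Pool.Agent.NCT

open Pool.Agent.NCQ

variable {A : Matrix.SpecialLinearGroup (Fin 2) ℤ}

private theorem TT_symm {z z' : Fin 2 × ↥(tile (13 / 16))} {g : NCP.GMGroup A}
    (h : TT A z z' g) : TT A z' z g⁻¹ := by
  obtain ⟨k, hk⟩ := TT_ex (TT_proj h).symm
  have h1 := TT_trans h hk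
  have h2 : g * k = g * k * (g * k) := TT_uniq h1 (TT_trans h1 h1)
  have h3 : g * k = 1 := by
    have := mul_left_cancel (a := g * k) (b := 1) (c := g * k) (by rw [mul_one]; exact h2)
    exact this.symm
  rw [← eq_inv_of_mul_eq_one_right h3]
  exact hk

private theorem QQ_symm {y y' : ↥collar} {g : NCP.GMGroup A} (h : QQ A y y' g) :
    QQ A y' y g⁻¹ := by
  obtain ⟨k, hk⟩ := QQ_ex (QQ_proj h).symm
  have h1 := QQ_trans h hk
  have h2 : g * k = g * k * (g * k) := QQ_uniq h1 (QQ_trans h1 h1)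
  have h3 : g * k = 1 := by
    have := mul_left_cancel (a := g * k) (b := 1) (c := g * k) (by rw [mul_one]; exact h2)
    exact this.symm
  rw [← eq_inv_of_mul_eq_one_right h3]
  exact hk

theorem RW_trans {w w' w'' : W} {g g' : NCP.GMGroup A} (h : RW A w w' g) (h' : RW A w' w'' g') :
    RW A w w'' (g * g') := by
  rcases w with z | y <;> rcases w' with z' | y' <;> rcases w'' with z'' | y''
  · exact TT_trans h h'
  · have h1 : TT A z z' g := h
    have h2 : QT A y'' z' g'⁻¹ := h'
    show QT A y'' z (g * g')⁻¹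
    rw [mul_inv_rev]
    exact QTT h2 (TT_symm h1)
  · have h1 : QT A y' z g⁻¹ := h
    have h2 : QT A y' z'' g' := h'
    show TT A z z'' (g * g')
    obtain ⟨k, hk⟩ := TT_ex (A := A) (z := z) (z' := z'') ((QT_proj h1).symm.trans (QT_proj h2))
    have h3 : g⁻¹ * k = g' := QT_uniq (QTT h1 hk) h2
    have h4 : k = g * g' := by rw [← h3, mul_inv_cancel_left]
    rw [← h4]
    exact hk
  · have h1 : QT A y' z g⁻¹ := h
    have h2 : QQ A y' y'' g' := h'
    show QT A y'' z (g * g')⁻¹
    rw [mul_inv_rev]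
    exact QQT (QQ_symm h2) h1
  · have h1 : QT A y z' g := h
    have h2 : TT A z' z'' g' := h'
    exact QTT h1 h2
  · have h1 : QT A y z' g := h
    have h2 : QT A y'' z' g'⁻¹ := h'
    show QQ A y y'' (g * g')
    obtain ⟨k, hk⟩ := QQ_ex (A := A) (y := y) (y' := y'') ((QT_proj h1).trans (QT_proj h2).symm)
    have h3 : k * g'⁻¹ = g := QT_uniq (QQT hk h2) h1
    have h4 : k = g * g' := by rw [← h3, inv_mul_cancel_right]
    rw [← h4]
    exact hk
  · have h1 : QQ A y y' g := h
    have h2 : QT A y' z'' g' := h'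
    exact QQT h1 h2
  · exact QQ_trans h h'

end Pool.Agent.NCT
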