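import Pool.Agent.NCT.CocDef
import Pool.Agent.NCT.WCocA
import Pool.Agent.NCT.WCocT
import Pool.Agent.NCT.WCocL

/-! # NCT: the cocycle of `W` -/

set_option autoImplicit false

open Set Filter Topology

namespace Pool.Agent.NCT

open Pool.Agent.NCQ

/-- the cocycle of `W` -/
def cocW (A : Matrix.SpecialLinearGroup (Fin 2) ℤ) : Cocycle (NCP.GMGroup A) (qW A) where
  R := RW A
  proj := RW_proj
  ex := RW_ex
  uniq := RW_uniq
  trans := RW_trans
  loc := RW_loc

end Pool.Agent.NCT
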