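import Pool.Agent.NCT.WDef
import Pool.Agent.NCT.GrpLem
import Pool.Agent.NCT.TileGeo
import Pool.Agent.NCT.SectGeo
import Pool.Agent.NCT.CovGeo

/-! # NCT: connectedness of `W` through pairs with trivial cocycle, and generation -/

set_option autoImplicit false

open Set Filter Topology

namespace Pool.Agent.NCT

open Pool.Agent.NCQ

variable {A : Matrix.SpecialLinearGroup (Fin 2) ℤ}

private theorem wconn_corner_zero : corner 0 = (1, 1) := rfl

private theorem wconn_cpt_mem : cpt 0 ((3 / 16 : ℝ), (5 / 8 : ℝ), (0 : ℝ)) ∈ tile (13 / 16) := by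
  have hc : Real.cos (2 * Real.pi * (5 / 8)) = -(√2 / 2) := by
    rw [show 2 * Real.pi * (5 / 8) = Real.pi / 4 + Real.pi by ring, Real.cos_add_pi,
      Real.cos_pi_div_four]
  have hs : Real.sin (2 * Real.pi * (5 / 8)) = -(√2 / 2) := by
    rw [show 2 * Real.pi * (5 / 8) = Real.pi / 4 + Real.pi by ring, Real.sin_add_pi,
      Real.sin_pi_div_four]
  have e : (2 * (Real.pi : ℂ) * (((5 / 8 : ℝ)) : ℂ) * Complex.I) =
      ((2 * Real.pi * (5 / 8) : ℝ) : ℂ) * Complex.I := by push_cast; ring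
  have h1 : (cpt 0 ((3 / 16 : ℝ), (5 / 8 : ℝ), (0 : ℝ))).1 =
      ((3 / 16 : ℝ) : ℂ) * Complex.exp (((2 * Real.pi * (5 / 8) : ℝ) : ℂ) * Complex.I) +
        (((1 : ℤ) : ℂ) + ((1 : ℤ) : ℂ) * Complex.I) := by
    rw [← e]
    rfl
  have h2 : (cpt 0 ((3 / 16 : ℝ), (5 / 8 : ℝ), (0 : ℝ))).1.re = -(3 / 16 * (√2 / 2)) + 1 := by
    rw [h1, Complex.add_re, Complex.re_ofReal_mul, Complex.exp_ofReal_mul_I_re, hc]
    simp
  have h3 : (cpt 0 ((3 / 16 : ℝ), (5 / 8 : ℝ), (0 : ℝ))).1.im = -(3 / 16 * (√2 / 2)) + 1 := by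
    rw [h1, Complex.add_im, Complex.im_ofReal_mul, Complex.exp_ofReal_mul_I_im, hs]
    simp
  show |_ - 1 / 2| + |_ - 1 / 2| < (13 / 16 : ℝ)
  rw [h2, h3]
  have h4 : (1 : ℝ) < √2 := by
    rw [show (1 : ℝ) = √1 by simp]
    exact Real.sqrt_lt_sqrt (by norm_num) (by norm_num)
  have h5 : √2 < 2 := by
    rw [show (2 : ℝ) = √4 by rw [show (4 : ℝ) = 2 ^ 2 by norm_num, Real.sqrt_sq (by norm_num)]]
    exact Real.sqrt_lt_sqrt (by norm_num) (by norm_num)
  rw [abs_of_pos (by linarith)]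
  linarith

/-- The point `y₁ = (3/16, 5/8, 0)` of the collar: `cpt 0 y₁` has `l¹`-distance
`1 - √2 * 3/16 < 13/16` from the centre (`cos (2π * 5/8) = sin (2π * 5/8) = - √2/2`). -/
theorem exists_link (i : Fin 2) : ∃ (y : ↥collar) (x : ↥(tile (13 / 16))),
    QT A y (i, x) 1 := by
  have hy : ((3 / 16 : ℝ), (5 / 8 : ℝ), (0 : ℝ)) ∈ collar := by
    constructor <;> norm_num
  refine ⟨⟨sdInv A i ((3 / 16 : ℝ), (5 / 8 : ℝ), (0 : ℝ)), sdInv_collar hy⟩,
    ⟨cpt 0 ((3 / 16 : ℝ), (5 / 8 : ℝ), (0 : ℝ)), wconn_cpt_mem⟩, 0, 0, ?_, ?_, ?_⟩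
  · show inS 0 (sd A i (sdInv A i _)).2.1
    rw [sd_sdInv]
    unfold inS
    constructor <;> norm_num
  · show cpt 0 (sd A i (sdInv A i _)) = _
    rw [sd_sdInv, lat_zero, add_zero]
  · rw [U_zero, ofAdd_zero]
    exact (map_one (inc A i)).symm

/-- The three pieces are convex, so `γ` is constant on each of them
(`IsLocallyConstant` on a preconnected space), and each tile is linked to the collar by
`exists_link`. -/
theorem conn_W {G : Type} (γ : W → G) (hγ : IsLocallyConstant γ)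
    (h : ∀ w w', RW A w w' 1 → γ w = γ w') (w w' : W) : γ w = γ w' := by
  haveI : PreconnectedSpace ↥collar :=
    isPreconnected_iff_preconnectedSpace.mp convex_collar.isPreconnected
  haveI : PreconnectedSpace ↥(tile (13 / 16)) :=
    isPreconnected_iff_preconnectedSpace.mp (convex_tile (13 / 16)).isPreconnected
  have h1 : ∀ y y' : ↥collar, γ (Sum.inr y) = γ (Sum.inr y') := by
    intro y y'
    exact (hγ.comp_continuous continuous_inr).apply_eq_of_preconnectedSpace y y'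
  have h2 : ∀ (i : Fin 2) (x x' : ↥(tile (13 / 16))),
      γ (Sum.inl (i, x)) = γ (Sum.inl (i, x')) := by
    intro i x x'
    have hc : Continuous (fun x : ↥(tile (13 / 16)) => (Sum.inl (i, x) : W)) :=
      continuous_inl.comp (Continuous.prodMk_right i)
    exact (hγ.comp_continuous hc).apply_eq_of_preconnectedSpace x x'
  have hy0 : ((3 / 16 : ℝ), (5 / 8 : ℝ), (0 : ℝ)) ∈ collar := by
    constructor <;> norm_num
  have h3 : ∀ w : W, γ w = γ (Sum.inr ⟨_, hy0⟩) := by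
    rintro (⟨i, x⟩ | y)
    · obtain ⟨y, x', hl⟩ := exists_link (A := A) i
      rw [h2 i x x', ← h (Sum.inr y) (Sum.inl (i, x')) hl]
      exact h1 _ _
    · exact h1 _ _
  rw [h3 w, h3 w']

/-- `gen_GM`: the elements `inc A i (wd m n, ofAdd k)` with `|m| + |n| ≤ 1` are values of the cocycle
(`exists_tile_lat`) -/
theorem gen_W : Subgroup.closure {g | ∃ w w', RW A w w' g} = ⊤ := by
  have key : ∀ (i : Fin 2) (m n k : ℤ), |m| + |n| ≤ 1 →
      inc A i (wd m n, Multiplicative.ofAdd k) ∈ Subgroup.closure {g | ∃ w w', RW A w w' g} := by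
    intro i m n k hmn
    obtain ⟨x, hx, hx'⟩ := exists_tile_lat k hmn
    refine Subgroup.subset_closure ⟨Sum.inl (i, ⟨x + lat m n k, hx'⟩), Sum.inl (i, ⟨x, hx⟩), ?_⟩
    exact ⟨rfl, m, n, k, rfl, rfl⟩
  apply gen_GM
  · intro i
    have h := key i 1 0 0 (by norm_num)
    rwa [ofAdd_zero] at h
  · intro i
    have h := key i 0 1 0 (by norm_num)
    rwa [ofAdd_zero] at h
  · intro i
    have h := key i 0 0 1 (by norm_num)
    have h2 : wd 0 0 = 1 := by simp [wd]
    rwa [h2] at h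

end Pool.Agent.NCT
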