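import Pool.Agent.NCT.WDef
import Pool.Agent.NCT.QuotOpen
import Pool.Agent.NCT.TileGeo
import Pool.Agent.NCT.CovGeo

/-! # NCT: `qW` is a surjective local homeomorphism -/

set_option autoImplicit false

open Set Filter Topology

namespace Pool.Agent.NCT

open Pool.Agent.NCQ

variable {A : Matrix.SpecialLinearGroup (Fin 2) ℤ}

/-- A continuous open locally injective map is a local homeomorphism (restrict to an open set where
it is injective: an open embedding; `isLocalHomeomorph_iff_isOpenEmbedding_restrict` or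
`IsLocalHomeomorph.mk` with `IsOpenEmbedding.toOpenPartialHomeomorph`). -/
theorem isLocalHomeomorph_of_locInj {Y Z : Type} [TopologicalSpace Y] [TopologicalSpace Z]
    {f : Y → Z} (hc : Continuous f) (ho : IsOpenMap f) (hi : ∀ y, ∃ V ∈ 𝓝 y, InjOn f V) :
    IsLocalHomeomorph f := by
  rw [isLocalHomeomorph_iff_isOpenEmbedding_restrict]
  intro y
  obtain ⟨V, hV, hinj⟩ := hi y
  refine ⟨interior V, interior_mem_nhds.mpr hV, ?_⟩
  refine IsOpenEmbedding.of_continuous_injective_isOpenMap
    (hc.comp continuous_subtype_val) ?_ (ho.comp isOpen_interior.isOpenMap_subtype_val)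
  intro a b hab
  exact Subtype.ext (hinj (interior_subset a.2) (interior_subset b.2) hab)

private theorem tile_piece {x : ℂ × ℝ} (hx : x ∈ tile (13 / 16)) : x ∈ piece :=
  tile_subset_piece (by norm_num) hx

private theorem continuous_qW : Continuous (qW A) := by
  refine Continuous.sumElim ?_ ?_
  · rw [continuous_prod_of_discrete_left]
    intro i
    exact (continuousOn_qm i).comp_continuous continuous_subtype_val (fun x => tile_piece x.2)
  · exact (continuousOn_qm 0).comp_continuous (contDiff_polar.continuous.comp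
      continuous_subtype_val) (fun y => polar_mem y.2.1 y.2.2)

private theorem isOpenMap_qW : IsOpenMap (qW A) := by
  refine isOpenMap_sumElim.mpr ⟨?_, ?_⟩
  · intro s hs
    have e : (fun z : Fin 2 × ↥(tile (13 / 16)) => qm A z.1 z.2.1) '' s =
        ⋃ i : Fin 2, qm A i '' (Subtype.val '' {x : ↥(tile (13 / 16)) | (i, x) ∈ s}) := by
      ext m
      simp only [mem_image, mem_iUnion, mem_ofPred_eq]
      constructor
      · rintro ⟨⟨i, x⟩, hz, rfl⟩
        exact ⟨i, x.1, ⟨x, hz, rfl⟩, rfl⟩
      · rintro ⟨i, _, ⟨x, hz, rfl⟩, rfl⟩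
        exact ⟨(i, x), hz, rfl⟩
    rw [e]
    refine isOpen_iUnion fun i => isOpen_image_qm i ?_ ?_
    · exact (isOpen_tile _).isOpenMap_subtype_val _ (hs.preimage (Continuous.prodMk_right i))
    · rintro _ ⟨x, -, rfl⟩
      exact tile_piece x.2
  · intro s hs
    have e : (fun y : ↥collar => qm A 0 (polar y.1)) '' s =
        qm A 0 '' (polar '' (Subtype.val '' s)) := by
      rw [image_image, image_image]
    rw [e]
    refine isOpen_image_qm 0 (isOpen_image_polar
      (isOpen_collar.isOpenMap_subtype_val _ hs) ?_) ?_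
    · rintro _ ⟨y, -, rfl⟩
      exact y.2.1
    · rintro _ ⟨_, ⟨y, -, rfl⟩, rfl⟩
      exact polar_mem y.2.1 y.2.2

private theorem locInj_qW (z : W) : ∃ V ∈ 𝓝 z, InjOn (qW A) V := by
  rcases z with ⟨i, x⟩ | y
  · obtain ⟨U, hU, hinj⟩ := locInj_qm (A := A) i (tile_piece x.2)
    refine ⟨Sum.inl '' ({i} ×ˢ (Subtype.val ⁻¹' U)), ?_, ?_⟩
    · rw [nhds_inl]
      refine image_mem_map ?_
      refine prod_mem_nhds ?_ (continuous_subtype_val.continuousAt hU)
      rw [nhds_discrete]
      exact Filter.mem_pure.mpr rfl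
    · rintro _ ⟨⟨j, a⟩, ⟨ha1, ha2⟩, rfl⟩ _ ⟨⟨j', b⟩, ⟨hb1, hb2⟩, rfl⟩ hab
      have ha1' : j = i := ha1
      have hb1' : j' = i := hb1
      subst ha1'
      subst hb1'
      have h1 : qm A j' a.1 = qm A j' b.1 := hab
      have h2 : a = b := Subtype.ext (hinj ha2 hb2 h1)
      rw [h2]
  · obtain ⟨U, hU, hinj⟩ := locInj_qm (A := A) 0 (polar_mem y.2.1 y.2.2)
    refine ⟨Sum.inr '' {a : ↥collar | polar a.1 ∈ U ∧ |a.1.2.1 - y.1.2.1| < 1 / 2}, ?_, ?_⟩
    · rw [nhds_inr]
      refine image_mem_map ?_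
      have hc : Continuous fun a : ↥collar => polar a.1 :=
        contDiff_polar.continuous.comp continuous_subtype_val
      have hc2 : Continuous fun a : ↥collar => |a.1.2.1 - y.1.2.1| := by fun_prop
      have h1 : ∀ᶠ a : ↥collar in 𝓝 y, polar a.1 ∈ U := hc.continuousAt hU
      have h2 : ∀ᶠ a : ↥collar in 𝓝 y, |a.1.2.1 - y.1.2.1| < 1 / 2 := by
        refine (hc2.continuousAt).eventually_lt continuousAt_const ?_
        rw [sub_self, abs_zero]
        norm_num
      exact h1.and h2
    · rintro _ ⟨a, ⟨ha1, ha2⟩, rfl⟩ _ ⟨b, ⟨hb1, hb2⟩, rfl⟩ hab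
      have h1 : qm A 0 (polar a.1) = qm A 0 (polar b.1) := hab
      have h2 : polar a.1 = polar b.1 := hinj ha1 hb1 h1
      have h3 : polar b.1 = polar a.1 + lat 0 0 0 := by
        rw [h2]
        simp [lat]
      obtain ⟨-, -, j, hj⟩ := polar_inj a.2.1 a.2.2 b.2.1 b.2.2 h3
      have h4 : b.1.2.1 = a.1.2.1 + (j : ℝ) := congrArg (fun z : ℝ × ℝ × ℝ => z.2.1) hj
      have h5 : |(j : ℝ)| < 1 := by
        have e : (j : ℝ) = (b.1.2.1 - y.1.2.1) - (a.1.2.1 - y.1.2.1) := by
          rw [h4]
          ring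
        rw [e]
        calc |(b.1.2.1 - y.1.2.1) - (a.1.2.1 - y.1.2.1)|
            ≤ |b.1.2.1 - y.1.2.1| + |a.1.2.1 - y.1.2.1| := abs_sub _ _
          _ < 1 := by linarith
      have h6 : j = 0 := by
        have h7 : |j| < 1 := by exact_mod_cast h5
        exact Int.abs_lt_one_iff.1 h7
      have h8 : b.1 = a.1 := by
        rw [hj, h6]
        simp
      have h9 : a = b := Subtype.ext h8.symm
      rw [h9]

/-- Continuous: on each summand, `continuousOn_qm`, `tile_subset_piece`, `polar_mem`,
`contDiff_polar.continuous`. Open: an open set of `W` is the union of its traces on the summands;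
`isOpen_image_qm`, `isOpen_image_polar` (tiles and collar are open: `isOpen_tile`, `isOpen_collar`;
the first factor `Fin 2` is discrete). Locally injective: on a neighbourhood inside one summand and
one copy; tile: `locInj_qm`; collar: if `polar y` and `polar y'` have the same image and are close,
then `polar y = polar y'` (`locInj_qm`), and `polar` is injective on pairs with
`|y.2.1 - y'.2.1| < 1` (`polar_inj` with `m = n = k = 0`). -/
theorem isLocalHomeomorph_qW : IsLocalHomeomorph (qW A) :=
  isLocalHomeomorph_of_locInj continuous_qW isOpenMap_qW locInj_qW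

/-- `exists_qm`, `exists_cov`, `qm_add_lat`; in the second case of `exists_cov` for the copy `i`:
`qm A i x = qm A i (polar y) = qm A 0 (polar (sdInv A i y))` by `qm_sd`, `sd_sdInv`. -/
theorem surjective_qW : Function.Surjective (qW A) := by
  intro m
  obtain ⟨i, x, hx, rfl⟩ := exists_qm m
  rcases exists_cov hx with ⟨a, b, h⟩ | ⟨y, hy, a, b, h⟩
  · refine ⟨Sum.inl (i, ⟨x + lat a b 0, h⟩), ?_⟩
    exact qm_add_lat i hx a b 0
  · have hy' : sdInv A i y ∈ collar := sdInv_collar hy
    refine ⟨Sum.inr ⟨sdInv A i y, hy'⟩, ?_⟩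
    have h1 : qm A i (polar (sd A i (sdInv A i y))) = qm A 0 (polar (sdInv A i y)) :=
      qm_sd i hy'
    rw [sd_sdInv] at h1
    have h2 : qm A i x = qm A i (polar y) := by
      rw [h]
      exact qm_add_lat i (polar_mem hy.1 hy.2) a b 0
    rw [h2, h1]
    rfl

end Pool.Agent.NCT
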