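import Pool.Agent.NCT.Space
import Pool.Agent.NCT.AbsMain
import Pool.Agent.NCT.GluedEx
import Pool.Agent.NCT.WCoc
import Pool.Agent.NCT.WTop
import Pool.Agent.NCT.WConn
import Pool.Agent.NCT.LamW

/-! # NCT: the deck group of a simply connected covering of `MBar A` is `NCP.GMGroup A` -/

set_option autoImplicit false

open Set Filter Topology

namespace Pool.Agent.NCT

open Pool.Agent.NCQ

variable {A : Matrix.SpecialLinearGroup (Fin 2) ℤ}

instance : Nonempty W := by
  obtain ⟨x, hx, -⟩ := exists_tile_lat (m := 0) (n := 0) 0 (by simp)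
  exact ⟨Sum.inl (0, ⟨x, hx⟩)⟩

theorem exists_deck {X : Type} [TopologicalSpace X] [T2Space X] [SimplyConnectedSpace X]
    [LocallyPathConnectedSpace X] {p : X → MBar A} (hp : IsCoveringMap p) :
    ∃ ρ : NCP.GMGroup A →* Equiv.Perm X, (∀ g, Continuous (ρ g)) ∧ (∀ g x, p (ρ g x) = p x) ∧
      (∀ g x, ρ g x = x → g = 1) ∧ (∀ x y, p x = p y → ∃ g, ρ g x = y) := by
  obtain ⟨D⟩ := exists_glued hp
  obtain ⟨h1, h2⟩ := abs_main hp (isLocalHomeomorph_qW (A := A)) surjective_qW (cocW A)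
    (fun γ hγ h w w' => conn_W γ hγ h w w') gen_W D.rho D.continuous_lamW D.proj_lamW
    (fun w w' g h => D.RW_lamW h)
  exact ⟨(Deck p).subtype.comp D.rho, fun g => deck_cont (D.rho g), fun g x => deck_proj (D.rho g) x,
    h1, h2⟩

end Pool.Agent.NCT
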