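import Pool.Agent.NCT.CocDef

/-! # NCT: existence of the covering space defined by a cocycle

Let `q : W → M` be a surjective local homeomorphism. For `w ∈ W` let `N_w` be an open neighbourhood
of `w` on which `q` is an open embedding, `B_w = q '' N_w` and `s_w : B_w → N_w` the inverse of `q`
(continuous on the open set `B_w`). For `m : M` choose `w_m` with `q w_m = m`. Let `c w w'` be the
element with `C.R w w' (c w w')` if `q w = q w'` (`C.ex`, `C.uniq`), and `1` otherwise.

One possibility: `FiberBundleCore W M G` (discrete topology on `G`) with `baseSet w = B_w`,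
`indexAt m = w_m`, `coordChange w w' m g = g * c (s_w m) (s_{w'} m)`. Conditions: `coordChange_self`
(`C.refl`), `coordChange_comp` (`C.trans`), continuity on `(B_w ∩ B_{w'}) × G`: `c (s_w m) (s_{w'} m)`
is locally constant in `m` by `C.loc` and the continuity of the `s_w`. Its projection is a covering
map (`FiberBundle.isCoveringMap`). Put `tau w g = ⟨q w, g * c w w_{q w}⟩`. Then
`pr (tau w g) = q w`; `tau w g = tau w' g'` iff `q w = q w'` and
`g * c w w_m = g' * c w' w_m`, i.e. `g' = g * c w w_m * c w_m w' = g * c w w'`; surjective: every
element of the fibre over `m` is `tau w_m g`. In the local trivialization with index `w₀` the point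
`tau w g`, `w ∈ N_{w₀}`, is `(q w, g * c w w_{q w} * c w_{q w} (s_{w₀} (q w))) = (q w, g * c w w) = (q w, g)`,
so `tau · g` is continuous; since `pr ∘ tau · g = q` and `pr` are local homeomorphisms, it is a local
homeomorphism (`IsLocalHomeomorph.of_comp`).

Other possibility: the quotient of `W × G` by the equivalence relation. -/

set_option autoImplicit false

open Set Filter Topology

namespace Pool.Agent.NCT

namespace CocAux

open Classical in
/-- The value of the cocycle. -/
noncomputable def c {M W G : Type} [TopologicalSpace W] [Group G] {q : W → M} (C : Cocycle G q)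
    (w w' : W) : G := if h : q w = q w' then (C.ex h).choose else 1

variable {M W G : Type} [TopologicalSpace W] [Group G] {q : W → M} (C : Cocycle G q)

theorem c_spec {w w' : W} (h : q w = q w') : C.R w w' (c C w w') := by
  unfold c
  rw [dif_pos h]
  exact (C.ex h).choose_spec

theorem c_eq {w w' : W} {g : G} (h : C.R w w' g) : c C w w' = g :=
  C.uniq (c_spec C (C.proj h)) h

theorem c_self (w : W) : c C w w = 1 := c_eq C (C.refl w)

theorem c_mul {w w' w'' : W} (h : q w = q w') (h' : q w' = q w'') :
    c C w w' * c C w' w'' = c C w w'' :=
  (c_eq C (C.trans (c_spec C h) (c_spec C h'))).symm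

end CocAux

open CocAux in
theorem exists_cover {M W G : Type} [TopologicalSpace M] [TopologicalSpace W] [Group G]
    {q : W → M} (hq : IsLocalHomeomorph q) (hs : Function.Surjective q) (C : Cocycle G q) :
    Nonempty (Cover C) := by
  classical
  letI : TopologicalSpace G := ⊥
  haveI : DiscreteTopology G := ⟨rfl⟩
  choose e he heq using hq
  choose ι hι using hs
  have hqe : ∀ w x, e w x = q x := fun w x => by rw [heq w]
  have hsrc : ∀ w m, m ∈ (e w).target → q ((e w).symm m) = m := fun w m hm => by
    rw [← hqe w]; exact (e w).right_inv hm
  have hinv : ∀ w x, x ∈ (e w).source → (e w).symm (q x) = x := fun w x hx => by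
    have h := (e w).left_inv hx
    rwa [hqe w x] at h
  let Z : FiberBundleCore W M G :=
    { baseSet := fun w => (e w).target
      isOpen_baseSet := fun w => (e w).open_target
      indexAt := ι
      mem_baseSet_at := fun m => by
        have h := (e (ι m)).map_source (he (ι m))
        rw [hqe, hι] at h
        exact h
      coordChange := fun w w' m g => g * c C ((e w).symm m) ((e w').symm m)
      coordChange_self := fun w m hm g => by rw [c_self, mul_one]
      continuousOn_coordChange := fun w w' => by
        rintro ⟨m, g⟩ ⟨⟨hm, hm'⟩, -⟩
        have hm1 : m ∈ (e w).target := hm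
        have hm2 : m ∈ (e w').target := hm'
        have hR := c_spec C ((hsrc w m hm1).trans (hsrc w' m hm2).symm)
        have hcont : ContinuousAt (fun p : M × G => ((e w).symm p.1, (e w').symm p.1)) (m, g) := by
          apply ContinuousAt.prodMk
          · exact ContinuousAt.comp (f := Prod.fst) (g := (e w).symm)
              ((e w).continuousAt_symm hm1) continuousAt_fst
          · exact ContinuousAt.comp (f := Prod.fst) (g := (e w').symm)
              ((e w').continuousAt_symm hm2) continuousAt_fst
        have hev := hcont.eventually (C.loc hR)
        have h1 : ContinuousWithinAt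
            (fun p : M × G => p.2 * c C ((e w).symm m) ((e w').symm m))
            (((e w).target ∩ (e w').target) ×ˢ univ) (m, g) := by
          apply Continuous.continuousWithinAt
          exact (continuous_of_discreteTopology
            (f := fun g : G => g * c C ((e w).symm m) ((e w').symm m))).comp continuous_snd
        refine h1.congr_of_eventuallyEq ?_ rfl
        filter_upwards [mem_nhdsWithin_of_mem_nhds hev, self_mem_nhdsWithin] with p hp hp2
        obtain ⟨⟨hp3, hp4⟩, -⟩ := hp2
        have h2 := hp ((hsrc w p.1 hp3).trans (hsrc w' p.1 hp4).symm)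
        show p.2 * c C ((e w).symm p.1) ((e w').symm p.1) = p.2 * c C ((e w).symm m) ((e w').symm m)
        rw [c_eq C h2]
      coordChange_comp := fun i j k m hm g => by
        obtain ⟨⟨h1, h2⟩, h3⟩ := hm
        rw [mul_assoc, c_mul C ((hsrc i m h1).trans (hsrc j m h2).symm)
          ((hsrc j m h2).trans (hsrc k m h3).symm)] }
  have hext : ∀ x y : Z.TotalSpace, x.proj = y.proj → (x.snd : G) = (y.snd : G) → x = y := by
    rintro ⟨x, a⟩ ⟨y, b⟩ h1 h2
    simp only at h1
    subst h1
    have h3 : a = b := h2
    rw [h3]
  let tau : W → G → Z.TotalSpace := fun w g => ⟨q w, g * c C w (ι (q w))⟩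
  have hpr : ∀ w g, (tau w g).proj = q w := fun w g => rfl
  have hcov : IsCoveringMap (Bundle.TotalSpace.proj : Z.TotalSpace → M) :=
    FiberBundle.isCoveringMap (F := G) (E := Z.Fiber)
  have hcont : ∀ g, Continuous fun w => tau w g := by
    intro g
    rw [continuous_iff_continuousAt]
    intro w
    have hmem : ((q w, g) : M × G) ∈ (Z.localTriv w).target := by
      rw [Z.mem_localTriv_target]
      show q w ∈ (e w).target
      have h := (e w).map_source (he w)
      rw [hqe] at h
      exact h
    have h1 : ContinuousAt (fun w' => (Z.localTriv w).toOpenPartialHomeomorph.symm (q w', g)) w := by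
      have h2 : ContinuousAt (Z.localTriv w).toOpenPartialHomeomorph.symm (q w, g) :=
        (Z.localTriv w).toOpenPartialHomeomorph.continuousAt_symm hmem
      have hqc : ContinuousAt q w := by
        rw [heq w]
        exact (e w).continuousAt (he w)
      have h3 : ContinuousAt (fun w' => ((q w', g) : M × G)) w :=
        hqc.prodMk continuousAt_const
      exact ContinuousAt.comp (f := fun w' => ((q w', g) : M × G)) h2 h3
    refine h1.congr ?_
    filter_upwards [(e w).open_source.mem_nhds (he w)] with w' hw'
    rw [Z.localTriv_symm_apply]
    apply hext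
    · rfl
    · show g * c C ((e w).symm (q w')) ((e (ι (q w'))).symm (q w')) = g * c C w' (ι (q w'))
      have h4 : (e (ι (q w'))).symm (q w') = ι (q w') := by
        have h5 := hinv (ι (q w')) (ι (q w')) (he _)
        rwa [hι] at h5
      rw [hinv w w' hw', h4]
  refine ⟨{ E := Z.TotalSpace
            top := inferInstance
            pr := Bundle.TotalSpace.proj
            tau := tau
            cov := hcov
            loc := fun g => ?_
            surj := fun x => ?_
            proj := fun w g => rfl
            eq_iff := fun w w' g g' => ?_ }⟩
  · have hqloc : IsLocalHomeomorph ((Bundle.TotalSpace.proj : Z.TotalSpace → M) ∘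
        fun w => tau w g) := by
      intro w
      exact ⟨e w, he w, heq w⟩
    exact IsLocalHomeomorph.of_comp hqloc hcov.isLocalHomeomorph (hcont g)
  · refine ⟨ι x.proj, x.snd, ?_⟩
    apply hext
    · exact hι x.proj
    · show ((show G from x.snd) * c C (ι x.proj) (ι (q (ι x.proj))) : G) = (show G from x.snd)
      rw [hι, c_self, mul_one]
  · constructor
    · intro h
      have h1 : q w = q w' := congrArg Bundle.TotalSpace.proj h
      refine ⟨c C w w', c_spec C h1, ?_⟩
      have h2 : g * c C w (ι (q w)) = g' * c C w' (ι (q w')) := by
        have h3 : ∀ x y : Z.TotalSpace, x = y → (x.snd : G) = (y.snd : G) := by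
          rintro x y rfl; rfl
        exact h3 _ _ h
      have h4 : c C w w' * c C w' (ι (q w')) = c C w (ι (q w)) := by
        rw [h1]
        exact c_mul C h1 (hι (q w')).symm
      rw [← h4, ← mul_assoc] at h2
      exact (mul_right_cancel h2).symm
    · rintro ⟨h, hR, rfl⟩
      have h1 := C.proj hR
      apply hext
      · exact h1
      · show g * c C w (ι (q w)) = g * h * c C w' (ι (q w'))
        have h4 : c C w w' * c C w' (ι (q w')) = c C w (ι (q w)) := by
          rw [h1]
          exact c_mul C h1 (hι (q w')).symm
        rw [← h4, c_eq C hR, mul_assoc]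

end Pool.Agent.NCT
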