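import Mathlib

/-! # NCT: cocycles on a fibre product, and the covering defined by a cocycle (definitions)

`q : W → M` is a map (a surjective local homeomorphism in the applications). A cocycle assigns an
element `c w w'` of `G` to the pairs with `q w = q w'`, with `c w w' * c w' w'' = c w w''`, locally
constant. We describe it by its graph `R w w' g` (`g = c w w'`). -/

set_option autoImplicit false

open Set Filter Topology

namespace Pool.Agent.NCT

/-- A locally constant cocycle on the fibre product of `q`, given by its graph. -/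
structure Cocycle {M W : Type} [TopologicalSpace W] (G : Type) [Group G] (q : W → M) where
  R : W → W → G → Prop
  proj : ∀ {w w' : W} {g : G}, R w w' g → q w = q w'
  ex : ∀ {w w' : W}, q w = q w' → ∃ g, R w w' g
  uniq : ∀ {w w' : W} {g g' : G}, R w w' g → R w w' g' → g = g'
  trans : ∀ {w w' w'' : W} {g g' : G}, R w w' g → R w' w'' g' → R w w'' (g * g')
  loc : ∀ {w w' : W} {g : G}, R w w' g → ∀ᶠ z : W × W in 𝓝 (w, w'), q z.1 = q z.2 → R z.1 z.2 g

namespace Cocycle

variable {M W G : Type} [TopologicalSpace W] [Group G] {q : W → M} (C : Cocycle G q)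

theorem refl (w : W) : C.R w w 1 := by
  obtain ⟨g, hg⟩ := C.ex (rfl : q w = q w)
  have h := C.uniq (C.trans hg hg) hg
  have h1 : g = 1 := by simpa using h
  exact h1 ▸ hg

theorem symm {w w' : W} {g : G} (h : C.R w w' g) : C.R w' w g⁻¹ := by
  obtain ⟨g', hg'⟩ := C.ex (C.proj h).symm
  have h1 := C.uniq (C.trans h hg') (C.refl w)
  have h2 : g' = g⁻¹ := (inv_eq_of_mul_eq_one_right h1).symm
  exact h2 ▸ hg'

end Cocycle

/-- The covering space of `M` defined by a cocycle: the quotient of `W × G` by
`(w, g) ~ (w', g * c w w')`. -/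
structure Cover {M W G : Type} [TopologicalSpace M] [TopologicalSpace W] [Group G] {q : W → M}
    (C : Cocycle G q) where
  E : Type
  [top : TopologicalSpace E]
  pr : E → M
  tau : W → G → E
  cov : IsCoveringMap pr
  loc : ∀ g, IsLocalHomeomorph fun w => tau w g
  surj : ∀ e, ∃ w g, tau w g = e
  proj : ∀ w g, pr (tau w g) = q w
  eq_iff : ∀ w w' g g', tau w g = tau w' g' ↔ ∃ h, C.R w w' h ∧ g' = g * h

attribute [instance] Cover.top

end Pool.Agent.NCT
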