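import Mathlib

/-!
# NCT/Cocycle: the covering space of a cocycle (abstract step 4)

`p : W → M` a surjective local homeomorphism, `c` a cocycle on the fibre product with values in the group `Γ`, locally
constant. `E` is the quotient of `W × Γ` by `(w, g) ~ (w', g * c w w')` for `p w = p w'`.

* `cocycle_cover`: the covering `pE : E → M`, the maps `τ w g` and the deck maps `L g`;
* `exists_desc`: a function on `W × Γ` compatible with `τ` descends to `E`, and it is continuous if it is continuous in `w`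
  for each `g`.
-/

namespace Pool.Agent.NCT

open Topology Filter

universe u v

section desc

variable {E X W Γ : Type*} [TopologicalSpace E] [TopologicalSpace X] [TopologicalSpace W]

/-- continuity of a map out of the cocycle cover -/
theorem continuous_of_tau {τ : W → Γ → E} (ho : ∀ g, IsOpenMap fun w => τ w g)
    (hs : ∀ e, ∃ w g, τ w g = e) {f : E → X} (hf : ∀ g, Continuous fun w => f (τ w g)) :
    Continuous f := by
  rw [continuous_def]
  intro U hU
  have h : f ⁻¹' U = ⋃ g, (fun w => τ w g) '' ((fun w => f (τ w g)) ⁻¹' U) := by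
    ext e
    simp only [Set.mem_preimage, Set.mem_iUnion, Set.mem_image]
    constructor
    · intro he
      obtain ⟨w, g, rfl⟩ := hs e
      exact ⟨g, w, he, rfl⟩
    · rintro ⟨g, w, hw, rfl⟩
      exact hw
  rw [h]
  exact isOpen_iUnion fun g => ho g _ (hU.preimage (hf g))

/-- maps out of the cocycle cover -/
theorem exists_desc {τ : W → Γ → E} (ho : ∀ g, IsOpenMap fun w => τ w g)
    (hs : ∀ e, ∃ w g, τ w g = e) {F : W → Γ → X} (hF : ∀ g, Continuous fun w => F w g)
    (hFτ : ∀ w g w' g', τ w g = τ w' g' → F w g = F w' g') :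
    ∃ f : E → X, Continuous f ∧ ∀ w g, f (τ w g) = F w g := by
  choose a b hab using hs
  refine ⟨fun e => F (a e) (b e), ?_, ?_⟩
  · apply continuous_of_tau ho (fun e => ⟨a e, b e, hab e⟩)
    intro g
    have : (fun w => F (a (τ w g)) (b (τ w g))) = fun w => F w g := by
      ext w
      exact hFτ _ _ _ _ (hab _)
    rw [this]
    exact hF g
  · intro w g
    exact hFτ _ _ _ _ (hab _)

end desc

section cover

variable {M : Type*} {W : Type u} {Γ : Type v} [TopologicalSpace M] [TopologicalSpace W] [Group Γ]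

/-- the equivalence relation -/
def cocSetoid (p : W → M) (c : W → W → Γ)
    (hc : ∀ w w' w'', p w = p w' → p w' = p w'' → c w w' * c w' w'' = c w w'') :
    Setoid (W × Γ) where
  r x y := p x.1 = p y.1 ∧ y.2 = x.2 * c x.1 y.1
  iseqv := by
    have h1 : ∀ w, c w w = 1 := fun w => by
      have := hc w w w rfl rfl
      simpa using this
    refine ⟨fun x => ⟨rfl, by rw [h1, mul_one]⟩, ?_, ?_⟩
    · rintro x y ⟨h, h'⟩
      refine ⟨h.symm, ?_⟩
      have := hc x.1 y.1 x.1 h h.symm
      rw [h', mul_assoc, this, h1, mul_one]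
    · rintro x y z ⟨h, h'⟩ ⟨k, k'⟩
      refine ⟨h.trans k, ?_⟩
      rw [k', h', mul_assoc, hc _ _ _ h k]

theorem cocycle_cover (p : W → M) (hp : IsLocalHomeomorph p) (hs : Function.Surjective p)
    (c : W → W → Γ)
    (hc : ∀ w w' w'', p w = p w' → p w' = p w'' → c w w' * c w' w'' = c w w'')
    (hl : ∀ w w', p w = p w' → ∀ᶠ x : W × W in 𝓝 (w, w'), p x.1 = p x.2 → c x.1 x.2 = c w w') :
    ∃ (E : Type (max u v)) (_ : TopologicalSpace E) (pE : E → M) (τ : W → Γ → E)
      (L : Γ → E → E), IsCoveringMap pE ∧ (∀ g, Continuous fun w => τ w g) ∧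
      (∀ g, IsOpenMap fun w => τ w g) ∧ (∀ e, ∃ w g, τ w g = e) ∧ (∀ w g, pE (τ w g) = p w) ∧
      (∀ w g w' g', τ w g = τ w' g' ↔ p w = p w' ∧ g' = g * c w w') ∧
      (∀ g, Continuous (L g)) ∧ ∀ g w h, L g (τ w h) = τ w (g * h) := by
  have h1 : ∀ w, c w w = 1 := fun w => by
    have := hc w w w rfl rfl
    simpa using this
  let S := cocSetoid p c hc
  let E := Quotient S
  let τ : W → Γ → E := fun w g => Quotient.mk S (w, g)
  let tE : TopologicalSpace E := ⨆ g, TopologicalSpace.coinduced (fun w => τ w g) inferInstance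
  have hopen : ∀ U : Set E, IsOpen U ↔ ∀ g, IsOpen ((fun w => τ w g) ⁻¹' U) := by
    intro U
    simp only [tE, isOpen_iSup_iff, isOpen_coinduced]
  have hτ : ∀ w g w' g', τ w g = τ w' g' ↔ p w = p w' ∧ g' = g * c w w' := by
    intro w g w' g'
    exact Quotient.eq (r := S) (x := (w, g)) (y := (w', g'))
  have hsur : ∀ e, ∃ w g, τ w g = e := by
    intro e
    obtain ⟨⟨w, g⟩, rfl⟩ := Quotient.exists_rep e
    exact ⟨w, g, rfl⟩
  have hcont : ∀ g, Continuous fun w => τ w g := by
    intro g
    rw [continuous_def]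
    intro U hU
    exact (hopen U).1 hU g
  have hom : ∀ g, IsOpenMap fun w => τ w g := by
    intro g O hO
    rw [hopen]
    intro g'
    rw [isOpen_iff_mem_nhds]
    rintro w' ⟨w, hwO, hw⟩
    obtain ⟨hpw, hg⟩ := (hτ _ _ _ _).1 hw
    obtain ⟨N₁, hN₁, N₂, hN₂, hN⟩ := mem_nhds_prod_iff.1 (hl w w' hpw)
    have h2 : p '' (N₁ ∩ O) ∈ 𝓝 (p w') := by
      rw [← hpw]
      exact hp.isOpenMap.image_mem_nhds (inter_mem hN₁ (hO.mem_nhds hwO))
    have h3 := hp.continuous.continuousAt (x := w') h2
    filter_upwards [hN₂, h3] with y hy hy'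
    obtain ⟨z, ⟨hz, hzO⟩, hzy⟩ := hy'
    refine ⟨z, hzO, ?_⟩
    have h4 := hN (Set.mk_mem_prod hz hy)
    have h5 : c z y = c w w' := h4 hzy
    exact (hτ _ _ _ _).2 ⟨hzy, by rw [h5, hg]⟩
  let pE : E → M := Quotient.lift (fun x : W × Γ => p x.1) (fun x y h => h.1)
  have hpE : ∀ w g, pE (τ w g) = p w := fun w g => rfl
  let L : Γ → E → E := fun g => Quotient.lift (fun x : W × Γ => τ x.1 (g * x.2))
    (fun x y h => (hτ _ _ _ _).2 ⟨h.1, by rw [h.2, mul_assoc]⟩)
  have hL : ∀ g w h, L g (τ w h) = τ w (g * h) := fun g w h => rfl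
  have hpEc : Continuous pE := by
    apply continuous_of_tau hom hsur
    intro g
    exact hp.continuous
  refine ⟨E, tE, pE, τ, L, ?_, hcont, hom, hsur, hpE, hτ, ?_, hL⟩
  · intro x
    obtain ⟨w₀, rfl⟩ := hs x
    obtain ⟨e, he, hpe⟩ := hp w₀
    let _ : TopologicalSpace Γ := ⊥
    have : DiscreteTopology Γ := ⟨rfl⟩
    let V : Set M := e.target
    have hVx : p w₀ ∈ V := by
      rw [hpe]
      exact e.map_source he
    have hps : ∀ v ∈ V, p (e.symm v) = v := by
      intro v hv
      rw [hpe]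
      exact e.right_inv hv
    let F : V × Γ → pE ⁻¹' V := fun y => ⟨τ (e.symm y.1.1) y.2, by
      rw [Set.mem_preimage, hpE, hps _ y.1.2]
      exact y.1.2⟩
    have hFinj : Function.Injective F := by
      rintro ⟨⟨v, hv⟩, g⟩ ⟨⟨v', hv'⟩, g'⟩ h
      have h2 := congrArg Subtype.val h
      obtain ⟨h3, h4⟩ := (hτ _ _ _ _).1 h2
      simp only at h3 h4
      rw [hps v hv, hps v' hv'] at h3
      subst h3
      rw [h1, mul_one] at h4
      rw [h4]
    have hFsur : Function.Surjective F := by
      rintro ⟨e', he'⟩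
      obtain ⟨w, g, rfl⟩ := hsur e'
      have hw : p w ∈ V := he'
      refine ⟨(⟨p w, hw⟩, g * c w (e.symm (p w))), ?_⟩
      apply Subtype.ext
      exact ((hτ _ _ _ _).2 ⟨(hps _ hw).symm, rfl⟩).symm
    have hFcont : Continuous F := by
      refine Continuous.subtype_mk ?_ _
      rw [continuous_prod_of_discrete_right]
      intro g
      have hsc : Continuous fun v : V => e.symm v.1 :=
        continuousOn_iff_continuous_domRestrict.1 e.continuousOn_symm
      exact (hcont g).comp hsc
    have hFopen : IsOpenMap F := by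
      rw [isOpenMap_prod_of_discrete_right]
      intro g O hO
      obtain ⟨O', hO', rfl⟩ := isOpen_induced_iff.1 hO
      have hO2 : IsOpen (e.symm '' (O' ∩ V)) := by
        have : e.symm '' (O' ∩ V) = e.source ∩ e ⁻¹' O' := by
          ext w
          constructor
          · rintro ⟨v, ⟨hv, hv'⟩, rfl⟩
            refine ⟨e.map_target hv', ?_⟩
            rw [Set.mem_preimage, e.right_inv hv']
            exact hv
          · rintro ⟨hw, hw'⟩
            exact ⟨e w, ⟨hw', e.map_source hw⟩, e.left_inv hw⟩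
        rw [this]
        exact e.isOpen_inter_preimage hO'
      have h3 := hom g _ hO2
      refine ⟨_, h3, ?_⟩
      ext ⟨z, hz⟩
      constructor
      · rintro ⟨w, ⟨v, ⟨hv, hv'⟩, rfl⟩, hw⟩
        exact ⟨⟨v, hv'⟩, hv, Subtype.ext hw⟩
      · rintro ⟨⟨v, hv'⟩, hv, hw⟩
        exact ⟨e.symm v, ⟨v, ⟨hv, hv'⟩, rfl⟩, congrArg Subtype.val hw⟩
    let H : V × Γ ≃ₜ pE ⁻¹' V :=
      (Equiv.ofBijective F ⟨hFinj, hFsur⟩).toHomeomorphOfContinuousOpen hFcont hFopen
    have hev : IsEvenlyCovered pE (p w₀) Γ := by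
      refine ⟨inferInstance, V, hVx, e.open_target, e.open_target.preimage hpEc, H.symm, ?_⟩
      intro z
      obtain ⟨y, rfl⟩ := H.surjective z
      rw [H.symm_apply_apply]
      have : ((H y : pE ⁻¹' V) : E) = τ (e.symm y.1.1) y.2 := rfl
      rw [this, hpE, hps _ y.1.2]
    exact hev.to_isEvenlyCovered_preimage
  · intro g
    apply continuous_of_tau hom hsur
    intro h
    exact hcont (g * h)

end cover

end Pool.Agent.NCT
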