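import Pool.Agent.NCT.PlaneDef

/-! # NCT: the words `U n`, `wd m n` -/

set_option autoImplicit false

open Set Filter Topology

namespace Pool.Agent.NCT

open Pool.Agent.NCQ

theorem U_zero : U 0 = 1 := by
  simp [U]

/-- `(n + 4 N) / 4 = n / 4 + N`, `(n + 4 N) % 4 = n % 4` -/
theorem U_add (n N : ℤ) : U (n + 4 * N) = NCP.bdry ^ N * U n := by
  have h1 : (n + 4 * N) / 4 = N + n / 4 := by omega
  have h2 : (n + 4 * N) % 4 = n % 4 := by omega
  unfold U
  rw [h1, h2, zpow_add, mul_assoc]

theorem corner_add (n N : ℤ) : corner (n + 4 * N) = corner n := by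
  have h2 : (n + 4 * N) % 4 = n % 4 := by omega
  unfold corner
  rw [h2]

private theorem corner_zero : corner 0 = (1, 1) := rfl
private theorem corner_one : corner 1 = (0, 1) := rfl
private theorem corner_two : corner 2 = (0, 0) := rfl
private theorem corner_three : corner 3 = (1, 0) := rfl
private theorem corner_four : corner 4 = (1, 1) := rfl

private theorem U_one : U 1 = FreeGroup.of 0 := by
  simp [U]
private theorem U_two : U 2 = FreeGroup.of 0 * FreeGroup.of 1 := by
  simp [U]
private theorem U_three : U 3 = FreeGroup.of 0 * FreeGroup.of 1 * (FreeGroup.of 0)⁻¹ := by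
  simp [U]
private theorem U_four : U 4 = NCP.bdry := by
  simp [U]

/-- different corners mod `4` are different points -/
theorem corner_inj {n n' : ℤ} (h : |n - n'| ≤ 1) (hc : corner n = corner n') : n = n' := by
  have key : ∀ m : ℤ, corner m ≠ corner (m + 1) := by
    intro m
    obtain ⟨N, r, hr, hr4, rfl⟩ : ∃ N r : ℤ, 0 ≤ r ∧ r < 4 ∧ m = r + 4 * N :=
      ⟨m / 4, m % 4, by omega, by omega, by omega⟩
    have h2 : r + 4 * N + 1 = (r + 1) + 4 * N := by ring
    rw [h2, corner_add, corner_add]
    interval_cases r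
    · rw [corner_zero, show (0 : ℤ) + 1 = 1 from rfl, corner_one]; decide
    · rw [corner_one, show (1 : ℤ) + 1 = 2 from rfl, corner_two]; decide
    · rw [corner_two, show (2 : ℤ) + 1 = 3 from rfl, corner_three]; decide
    · rw [corner_three, show (3 : ℤ) + 1 = 4 from rfl, corner_four]; decide
  rw [abs_le] at h
  by_contra hne
  rcases lt_or_gt_of_ne hne with h1 | h1
  · have h2 : n' = n + 1 := by omega
    rw [h2] at hc
    exact key n hc
  · have h2 : n = n' + 1 := by omega
    rw [h2] at hc
    exact key n' hc.symm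

private theorem U_step (m : ℤ) :
    U (m + 1) = U m * wd ((corner m).1 - (corner (m + 1)).1) ((corner m).2 - (corner (m + 1)).2) ∧
    U m = U (m + 1) *
      wd ((corner (m + 1)).1 - (corner m).1) ((corner (m + 1)).2 - (corner m).2) := by
  obtain ⟨N, r, hr, hr4, rfl⟩ : ∃ N r : ℤ, 0 ≤ r ∧ r < 4 ∧ m = r + 4 * N :=
    ⟨m / 4, m % 4, by omega, by omega, by omega⟩
  have h2 : r + 4 * N + 1 = (r + 1) + 4 * N := by ring
  rw [h2, corner_add, corner_add, U_add, U_add, mul_assoc, mul_assoc, mul_right_inj,
    mul_right_inj]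
  interval_cases r
  · rw [show (0 : ℤ) + 1 = 1 from rfl, corner_zero, corner_one, U_zero, U_one]
    simp [wd]
  · rw [show (1 : ℤ) + 1 = 2 from rfl, corner_one, corner_two, U_one, U_two]
    simp [wd]
  · rw [show (2 : ℤ) + 1 = 3 from rfl, corner_two, corner_three, U_two, U_three]
    simp [wd]
  · rw [show (3 : ℤ) + 1 = 4 from rfl, corner_three, corner_four, U_three, U_four]
    simp [wd, NCP.bdry]

/-- `U (n + 1) = U n * wd (corner n - corner (n + 1))` (four cases mod `4`; write `n = 4 N + r` and
use `U_add`), and its inverse `U (n - 1) = U n * wd (corner n - corner (n - 1))`. -/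
theorem U_wd {n n' : ℤ} (h : |n - n'| ≤ 1) :
    U n' = U n * wd ((corner n).1 - (corner n').1) ((corner n).2 - (corner n').2) := by
  rw [abs_le] at h
  rcases lt_trichotomy n n' with h1 | h1 | h1
  · have h2 : n' = n + 1 := by omega
    rw [h2]
    exact (U_step n).1
  · rw [h1]
    simp [wd]
  · have h2 : n = n' + 1 := by omega
    rw [h2]
    exact (U_step n').2

/-- Additivity where everything has length `≤ 1`: one of the vectors is `0` or the second is the
negative of the first (parity of `m + n`). -/
theorem wd_mul {m n m' n' : ℤ} (h1 : |m| + |n| ≤ 1) (h2 : |m'| + |n'| ≤ 1)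
    (h3 : |m + m'| + |n + n'| ≤ 1) : wd m n * wd m' n' = wd (m + m') (n + n') := by
  have hm := abs_nonneg m
  have hn := abs_nonneg n
  have hm' := abs_nonneg m'
  have hn' := abs_nonneg n'
  have b1 : |m| ≤ 1 := by omega
  have b2 : |n| ≤ 1 := by omega
  have b3 : |m'| ≤ 1 := by omega
  have b4 : |n'| ≤ 1 := by omega
  rw [abs_le] at b1 b2 b3 b4
  obtain ⟨c1, c2⟩ := b1
  obtain ⟨c3, c4⟩ := b2
  obtain ⟨c5, c6⟩ := b3
  obtain ⟨c7, c8⟩ := b4
  interval_cases m <;> interval_cases n <;> interval_cases m' <;> interval_cases n' <;>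
    first
    | (exfalso; revert h1; decide)
    | (exfalso; revert h2; decide)
    | (exfalso; revert h3; decide)
    | simp [wd]

end Pool.Agent.NCT
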