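import Pool.Agent.NCT.TopDef

/-! # NCT: a compact set of representatives of `MBar A`

PROOF. `K = {x : ℂ × ℝ | x.1.re, x.1.im, x.2 ∈ [0, 1], 1/8 ≤ ‖x.1 - c‖ for c = 0, 1, i, 1 + i}`, closed and
bounded, contained in `piece` (a lattice point in the square is a corner). A point is `qm A i x`
(`exists_qm`), after a translation all coordinates of `x` are in `[0, 1]` (`mk_add_lat`; floors). If
`‖x.1 - c‖ < 1/8` for a corner `c`, then `x = polar y + lat` with `0 < y.1 < 1/8` (polar coordinates of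
`x.1 - c ≠ 0`) and `qm A i x = qm A j (polar y')`, `j ≠ i`, with `y' = flip A y` if `i = 0` and
`flip A y' = y` if `i = 1` (`y' = flip A⁻¹ y`), so `1/8 < y'.1 < 1/4`; translate `polar y'` into `[0, 1]³`: its
first coordinate has distance `y'.1 > 1/8` from the nearest lattice point and `> 3/4` from all others. -/

set_option autoImplicit false

open Set Filter Topology

namespace Pool.Agent.NCT

open Pool.Agent.NCQ

/-- the points at distance at least `1/8` from the lattice -/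
def farSet : Set (ℂ × ℝ) := {x | ∀ m n : ℤ, 1 / 8 ≤ ‖x.1 - (m + n * Complex.I)‖}

/-- the compact set of representatives -/
def kSet : Set (ℂ × ℝ) :=
  {x | (x.1.re ∈ Icc (0 : ℝ) 1 ∧ x.1.im ∈ Icc (0 : ℝ) 1 ∧ x.2 ∈ Icc (0 : ℝ) 1) ∧ x ∈ farSet}

theorem isCompact_kSet : IsCompact kSet := by
  have h1 : IsCompact ((Metric.closedBall (0 : ℂ) 2) ×ˢ (Icc (0 : ℝ) 1)) :=
    (isCompact_closedBall _ _).prod isCompact_Icc
  refine h1.of_isClosed_subset ?_ ?_
  · have h2 : kSet = ((fun x : ℂ × ℝ => x.1.re) ⁻¹' Icc (0 : ℝ) 1 ∩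
        ((fun x : ℂ × ℝ => x.1.im) ⁻¹' Icc (0 : ℝ) 1 ∩ (fun x : ℂ × ℝ => x.2) ⁻¹' Icc (0 : ℝ) 1)) ∩
        ⋂ (m : ℤ) (n : ℤ), {x : ℂ × ℝ | 1 / 8 ≤ ‖x.1 - (m + n * Complex.I)‖} := by
      ext x
      simp only [kSet, farSet, mem_ofPred_eq, mem_inter_iff, mem_preimage, mem_iInter]
    rw [h2]
    refine IsClosed.inter (IsClosed.inter ?_ (IsClosed.inter ?_ ?_)) ?_
    · exact isClosed_Icc.preimage (Complex.continuous_re.comp continuous_fst)
    · exact isClosed_Icc.preimage (Complex.continuous_im.comp continuous_fst)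
    · exact isClosed_Icc.preimage continuous_snd
    · refine isClosed_iInter fun m => isClosed_iInter fun n => ?_
      exact isClosed_le continuous_const ((continuous_fst.sub continuous_const).norm)
  · rintro x ⟨⟨⟨h2, h3⟩, ⟨h4, h5⟩, h6⟩, -⟩
    refine ⟨?_, h6⟩
    rw [mem_closedBall_zero_iff]
    refine (Complex.norm_le_abs_re_add_abs_im _).trans ?_
    rw [abs_of_nonneg h2, abs_of_nonneg h4]
    linarith

theorem farSet_subset : farSet ⊆ piece := by
  intro x hx m n h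
  have h1 := hx m n
  rw [h] at h1
  simp at h1
  linarith

theorem exists_translate (A : Matrix.SpecialLinearGroup (Fin 2) ℤ) (i : Fin 2) {x : ℂ × ℝ}
    (hx : x ∈ farSet) : ∃ x' ∈ kSet, qm A i x' = qm A i x := by
  refine ⟨x + lat (-⌊x.1.re⌋) (-⌊x.1.im⌋) (-⌊x.2⌋), ⟨⟨?_, ?_, ?_⟩, ?_⟩, ?_⟩
  · have h1 := Int.floor_le x.1.re
    have h2 := Int.lt_floor_add_one x.1.re
    have h3 : (x + lat (-⌊x.1.re⌋) (-⌊x.1.im⌋) (-⌊x.2⌋)).1.re = x.1.re - ⌊x.1.re⌋ := by
      simp only [lat, Prod.fst_add, Prod.snd_add, Complex.add_re, Complex.add_im, Complex.mul_re,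
        Complex.mul_im, Complex.intCast_re, Complex.intCast_im, Complex.I_re, Complex.I_im]
      push_cast
      ring
    rw [h3]
    exact ⟨by linarith, by linarith⟩
  · have h1 := Int.floor_le x.1.im
    have h2 := Int.lt_floor_add_one x.1.im
    have h3 : (x + lat (-⌊x.1.re⌋) (-⌊x.1.im⌋) (-⌊x.2⌋)).1.im = x.1.im - ⌊x.1.im⌋ := by
      simp only [lat, Prod.fst_add, Prod.snd_add, Complex.add_re, Complex.add_im, Complex.mul_re,
        Complex.mul_im, Complex.intCast_re, Complex.intCast_im, Complex.I_re, Complex.I_im]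
      push_cast
      ring
    rw [h3]
    exact ⟨by linarith, by linarith⟩
  · have h1 := Int.floor_le x.2
    have h2 := Int.lt_floor_add_one x.2
    have h3 : (x + lat (-⌊x.1.re⌋) (-⌊x.1.im⌋) (-⌊x.2⌋)).2 = x.2 - ⌊x.2⌋ := by
      simp only [lat, Prod.fst_add, Prod.snd_add, Complex.add_re, Complex.add_im, Complex.mul_re,
        Complex.mul_im, Complex.intCast_re, Complex.intCast_im, Complex.I_re, Complex.I_im]
      push_cast
      ring
    rw [h3]
    exact ⟨by linarith, by linarith⟩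
  · intro m n
    have h1 := hx (m + ⌊x.1.re⌋) (n + ⌊x.1.im⌋)
    have h2 : (x + lat (-⌊x.1.re⌋) (-⌊x.1.im⌋) (-⌊x.2⌋)).1 - (m + n * Complex.I)
        = x.1 - (((m + ⌊x.1.re⌋ : ℤ) : ℂ) + ((n + ⌊x.1.im⌋ : ℤ) : ℂ) * Complex.I) := by
      simp only [lat, Prod.fst_add]
      push_cast
      ring
    rw [h2]
    exact h1
  · have hp := farSet_subset hx
    rw [qm_eq hp, qm_eq (add_lat_mem hp _ _ _)]
    exact mk_add_lat i hp _ _ _

theorem polar_farSet {y : ℝ × ℝ × ℝ} (h0 : 1 / 8 < y.1) (h1 : y.1 < 1 / 4) :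
    polar y ∈ farSet := by
  intro m n
  have hn := exact_norm_polar_fst y (by linarith)
  by_cases h : ‖(m : ℂ) + n * Complex.I‖ < 1
  · obtain ⟨rfl, rfl⟩ := exact_int_zero_of_norm h
    simp only [Int.cast_zero, zero_mul, add_zero, sub_zero]
    rw [hn]
    exact h0.le
  · rw [not_lt] at h
    have h2 := norm_sub_norm_le ((m : ℂ) + n * Complex.I) (polar y).1
    rw [norm_sub_rev] at h2
    rw [hn] at h2
    linarith

theorem exists_other (A : Matrix.SpecialLinearGroup (Fin 2) ℤ) (i : Fin 2) {y : ℝ × ℝ × ℝ}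
    (h0 : 0 < y.1) (h1 : y.1 < 1 / 8) : ∃ (j : Fin 2) (y' : ℝ × ℝ × ℝ), 1 / 8 < y'.1 ∧
      y'.1 < 1 / 4 ∧ qm A j (polar y') = qm A i (polar y) := by
  have h1' : y.1 < 1 / 4 := by linarith
  fin_cases i
  · refine ⟨1, flip A y, ?_, ?_, ?_⟩
    · simp only [NCQ.flip]; linarith
    · simp only [NCQ.flip]; linarith
    · have h2 := flip_bounds (A := A) h0 h1'
      rw [qm_eq (polar_mem h2.1 h2.2)]
      refine (mk_polar h0 h1').symm.trans ?_
      exact (qm_eq (A := A) (i := 0) (polar_mem h0 h1')).symm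
  · set y' : ℝ × ℝ × ℝ := (1 / 4 - y.1, A.1 1 1 * y.2.1 - A.1 0 1 * y.2.2,
      -A.1 1 0 * y.2.1 + A.1 0 0 * y.2.2) with hy'
    have hdet := ExactD.det A
    have hdet' : (A.1 0 0 : ℝ) * A.1 1 1 - A.1 0 1 * A.1 1 0 = 1 := by exact_mod_cast hdet
    have hfl : flip A y' = y := by
      unfold NCQ.flip
      rw [hy']
      refine Prod.ext ?_ (Prod.ext ?_ ?_)
      · simp only
        ring
      · simp only
        linear_combination y.2.1 * hdet'
      · simp only
        linear_combination y.2.2 * hdet'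
    have h2 : 1 / 8 < y'.1 := by rw [hy']; simp only; linarith
    have h3 : y'.1 < 1 / 4 := by rw [hy']; simp only; linarith
    have h4 : 0 < y'.1 := by linarith
    refine ⟨0, y', h2, h3, ?_⟩
    rw [qm_eq (polar_mem h4 h3)]
    refine (mk_polar h4 h3).trans ?_
    have h5 : ∀ (z : ℝ × ℝ × ℝ) (hz : polar z ∈ piece), z = y →
        (Quot.mk (Glue A) (1, ⟨polar z, hz⟩) : MBar A) = qm A 1 (polar y) := by
      rintro z hz rfl
      exact (qm_eq hz).symm
    exact h5 _ _ hfl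

/-- polar coordinates -/
theorem exists_polar_eq (x : ℂ × ℝ) (m n : ℤ) :
    ∃ y : ℝ × ℝ × ℝ, y.1 = ‖x.1 - (m + n * Complex.I)‖ ∧ polar y = x + lat (-m) (-n) 0 := by
  set z := x.1 - (m + n * Complex.I) with hz
  refine ⟨(‖z‖, Complex.arg z / (2 * Real.pi), x.2), rfl, ?_⟩
  unfold polar
  refine Prod.ext ?_ ?_
  · simp only [lat, Prod.fst_add]
    have h1 : (2 * Real.pi : ℂ) ≠ 0 := by
      exact_mod_cast (by positivity : (2 * Real.pi : ℝ) ≠ 0)
    have h2 : 2 * (Real.pi : ℂ) * ((Complex.arg z / (2 * Real.pi) : ℝ) : ℂ) * Complex.I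
        = Complex.arg z * Complex.I := by
      push_cast
      field_simp
    rw [h2, Complex.norm_mul_exp_arg_mul_I, hz]
    push_cast
    ring
  · simp [lat]

theorem exists_compact_cover (A : Matrix.SpecialLinearGroup (Fin 2) ℤ) :
    ∃ K : Set (ℂ × ℝ), IsCompact K ∧ K ⊆ piece ∧
      ∀ m : MBar A, ∃ (i : Fin 2), ∃ x ∈ K, qm A i x = m := by
  refine ⟨kSet, isCompact_kSet, fun x hx => farSet_subset hx.2, fun m => ?_⟩
  obtain ⟨i, x, hx, rfl⟩ := exists_qm m
  by_cases hfar : x ∈ farSet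
  · obtain ⟨x', hx', h⟩ := exists_translate A i hfar
    exact ⟨i, x', hx', h⟩
  · simp only [farSet, mem_ofPred_eq, not_forall, not_le] at hfar
    obtain ⟨a, b, hab⟩ := hfar
    obtain ⟨y, hy1, hy2⟩ := exists_polar_eq x a b
    have hpos : 0 < y.1 := by
      rw [hy1, norm_pos_iff, sub_ne_zero]
      exact hx a b
    obtain ⟨j, y', h0, h1, h2⟩ := exists_other A i hpos (by rw [hy1]; exact hab)
    obtain ⟨x', hx', h3⟩ := exists_translate A j (polar_farSet h0 h1)
    refine ⟨j, x', hx', ?_⟩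
    rw [h3, h2, hy2, qm_eq hx, qm_eq (add_lat_mem hx _ _ _)]
    exact mk_add_lat i hx _ _ _

end Pool.Agent.NCT
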