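import Pool.Agent.NCT.TopDef
import Pool.Agent.NCP.GDefs

/-! # NCT: tiles, collar, corners, sectors, words (definitions)

`tile 1` is the open diamond with centre `(1 + i)/2` and `l¹`-radius `1` (times `ℝ`); its translates by `ℤ[i]` cover `ℂ ∖ ℤ[i]`. `collar` is the set of polar coordinates
`(r, φ, s)`, `0 < r < 1/4`. `corner n` runs through the corners `1 + i, i, 0, 1` of the unit square
(period `4`); for `φ` in the sector `S_n = (3/8 + n/4, 7/8 + n/4)` the point with polar coordinates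
`(r, φ)` around `corner n` lies in the tile. -/

set_option autoImplicit false

open Set Filter Topology

namespace Pool.Agent.NCT

open Pool.Agent.NCQ

/-- the open diamond of radius `ρ` around `(1 + i)/2`, times `ℝ` -/
def tile (ρ : ℝ) : Set (ℂ × ℝ) := {x | |x.1.re - 1 / 2| + |x.1.im - 1 / 2| < ρ}

/-- collar coordinates `(r, φ, s)` -/
def collar : Set (ℝ × ℝ × ℝ) := {y | 0 < y.1 ∧ y.1 < 1 / 4}

/-- corners of the unit square in the order `1 + i, i, 0, 1`, period `4` -/
def corner (n : ℤ) : ℤ × ℤ :=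
  if n % 4 = 0 then (1, 1) else if n % 4 = 1 then (0, 1) else if n % 4 = 2 then (0, 0) else (1, 0)

/-- the angle `φ` is in the sector `S_n = (3/8 + n/4, 7/8 + n/4)` -/
def inS (n : ℤ) (φ : ℝ) : Prop := 3 / 8 + (n : ℝ) / 4 < φ ∧ φ < 7 / 8 + (n : ℝ) / 4

/-- the point with polar coordinates `y` around the corner `n` -/
noncomputable def cpt (n : ℤ) (y : ℝ × ℝ × ℝ) : ℂ × ℝ :=
  polar y + lat (corner n).1 (corner n).2 0

/-- the word of a (unit) lattice vector -/
def wd (m n : ℤ) : FreeGroup (Fin 2) := FreeGroup.of 0 ^ m * FreeGroup.of 1 ^ n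

/-- `U 0, U 1, U 2, U 3 = 1, a, a c, a c a⁻¹` and `U (n + 4) = bdry * U n` -/
def U (n : ℤ) : FreeGroup (Fin 2) :=
  NCP.bdry ^ (n / 4) * (if n % 4 = 0 then 1 else if n % 4 = 1 then FreeGroup.of 0
    else if n % 4 = 2 then FreeGroup.of 0 * FreeGroup.of 1
    else FreeGroup.of 0 * FreeGroup.of 1 * (FreeGroup.of 0)⁻¹)

/-- collar coordinates (given in the copy `0`) seen from the copy `i` -/
noncomputable def sd (A : Matrix.SpecialLinearGroup (Fin 2) ℤ) (i : Fin 2) (y : ℝ × ℝ × ℝ) :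
    ℝ × ℝ × ℝ := if i = 0 then y else flip A y

/-- inverse of `sd` -/
noncomputable def sdInv (A : Matrix.SpecialLinearGroup (Fin 2) ℤ) (i : Fin 2) (y : ℝ × ℝ × ℝ) :
    ℝ × ℝ × ℝ := if i = 0 then y else flip A⁻¹ y

/-- the inclusion of the group of the copy `i` -/
def inc (A : Matrix.SpecialLinearGroup (Fin 2) ℤ) (i : Fin 2) :
    FreeGroup (Fin 2) × Multiplicative ℤ →* NCP.GMGroup A :=
  Monoid.PushoutI.of (G := fun _ : Fin 2 => FreeGroup (Fin 2) × Multiplicative ℤ)
    (φ := NCP.phi A) i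

/-- addition of an integer vector to the angle and the last coordinate -/
def addv (y : ℝ × ℝ × ℝ) (v : Fin 2 → ℤ) : ℝ × ℝ × ℝ := (y.1, y.2.1 + v 0, y.2.2 + v 1)

end Pool.Agent.NCT
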