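import Pool.Agent.NCT.TileRho
import Pool.Agent.NCT.SectGeo
import Pool.Agent.NCT.SideDef
import Pool.Agent.NCT.LiftConv

/-! # NCT: existence of the data of one side

Let `kap` be a lift of `qm A i ∘ polar` on the collar, `y₀ = (1/8, 5/8, 0)` (in the sector `0`), `lam`
the lift of `qm A i` on `tile 1` with `lam (cpt 0 y₀) = kap y₀` (`exists_lift_convex`, `qm_cpt`), `rho`
from `exists_tile_rho`. Claim `P n`: `kap y = rho (U n, 1) (lam (cpt n y))` for all `y ∈ collar` with
`inS n y.2.1`. Both sides are continuous lifts of `qm A i ∘ polar` on the convex set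
`{y ∈ collar | inS n y.2.1}` (`cpt_mem`, `qm_cpt`, `convex_inS`), so it is enough to have equality at
one point (`IsCoveringMap.eqOn_of_comp_eqOn`). `P 0`: `y₀`. `P n → P n'` for `|n - n'| = 1`: take a
point `y` in both sectors (`y = (1/8, 5/8 + n/4 + 1/8, 0)` if `n' = n + 1`); with
`v = corner n - corner n'`, `cpt n y = cpt n' y + lat v.1 v.2 0`, so
`kap y = rho (U n, 1) (rho (wd v.1 v.2, 1) (lam (cpt n' y))) = rho (U n', 1) (lam (cpt n' y))` by
`U_wd`. Then `Int.induction_on`. -/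

set_option autoImplicit false

open Set Filter Topology

namespace Pool.Agent.NCT

open Pool.Agent.NCQ

variable {A : Matrix.SpecialLinearGroup (Fin 2) ℤ}

theorem exists_side {X : Type} [TopologicalSpace X] [SimplyConnectedSpace X]
    [LocallyPathConnectedSpace X] {p : X → MBar A} (hp : IsCoveringMap p) (i : Fin 2)
    {kap : ℝ × ℝ × ℝ → X} (hc : ContinuousOn kap collar)
    (h : ∀ y ∈ collar, p (kap y) = qm A i (polar y)) : Nonempty (Side A p i kap) := by
  have hy0 : ((1 / 8 : ℝ), (5 / 8 : ℝ), (0 : ℝ)) ∈ collar := by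
    constructor <;> norm_num
  have hin0 : inS 0 ((1 / 8 : ℝ), (5 / 8 : ℝ), (0 : ℝ)).2.1 := by
    constructor <;> norm_num
  obtain ⟨lam, hlc, hl0, hlp⟩ := exists_lift_convex hp (convex_tile 1) (isOpen_tile 1)
    ((continuousOn_qm i).mono (tile_subset_piece le_rfl)) (cpt_mem hy0 hin0)
    (x := kap (1 / 8, 5 / 8, 0)) (by rw [h _ hy0, qm_cpt i hy0 0])
  obtain ⟨rho, hrho⟩ := exists_tile_rho hp hlc hlp
  have hstep : ∀ n : ℤ, (∃ y ∈ collar, inS n y.2.1 ∧
      kap y = (rho (U n, 1)).1 (lam (cpt n y))) →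
      ∀ y ∈ collar, inS n y.2.1 → kap y = (rho (U n, 1)).1 (lam (cpt n y)) := by
    rintro n ⟨y0, hy0, hin0, he⟩ y hy hin
    have hconv : Convex ℝ (collar ∩ {y | inS n y.2.1}) := convex_collar.inter (convex_inS n)
    refine hp.eqOn_of_comp_eqOn (g₁ := kap) (g₂ := fun y => (rho (U n, 1)).1 (lam (cpt n y)))
      hconv.isPreconnected (hc.mono inter_subset_left) ?_ ?_ ⟨hy0, hin0⟩ he ⟨hy, hin⟩
    · refine (deck_cont _).comp_continuousOn (hlc.comp ?_ ?_)
      · exact (contDiff_polar.continuous.add continuous_const).continuousOn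
      · rintro z ⟨hz, hz'⟩
        exact cpt_mem hz hz'
    · rintro z ⟨hz, hz'⟩
      show p (kap z) = p ((rho (U n, 1)).1 (lam (cpt n z)))
      rw [deck_proj (p := p) (rho (U n, 1)) (lam (cpt n z)), hlp _ (cpt_mem hz hz'), qm_cpt i hz,
        h z hz]
  have hnb : ∀ n n' : ℤ, |n - n'| ≤ 1 →
      (∀ y ∈ collar, inS n y.2.1 → kap y = (rho (U n, 1)).1 (lam (cpt n y))) →
      ∀ y ∈ collar, inS n' y.2.1 → kap y = (rho (U n', 1)).1 (lam (cpt n' y)) := by
    intro n n' hn hP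
    apply hstep
    have hn' : |(n : ℝ) - n'| ≤ 1 := by exact_mod_cast hn
    obtain ⟨h1, h2⟩ := abs_le.mp hn'
    have hy1 : ((1 / 8 : ℝ), (5 / 8 + ((n : ℝ) + n') / 8 : ℝ), (0 : ℝ)) ∈ collar := by
      constructor <;> norm_num
    have hi1 : inS n (5 / 8 + ((n : ℝ) + n') / 8) := by
      constructor <;> linarith
    have hi2 : inS n' (5 / 8 + ((n : ℝ) + n') / 8) := by
      constructor <;> linarith
    have m1 : cpt n (1 / 8, 5 / 8 + ((n : ℝ) + n') / 8, 0) ∈ tile 1 := cpt_mem hy1 hi1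
    have m2 : cpt n' (1 / 8, 5 / 8 + ((n : ℝ) + n') / 8, 0) ∈ tile 1 := cpt_mem hy1 hi2
    refine ⟨_, hy1, hi2, ?_⟩
    rw [hP _ hy1 hi1]
    have e1 : cpt n (1 / 8, 5 / 8 + ((n : ℝ) + n') / 8, 0) =
        cpt n' (1 / 8, 5 / 8 + ((n : ℝ) + n') / 8, 0) +
          lat ((corner n).1 - (corner n').1) ((corner n).2 - (corner n').2) 0 := by
      unfold cpt
      rw [add_assoc, lat_add]
      congr 2 <;> ring
    have e2 := hrho _ m2 _ _ 0 (e1 ▸ m1)
    rw [e1, e2, ← deck_mul, ← map_mul, U_wd hn]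
    rfl
  have hall : ∀ n : ℤ, ∀ y ∈ collar, inS n y.2.1 →
      kap y = (rho (U n, 1)).1 (lam (cpt n y)) := by
    intro n
    induction n using Int.induction_on with
    | zero =>
      refine hstep 0 ⟨_, hy0, hin0, ?_⟩
      have h1 : rho (U 0, 1) = 1 := by
        rw [U_zero]
        exact map_one rho
      rw [h1, deck_one, hl0]
    | succ n ih => exact hnb n (n + 1) (by simp) ih
    | pred n ih => exact hnb (-n) (-n - 1) (by simp) ih
  exact ⟨⟨lam, rho, hlc, hlp, hrho, fun y hy n hn => hall n y hy hn⟩⟩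

end Pool.Agent.NCT
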