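import Pool.Agent.NCT.GrpLem
import Pool.Agent.NCT.TileGeo
import Pool.Agent.NCT.CovGeo
import Pool.Agent.NCT.DeckLem

/-! # NCT: the homomorphism of the group of one piece, defined by the tile

Let `lam` be a lift of `qm A i` on `tile 1`. For `(m, n)` with `|m| + |n| ≤ 1` and `k : ℤ` the set
`S = {x | x ∈ tile 1 ∧ x + lat m n k ∈ tile 1}` is convex and nonempty (`exists_tile_lat`), and
`x ↦ lam (x + lat m n k)` and `lam` are two lifts of `qm A i` on `S` (`qm_add_lat`). By
`deck_of_lifts` there is `d m n k : Deck p` with `lam (x + lat m n k) = d m n k (lam x)` on `S`. Let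
`a = d 1 0 0`, `c = d 0 1 0`, `z = d 0 0 1`.
* `lam (x + lat 0 0 k) = z ^ k (lam x)` for all `x ∈ tile 1` and integers `k` (`tile_vert`,
  induction on `k`).
* `z` commutes with `a`: at a point `x` with `x, x + lat 1 0 0 ∈ tile 1`,
  `a (z (lam x)) = a (lam (x + lat 0 0 1)) = lam (x + lat 1 0 1) = z (lam (x + lat 1 0 0)) =
  z (a (lam x))`, and use `deck_free`. The same for `c`.
* `rho (u, ofAdd k) = (FreeGroup.lift ![a, c] u) * z ^ k`, a homomorphism
  (`MonoidHom.noncommCoprod`).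
* For `(m, n) = (0, 0), (±1, 0), (0, ±1)` (`tile_lat`): `lam (x + lat m n 0) = rho (wd m n, 1) (lam x)`,
  then add `lat 0 0 k`. -/

set_option autoImplicit false

open Set Filter Topology

namespace Pool.Agent.NCT

open Pool.Agent.NCQ

variable {A : Matrix.SpecialLinearGroup (Fin 2) ℤ}

theorem tileRho_lat_zero : lat 0 0 0 = 0 := by
  simp [lat]

theorem tileRho_assoc (x : ℂ × ℝ) (m n k m' n' k' m'' n'' k'' : ℤ) (h1 : m + m' = m'')
    (h2 : n + n' = n'') (h3 : k + k' = k'') :
    x + lat m n k + lat m' n' k' = x + lat m'' n'' k'' := by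
  rw [add_assoc, lat_add, h1, h2, h3]

theorem tileRho_step {X : Type} [TopologicalSpace X] [SimplyConnectedSpace X]
    [LocallyPathConnectedSpace X] {p : X → MBar A} (hp : IsCoveringMap p) {i : Fin 2}
    {lam : ℂ × ℝ → X} (hc : ContinuousOn lam (tile 1)) (h : ∀ x ∈ tile 1, p (lam x) = qm A i x)
    (m n k : ℤ) :
    ∃ d : Deck p, ∀ x ∈ tile 1, x + lat m n k ∈ tile 1 → lam (x + lat m n k) = d.1 (lam x) := by
  have hS : IsPreconnected (tile 1 ∩ (fun x => x + lat m n k) ⁻¹' tile 1) :=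
    ((convex_tile 1).inter ((convex_tile 1).translate_preimage_left (lat m n k))).isPreconnected
  obtain ⟨d, hd⟩ := deck_of_lifts hp hS (f := fun x => lam (x + lat m n k)) (g := lam)
    (hc.comp (continuous_id.add continuous_const).continuousOn fun x hx => hx.2)
    (hc.mono inter_subset_left) (by
      rintro x ⟨hx, hx'⟩
      show p (lam (x + lat m n k)) = p (lam x)
      rw [h _ hx', h _ hx, qm_add_lat i (tile_subset_piece le_rfl hx)])
  exact ⟨d, fun x hx hx' => hd x ⟨hx, hx'⟩⟩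

theorem exists_tile_rho {X : Type} [TopologicalSpace X] [SimplyConnectedSpace X]
    [LocallyPathConnectedSpace X] {p : X → MBar A} (hp : IsCoveringMap p) {i : Fin 2}
    {lam : ℂ × ℝ → X} (hc : ContinuousOn lam (tile 1)) (h : ∀ x ∈ tile 1, p (lam x) = qm A i x) :
    ∃ rho : FreeGroup (Fin 2) × Multiplicative ℤ →* Deck p, ∀ x ∈ tile 1, ∀ m n k : ℤ,
      x + lat m n k ∈ tile 1 →
        lam (x + lat m n k) = (rho (wd m n, Multiplicative.ofAdd k)).1 (lam x) := by
  obtain ⟨z, hz1⟩ := tileRho_step hp hc h 0 0 1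
  obtain ⟨a, ha⟩ := tileRho_step hp hc h 1 0 0
  obtain ⟨c, hc'⟩ := tileRho_step hp hc h 0 1 0
  have hz2 : ∀ x ∈ tile 1, lam (x + lat 0 0 1) = z.1 (lam x) := fun x hx =>
    hz1 x hx ((tile_vert 1).2 hx)
  -- a general principle to go backwards
  have back : ∀ (d : Deck p) (m n k : ℤ) (_ : ∀ x ∈ tile 1, x + lat m n k ∈ tile 1 →
      lam (x + lat m n k) = d.1 (lam x)) (x : ℂ × ℝ) (_ : x ∈ tile 1)
      (_ : x + lat (-m) (-n) (-k) ∈ tile 1),
      lam (x + lat (-m) (-n) (-k)) = (d⁻¹).1 (lam x) := by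
    intro d m n k hd x hx hx'
    have e : x + lat (-m) (-n) (-k) + lat m n k = x := by
      rw [tileRho_assoc x (-m) (-n) (-k) m n k 0 0 0 (by ring) (by ring) (by ring),
        tileRho_lat_zero, add_zero]
    have h1 := hd _ hx' (by rw [e]; exact hx)
    rw [e] at h1
    rw [h1]
    show _ = (d⁻¹ * d).1 _
    rw [inv_mul_cancel]
    rfl
  have hz : ∀ k : ℤ, ∀ x ∈ tile 1, lam (x + lat 0 0 k) = (z ^ k).1 (lam x) := by
    intro k
    induction k using Int.induction_on with
    | zero =>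
      intro x hx
      rw [tileRho_lat_zero, add_zero, zpow_zero]
      rfl
    | succ k ih =>
      intro x hx
      have hx1 : x + lat 0 0 1 ∈ tile 1 := (tile_vert 1).2 hx
      have h1 := ih _ hx1
      rw [tileRho_assoc x 0 0 1 0 0 k 0 0 ((k : ℤ) + 1) (by ring) (by ring) (by ring), hz2 x hx]
        at h1
      rw [h1, zpow_add_one]
      rfl
    | pred k ih =>
      intro x hx
      have hx1 : x + lat 0 0 (-1) ∈ tile 1 := (tile_vert (-1)).2 hx
      have h1 := ih _ hx1
      have h2 := back z 0 0 1 (fun x hx _ => hz2 x hx) x hx (by simpa using hx1)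
      simp only [neg_zero] at h2
      rw [tileRho_assoc x 0 0 (-1) 0 0 (-(k : ℤ)) 0 0 (-(k : ℤ) - 1) (by ring) (by ring) (by ring),
        h2] at h1
      rw [h1, zpow_sub_one]
      rfl
  have comm : ∀ (d : Deck p) (m n : ℤ) (_ : |m| + |n| ≤ 1)
      (_ : ∀ x ∈ tile 1, x + lat m n 0 ∈ tile 1 → lam (x + lat m n 0) = d.1 (lam x)),
      Commute d z := by
    intro d m n hmn hd
    obtain ⟨x, hx, hx'⟩ := exists_tile_lat 0 hmn
    have hx1 : x ∈ tile 1 := tile_mono (by norm_num) hx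
    have hx1' : x + lat m n 0 ∈ tile 1 := tile_mono (by norm_num) hx'
    have e1 : x + lat 0 0 1 + lat m n 0 = x + lat m n 0 + lat 0 0 1 := by
      rw [add_assoc, add_assoc, add_comm (lat 0 0 1)]
    have h1 : lam (x + lat 0 0 1 + lat m n 0) = d.1 (lam (x + lat 0 0 1)) :=
      hd _ ((tile_vert 1).2 hx1) (by rw [e1]; exact (tile_vert 1).2 hx1')
    have h2 : lam (x + lat m n 0 + lat 0 0 1) = z.1 (lam (x + lat m n 0)) := hz2 _ hx1'
    refine deck_free hp (x := lam x) ?_
    show d.1 (z.1 (lam x)) = z.1 (d.1 (lam x))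
    rw [← hz2 x hx1, ← h1, e1, h2, hd x hx1 hx1']
  have ca : Commute a z := comm a 1 0 (by norm_num) ha
  have cc : Commute c z := comm c 0 1 (by norm_num) hc'
  have cu : ∀ u : FreeGroup (Fin 2), Commute (FreeGroup.lift ![a, c] u) z := by
    intro u
    induction u using FreeGroup.induction_on with
    | C1 => rw [map_one]; exact Commute.one_left z
    | of j =>
      rw [FreeGroup.lift_apply_of]
      fin_cases j
      · exact ca
      · exact cc
    | inv_of j hj => rw [map_inv]; exact hj.inv_left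
    | mul u v hu hv => rw [map_mul]; exact hu.mul_left hv
  let rho : FreeGroup (Fin 2) × Multiplicative ℤ →* Deck p :=
    (FreeGroup.lift ![a, c]).noncommCoprod (zpowersHom (Deck p) z) (fun u k => by
      rw [zpowersHom_apply]
      exact (cu u).zpow_right _)
  refine ⟨rho, ?_⟩
  intro x hx m n k hxk
  have hmn : |m| + |n| ≤ 1 := tile_lat hx hxk
  have e0 : x + lat m n k = x + lat m n 0 + lat 0 0 k :=
    (tileRho_assoc x m n 0 0 0 k m n k (by ring) (by ring) (by ring)).symm
  have hx0 : x + lat m n 0 ∈ tile 1 := by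
    rw [e0] at hxk
    exact (tile_vert k).1 hxk
  have hrho : (rho (wd m n, Multiplicative.ofAdd k)).1 (lam x)
      = (z ^ k).1 ((FreeGroup.lift ![a, c] (wd m n)).1 (lam x)) := by
    have h1 : rho (wd m n, Multiplicative.ofAdd k)
        = FreeGroup.lift ![a, c] (wd m n) * z ^ k := rfl
    rw [h1, ((cu (wd m n)).zpow_right k).eq]
    rfl
  rw [hrho, e0, hz k _ hx0]
  congr 1
  -- the five cases
  have hm := abs_nonneg m
  have hn := abs_nonneg n
  have hcases : (m = 0 ∧ n = 0) ∨ (m = 1 ∧ n = 0) ∨ (m = -1 ∧ n = 0) ∨ (m = 0 ∧ n = 1) ∨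
      (m = 0 ∧ n = -1) := by
    rcases abs_cases m with ⟨h1, h2⟩ | ⟨h1, h2⟩ <;> rcases abs_cases n with ⟨h3, h4⟩ | ⟨h3, h4⟩ <;>
      omega
  rcases hcases with ⟨rfl, rfl⟩ | ⟨rfl, rfl⟩ | ⟨rfl, rfl⟩ | ⟨rfl, rfl⟩ | ⟨rfl, rfl⟩
  · rw [tileRho_lat_zero, add_zero]
    simp [wd]
  · rw [ha x hx hx0]
    simp [wd]
  · have h1 := back a 1 0 0 ha x hx (by simpa using hx0)
    simp only [neg_zero] at h1
    rw [h1]
    simp [wd]
  · rw [hc' x hx hx0]
    simp [wd]
  · have h1 := back c 0 1 0 hc' x hx (by simpa using hx0)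
    simp only [neg_zero] at h1
    rw [h1]
    simp [wd]

end Pool.Agent.NCT
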