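import Pool.Agent.NCQ.Exact
import Pool.Agent.NCQ.GClm
import Pool.Agent.NCQ.PolarInv

/-! # NCT: the topology of the closed graph manifold `MBar A` -/

set_option autoImplicit false

open Set Filter Topology

namespace Pool.Agent.NCT

open Pool.Agent.NCQ

variable {A : Matrix.SpecialLinearGroup (Fin 2) ℤ}

/-- the quotient topology -/
instance (A : Matrix.SpecialLinearGroup (Fin 2) ℤ) : TopologicalSpace (MBar A) :=
  inferInstanceAs (TopologicalSpace (Quot (Glue A)))

theorem half_mem_piece : ((1 / 2 : ℂ), (0 : ℝ)) ∈ piece := by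
  intro m n h
  have h1 := congrArg Complex.re h
  have h2 : (1 / 2 : ℝ) = m := by simpa using h1
  have h3 : (1 : ℝ) = 2 * m := by linarith
  have h4 : (1 : ℤ) = 2 * m := by exact_mod_cast h3
  omega

open Classical in
/-- The quotient map of the copy `i`, extended by a constant outside `piece`. -/
noncomputable def qm (A : Matrix.SpecialLinearGroup (Fin 2) ℤ) (i : Fin 2) (x : ℂ × ℝ) : MBar A :=
  if h : x ∈ piece then Quot.mk (Glue A) (i, ⟨x, h⟩)
  else Quot.mk (Glue A) (0, ⟨((1 / 2 : ℂ), (0 : ℝ)), half_mem_piece⟩)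

theorem qm_eq {i : Fin 2} {x : ℂ × ℝ} (h : x ∈ piece) :
    qm A i x = Quot.mk (Glue A) (i, ⟨x, h⟩) := dif_pos h

/-- every point is in the image of a piece -/
theorem exists_qm (m : MBar A) : ∃ (i : Fin 2) (x : ℂ × ℝ), x ∈ piece ∧ qm A i x = m := by
  obtain ⟨⟨i, x, hx⟩, rfl⟩ := Quot.exists_rep m
  exact ⟨i, x, hx, qm_eq hx⟩

end Pool.Agent.NCT
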