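import Pool.Agent.NCT.PlaneDef

/-! # NCT: the space `W` of tiles and collar, with its map to `MBar A` and its cocycle (definitions)

`W` is the disjoint union of two tiles of radius `13/16` (times `ℝ`) and of the collar. The cocycle
with values in `NCP.GMGroup A` is given by its graph `TT` (tile, tile), `QT` (collar, tile), `QQ`
(collar, collar). -/

set_option autoImplicit false

open Set Filter Topology

namespace Pool.Agent.NCT

open Pool.Agent.NCQ

/-- tiles and collar -/
abbrev W : Type := (Fin 2 × ↥(tile (13 / 16))) ⊕ ↥collar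

variable (A : Matrix.SpecialLinearGroup (Fin 2) ℤ)

/-- the map to the closed manifold -/
noncomputable def qW : W → MBar A :=
  Sum.elim (fun z => qm A z.1 z.2.1) (fun y => qm A 0 (polar y.1))

/-- cocycle on tile and tile -/
def TT (z z' : Fin 2 × ↥(tile (13 / 16))) (g : NCP.GMGroup A) : Prop :=
  z.1 = z'.1 ∧ ∃ m n k : ℤ, z.2.1 = z'.2.1 + lat m n k ∧
    g = inc A z.1 (wd m n, Multiplicative.ofAdd k)

/-- cocycle on collar and tile -/
def QT (y : ↥collar) (z : Fin 2 × ↥(tile (13 / 16))) (g : NCP.GMGroup A) : Prop :=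
  ∃ n k : ℤ, inS n (sd A z.1 y.1).2.1 ∧ cpt n (sd A z.1 y.1) = z.2.1 + lat 0 0 k ∧
    g = inc A z.1 (U n, Multiplicative.ofAdd k)

/-- cocycle on collar and collar -/
def QQ (y y' : ↥collar) (g : NCP.GMGroup A) : Prop :=
  ∃ v : Fin 2 → ℤ, y.1 = addv y'.1 v ∧ g = inc A 0 (NCP.peri (Multiplicative.ofAdd v))

/-- the graph of the cocycle -/
def RW : W → W → NCP.GMGroup A → Prop
  | Sum.inl z, Sum.inl z', g => TT A z z' g
  | Sum.inl z, Sum.inr y, g => QT A y z g⁻¹
  | Sum.inr y, Sum.inl z, g => QT A y z g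
  | Sum.inr y, Sum.inr y', g => QQ A y y' g

end Pool.Agent.NCT
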