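import Pool.Agent.NCT.WDef
import Pool.Agent.NCT.GrpLem
import Pool.Agent.NCT.TileGeo
import Pool.Agent.NCT.CovGeo

/-! # NCT: the cocycle on pairs of tiles -/

set_option autoImplicit false

open Set Filter Topology

namespace Pool.Agent.NCT

open Pool.Agent.NCQ

variable {A : Matrix.SpecialLinearGroup (Fin 2) ℤ} {z z' z'' : Fin 2 × ↥(tile (13 / 16))}
  {g g' : NCP.GMGroup A}

/-- `qm_add_lat` -/
theorem TT_proj (h : TT A z z' g) : qm A z.1 z.2.1 = qm A z'.1 z'.2.1 := by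
  obtain ⟨h1, m, n, k, h2, -⟩ := h
  rw [h1, h2]
  exact qm_add_lat z'.1 (tile_subset_piece (by norm_num) z'.2.2) m n k

/-- Same copy: `mk_eq_same` (with `qm_eq`). Different copies: by `mk_eq_diff` the points are
`polar y + lat` and `polar (flip A y) + lat` with `0 < y.1 < 1/4`, and by `tile_far` `y.1 > 1/8` and
`1/4 - y.1 > 1/8`, impossible. -/
theorem TT_ex (h : qm A z.1 z.2.1 = qm A z'.1 z'.2.1) : ∃ g, TT A z z' g := by
  obtain ⟨i, x, hx⟩ := z
  obtain ⟨j, y, hy⟩ := z'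
  have hxp : x ∈ piece := tile_subset_piece (by norm_num) hx
  have hyp : y ∈ piece := tile_subset_piece (by norm_num) hy
  simp only at h
  rw [qm_eq hxp, qm_eq hyp] at h
  have key : ∀ {a b : ℂ × ℝ} (ha : a ∈ piece) (hb : b ∈ piece), a ∈ tile (13 / 16) →
      b ∈ tile (13 / 16) → Quot.mk (Glue A) ((0 : Fin 2), (⟨a, ha⟩ : piece)) ≠
        Quot.mk (Glue A) ((1 : Fin 2), (⟨b, hb⟩ : piece)) := by
    intro a b ha hb hat hbt hab
    obtain ⟨p, m, n, k, m', n', k', h0, h1, e1, e2⟩ := mk_eq_diff hab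
    have h3 := tile_far hat h0 e1
    have h4 : 0 < (NCQ.flip A p).1 := by
      simp only [NCQ.flip]
      linarith
    have h5 := tile_far hbt h4 e2
    simp only [NCQ.flip] at h5
    linarith
  by_cases hij : i = j
  · subst hij
    obtain ⟨m, n, k, e⟩ := mk_eq_same h.symm
    exact ⟨_, rfl, m, n, k, e, rfl⟩
  · exfalso
    rcases (by omega : i = 0 ∧ j = 1 ∨ i = 1 ∧ j = 0) with ⟨rfl, rfl⟩ | ⟨rfl, rfl⟩
    · exact key hxp hyp hx hy h
    · exact key hyp hxp hy hx h.symm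

/-- `lat_inj` -/
theorem TT_uniq (h : TT A z z' g) (h' : TT A z z' g') : g = g' := by
  obtain ⟨h1, m, n, k, h2, h3⟩ := h
  obtain ⟨-, m', n', k', h2', h3'⟩ := h'
  rw [h2] at h2'
  obtain ⟨rfl, rfl, rfl⟩ := lat_inj (add_left_cancel h2')
  rw [h3, h3']

/-- `lat_add`, `tile_lat` (three times, `tile_mono`), `wd_mul` -/
theorem TT_trans (h : TT A z z' g) (h' : TT A z' z'' g') : TT A z z'' (g * g') := by
  obtain ⟨h1, m, n, k, h2, h3⟩ := h
  obtain ⟨h1', m', n', k', h2', h3'⟩ := h'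
  have hz : z.2.1 ∈ tile 1 := tile_mono (by norm_num) z.2.2
  have hz' : z'.2.1 ∈ tile 1 := tile_mono (by norm_num) z'.2.2
  have hz'' : z''.2.1 ∈ tile 1 := tile_mono (by norm_num) z''.2.2
  have e : z.2.1 = z''.2.1 + lat (m + m') (n + n') (k + k') := by
    rw [h2, h2', add_assoc, lat_add, add_comm m', add_comm n', add_comm k']
  refine ⟨h1.trans h1', m + m', n + n', k + k', e, ?_⟩
  have l1 : |m| + |n| ≤ 1 := tile_lat hz' (h2 ▸ hz)
  have l2 : |m'| + |n'| ≤ 1 := tile_lat hz'' (h2' ▸ hz')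
  have l3 : |m + m'| + |n + n'| ≤ 1 := tile_lat hz'' (e ▸ hz)
  rw [h3, h3', h1, ← map_mul, Prod.mk_mul_mk, wd_mul l1 l2 l3, ← ofAdd_add]

/-- For `u` near `(z, z')` the copies are the same (`Fin 2` is discrete), and `TT_ex` gives
`u.1.2 - u.2.2 = lat m' n' k'`, close to `z.2 - z'.2 = lat m n k`, so equal by `lat_near`. -/
theorem TT_loc (h : TT A z z' g) :
    ∀ᶠ u : (Fin 2 × ↥(tile (13 / 16))) × (Fin 2 × ↥(tile (13 / 16))) in 𝓝 (z, z'),
      qm A u.1.1 u.1.2.1 = qm A u.2.1 u.2.2.1 → TT A u.1 u.2 g := by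
  obtain ⟨h1, m, n, k, h2, h3⟩ := h
  have c1 : ∀ᶠ u : (Fin 2 × ↥(tile (13 / 16))) × (Fin 2 × ↥(tile (13 / 16))) in 𝓝 (z, z'),
      u.1.1 = z.1 := by
    have hc : Continuous fun u : (Fin 2 × ↥(tile (13 / 16))) × (Fin 2 × ↥(tile (13 / 16))) =>
        u.1.1 := continuous_fst.comp continuous_fst
    have h5 : ({z.1} : Set (Fin 2)) ∈ 𝓝 ((fun u : (Fin 2 × ↥(tile (13 / 16))) ×
        (Fin 2 × ↥(tile (13 / 16))) => u.1.1) (z, z')) :=
      IsOpen.mem_nhds (isOpen_discrete {z.1}) (mem_singleton _)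
    exact hc.continuousAt.eventually h5
  have c2 : ∀ᶠ u : (Fin 2 × ↥(tile (13 / 16))) × (Fin 2 × ↥(tile (13 / 16))) in 𝓝 (z, z'),
      ‖(u.1.2.1 - u.2.2.1) - lat m n k‖ < 1 := by
    have hc : Continuous fun u : (Fin 2 × ↥(tile (13 / 16))) × (Fin 2 × ↥(tile (13 / 16))) =>
        ‖(u.1.2.1 - u.2.2.1) - lat m n k‖ := by fun_prop
    refine hc.continuousAt.eventually (IsOpen.mem_nhds isOpen_Iio ?_)
    show ‖(z.2.1 - z'.2.1) - lat m n k‖ < 1
    rw [h2]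
    simp
  filter_upwards [c1, c2] with u hu1 hu2 hu
  obtain ⟨g', g1, m', n', k', g2, g3⟩ := TT_ex hu
  have e : u.1.2.1 - u.2.2.1 = lat m' n' k' := by rw [g2]; simp
  rw [e] at hu2
  obtain ⟨rfl, rfl, rfl⟩ := lat_near hu2
  refine ⟨g1, m', n', k', g2, ?_⟩
  rw [h3, hu1]

end Pool.Agent.NCT
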